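import Pool.Agent.Lib.PosetForcing.CardDefs

set_option autoImplicit false

/-! The notions of the problem written inside a structure `(M, mem)`; all quantifiers range
over `M`. The element `w` plays the role of `ω`, `X` is the space and `T` its set of open sets. -/

open Pool.Agent.Lib.PosetForcing

namespace Pool.Agent.P.MP_63de32_gt

universe v

variable {M : Type v} (mem : M → M → Prop)

/-- `A` is finite: it injects into a natural number -/
def IsFin (w A : M) : Prop := ∃ n, mem n w ∧ LeCard mem A n

/-- `T` is a topology on `X` -/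
def IsTop (X T : M) : Prop :=
  (∀ V, mem V T → IsSub mem V X) ∧ mem X T ∧
  (∀ V W Z, mem V T → mem W T → (∀ x, mem x Z ↔ mem x V ∧ mem x W) → mem Z T) ∧
  ∀ F Z, IsSub mem F T → (∀ x, mem x Z ↔ ∃ V, mem V F ∧ mem x V) → mem Z T

/-- distinct points have disjoint open neighbourhoods -/
def IsHausdorff (X T : M) : Prop :=
  ∀ x, mem x X → ∀ y, mem y X → x ≠ y → ∃ V W, mem V T ∧ mem W T ∧ mem x V ∧ mem y W ∧
    ∀ z, mem z V → ¬ mem z W

/-- every point of `Y` lies in a member of `F` -/
def Covers (F Y : M) : Prop := ∀ x, mem x Y → ∃ V, mem V F ∧ mem x V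

/-- every open cover has a finite subcover -/
def IsCpt (w X T : M) : Prop :=
  ∀ F, IsSub mem F T → Covers mem F X → ∃ G, IsSub mem G F ∧ IsFin mem w G ∧ Covers mem G X

/-- `u` is open in the subspace `Y` -/
def RelOpen (T Y u : M) : Prop := ∃ V, mem V T ∧ ∀ z, mem z u ↔ mem z V ∧ mem z Y

/-- the subspace `Y` is weakly theta-refinable: every cover `F` of `Y` by relatively open sets
has a sequence `G` of families of relatively open sets refining `F` such that each point lies in at
least one and in finitely many members of some term of `G` -/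
def WeaklyThetaRef (w T Y : M) : Prop :=
  ∀ F, (∀ u, mem u F → RelOpen mem T Y u) → Covers mem F Y →
    ∃ G, IsFunOn mem G w
        (fun H => ∀ g, mem g H → RelOpen mem T Y g ∧ ∃ u, mem u F ∧ IsSub mem g u) ∧
      ∀ y, mem y Y → ∃ n H, App mem G n H ∧ (∃ g, mem g H ∧ mem y g) ∧
        ∃ E, IsFin mem w E ∧ ∀ g, mem g E ↔ mem g H ∧ mem y g

/-- the sequence `s` converges to `x` -/
def Conv (w T s x : M) : Prop :=
  ∀ V, mem V T → mem x V → ∃ m, mem m w ∧ ∀ k y, App mem s k y → mem m k → mem y V

/-- every sequentially closed subset is closed -/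
def IsSequential (w X T : M) : Prop :=
  ∀ A, IsSub mem A X → (∀ s x, IsFun mem s w A → mem x X → Conv mem w T s x → mem x A) →
    ∃ V, mem V T ∧ ∀ z, mem z V ↔ mem z X ∧ ¬ mem z A

/-- the statement of the problem inside `(M, mem)`: every compact Hausdorff space all of whose
subspaces are weakly theta-refinable is sequential -/
def Q1 : Prop :=
  ∀ w X T : M, IsOmega mem w → IsTop mem X T → IsHausdorff mem X T → IsCpt mem w X T →
    (∀ Y, IsSub mem Y X → WeaklyThetaRef mem w T Y) → IsSequential mem w X T

end Pool.Agent.P.MP_63de32_gt
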