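import Pool.Agent.P.MP_63de32_gt.Ccc

set_option autoImplicit false

/-! Every path is coded at some active stage. -/

open Pool.Agent.Lib.PosetForcing Cardinal

namespace Pool.Agent.P.MP_63de32_gt

/-- the path `F` is forced to be the path coded at `x` -/
structure Same (F : PP → O → Bool → Prop) (x : O) (r : PP) : Prop where
  fwd : ∀ s ≤ r, ∀ κ i, F s κ i → ∃ t ≤ s, K t.1 x κ i
  bwd : ∀ s ≤ r, ∀ κ i, K s.1 x κ i → ∃ t ≤ s, F t κ i

theorem Same.le {F : PP → O → Bool → Prop} {x : O} {r r' : PP} (h : Same F x r) (hr : r' ≤ r) :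
    Same F x r' := ⟨fun s hs => h.fwd s (hs.trans hr), fun s hs => h.bwd s (hs.trans hr)⟩

theorem Same.trans {F : PP → O → Bool → Prop} {x x' : O} {r : PP} (h : Same F x r)
    (h' : Same (fun s => K s.1 x) x' r) : Same F x' r := by
  refine ⟨fun s hs κ i g => ?_, fun s hs κ i g => ?_⟩
  · obtain ⟨t, ht, g1⟩ := h.fwd s hs κ i g
    obtain ⟨u, hu, g2⟩ := h'.fwd t (ht.trans hs) κ i g1
    exact ⟨u, hu.trans ht, g2⟩
  · obtain ⟨t, ht, g1⟩ := h'.bwd s hs κ i g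
    obtain ⟨u, hu, g2⟩ := h.bwd t (ht.trans hs) κ i g1
    exact ⟨u, hu.trans ht, g2⟩

theorem bool_ne {a b : Bool} (h : a ≠ b) : a = !b := by cases a <;> cases b <;> simp_all

theorem path_bounded {F : PP → O → Bool → Prop} {q0 : PP} (hF : IsPath F q0) :
    ∃ q ≤ q0, ∃ α, ∀ s ≤ q, ∀ κ i, F s κ i → κ < α := by
  by_cases hS : {κ | ∃ s ≤ q0, ∃ i, F s κ i}.Countable
  · have := hS.to_subtype
    obtain ⟨α, hα⟩ := Ordinal.bddAbove_of_small (s := {κ | ∃ s ≤ q0, ∃ i, F s κ i})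
    exact ⟨q0, le_rfl, Order.succ α, fun s hs κ i h => Order.lt_succ_iff.2 (hα ⟨s, hs, i, h⟩)⟩
  obtain ⟨e, he, he'⟩ := exists_W1_emb hS
  choose k hk i hi using he'
  obtain ⟨α, hα⟩ := Ordinal.bddAbove_of_small (s := Set.range e)
  obtain ⟨ξ, -, q, hq, h⟩ := ccc.exists_many (I := Set.univ) Set.not_countable_univ k
  refine ⟨q, hq.trans (hk ξ), Order.succ α, fun s hs κ j g => ?_⟩
  by_contra hκ
  have l := hs.trans (hq.trans (hk ξ))
  refine h s hs (((hF.cnt l g).preimage he).mono ?_)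
  rintro η ⟨-, r, r1, r2⟩
  obtain ⟨t, -, g'⟩ := hF.lin r (r1.trans l) κ j (e η) (i η)
    ((Order.lt_succ_iff.2 (hα ⟨η, rfl⟩)).trans_le (not_lt.1 hκ)) (hF.mono _ _ _ _ r1 g)
    (hF.mono _ _ _ _ r2 (hi η))
  exact g'.mem

theorem exists_code {F : PP → O → Bool → Prop} {q : PP} (hF : IsPath F q) {α : O}
    (hα : ∀ s ≤ q, ∀ κ i, F s κ i → κ < α) (kd : Bool) : ∃ x, kind x = kd ∧ Same F x q ∧
      Dm x ⊆ {κ | ∃ s ≤ q, ∃ i, F s κ i} := by
  choose A h1 h2 h3 using fun z : O × Bool => ccc.exists_antichain {s | s ≤ q ∧ F s z.1 z.2}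
  let t : Set (C × O × Bool) := ⋃ z : Set.Iio α × Bool,
    (fun a : PP => (a.1, z.1.1, z.2)) '' A (z.1.1, z.2)
  have ht : Small.{0} t := by
    have : ∀ z : Set.Iio α × Bool,
        Small.{0} ((fun a : PP => (a.1, z.1.1, z.2)) '' A (z.1.1, z.2) :) := fun z => by
      have := ((h2 (z.1.1, z.2)).image fun a : PP => (a.1, z.1.1, z.2)).to_subtype
      infer_instance
    exact small_iUnion _
  obtain ⟨β, hβ⟩ := exists_sup_small fun z : t => z.1.1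
  obtain ⟨x, hx, e⟩ := exists_task.choose_spec t kd ht (max α β)
  have e1 : (task x).1 = t := congrArg Prod.fst e
  have mem : ∀ a κ i, (a, κ, i) ∈ (task x).1 → ∃ b : PP, b.1 = a ∧ b ≤ q ∧ F b κ i := by
    intro a κ i h
    rw [e1] at h
    obtain ⟨z, b, hb, e2⟩ := Set.mem_iUnion.1 h
    obtain ⟨rfl, rfl, rfl⟩ : b.1 = a ∧ z.1.1 = κ ∧ z.2 = i := by simpa using e2
    exact ⟨b, rfl, h1 _ hb⟩
  refine ⟨x, congrArg Prod.snd e, ⟨fun s hs κ i g => ?_, fun s _ κ i g => ?_⟩, ?_⟩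
  · obtain ⟨a, ha, r, r1, r2⟩ := h3 (κ, i) s ⟨hs, g⟩
    have h4 : (a.1, κ, i) ∈ t := Set.mem_iUnion.2 ⟨(⟨κ, hα s hs κ i g⟩, i), a, ha, rfl⟩
    exact ⟨r, r2, (hα s hs κ i g).trans_le ((le_max_left _ _).trans hx), a.1, e1 ▸ h4,
      (hβ ⟨_, h4⟩).mono ((le_max_right _ _).trans hx), r1⟩
  · obtain ⟨-, a, a1, -, a3⟩ := g
    obtain ⟨b, rfl, -, b2⟩ := mem a κ i a1
    exact ⟨s, le_rfl, hF.mono _ _ _ _ a3 b2⟩
  · rintro κ ⟨a, i, h⟩
    obtain ⟨b, -, b1, b2⟩ := mem a κ i h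
    exact ⟨b, b1, i, b2⟩

theorem Same.isPath {F : PP → O → Bool → Prop} {x : O} {q : PP} (h : Same F x q)
    (hF : IsPath F q) : IsPath (fun s => K s.1 x) q := by
  have two : ∀ r ≤ q, ∀ κ i μ m, K r.1 x κ i → K r.1 x μ m → ∃ s ≤ r, F s κ i ∧ F s μ m := by
    intro r hr κ i μ m g1 g2
    obtain ⟨s, hs, a1⟩ := h.bwd r hr κ i g1
    obtain ⟨t, ht, a2⟩ := h.bwd s (hs.trans hr) μ m (g2.mono hs)
    exact ⟨t, ht.trans hs, hF.mono _ _ _ _ ht a1, a2⟩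
  refine ⟨fun _ _ _ _ hs g => g.mono hs, fun r hr κ i g => ?_, fun r hr κ g1 g2 => ?_,
    fun r hr κ i μ m g1 g2 => ?_, fun r hr κ i μ m hl g1 g2 => ?_⟩
  · obtain ⟨s, hs, a1⟩ := h.bwd r hr κ i g
    obtain ⟨t, ht, a2⟩ := hF.act s (hs.trans hr) κ i a1
    exact ⟨t, ht.trans hs, a2⟩
  · obtain ⟨s, hs, a1, a2⟩ := two r hr _ _ _ _ g1 g2
    exact hF.fn s (hs.trans hr) κ a1 a2
  · obtain ⟨s, hs, a1⟩ := h.bwd r hr κ i g1
    obtain ⟨t, ht, a2⟩ := hF.down s (hs.trans hr) κ i μ m a1 (g2.mono hs)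
    obtain ⟨u, hu, a3⟩ := h.fwd t (ht.trans (hs.trans hr)) μ m a2
    exact ⟨u, hu.trans (ht.trans hs), a3⟩
  · obtain ⟨s, hs, a1, a2⟩ := two r hr _ _ _ _ g1 g2
    obtain ⟨t, ht, a3⟩ := hF.lin s (hs.trans hr) κ i μ m hl a1 a2
    exact ⟨t, ht.trans hs, a3⟩

/-- of two uncountable paths that cannot split, each contains the other -/
theorem sub_of_no_split {x j : O} {r : PP} (hx : IsPath (fun s => K s.1 x) r)
    (hj : IsPath (fun s => K s.1 j) r) (hu : Unc (fun s => K s.1 j) r)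
    (hn : ∀ s ≤ r, ¬ Split s.1 x j) : ∀ s ≤ r, ∀ κ i, K s.1 x κ i → ∃ t ≤ s, K t.1 j κ i := by
  intro s hs κ i g
  obtain ⟨t, ht, g'⟩ := hj.cmp_unc hu hs (hx.fc_act hs g)
  rcases g' with ⟨i', g'⟩ | ⟨ν, m, g1, g2⟩
  · by_cases e : i' = i
    · exact ⟨t, ht, e ▸ g'⟩
    · exact absurd ⟨κ, i, g.mono ht, bool_ne e ▸ g'⟩ (hn t (ht.trans hs))
  · obtain ⟨u, hu, g3⟩ := hx.down t (ht.trans hs) κ i ν m (g.mono ht) g1
    exact absurd ⟨ν, m, g3, g2.mono hu⟩ (hn u (hu.trans (ht.trans hs)))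

theorem capture {F : PP → O → Bool → Prop} {q0 : PP} (hF : IsPath F q0) :
    ∃ r ≤ q0, ∃ x, r.1.f x ≠ none ∧ Same F x r := by
  obtain ⟨q1, hq1, α, hα⟩ := path_bounded hF
  have act : ∀ q ≤ q0, ∀ x, Proper x q → Same F x q → ∃ r ≤ q0, ∃ x, r.1.f x ≠ none ∧ Same F x r := by
    intro q hq x h1 h2
    obtain ⟨s, hs, h3, -⟩ := h1.activate
    exact ⟨s, hs.trans hq, x, h3, h2.le hs⟩
  by_cases hc : ∃ q ≤ q1, {κ | ∃ s ≤ q, ∃ i, F s κ i}.Countable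
  · obtain ⟨q, hq, hc⟩ := hc
    have l := hq.trans hq1
    obtain ⟨x, hk, hs, hD⟩ := exists_code (hF.le l) (fun s hs => hα s (hs.trans hq)) true
    have hx := hs.isPath (hF.le l)
    by_cases hn : ∃ κ, ∃ r ≤ q, ActN r.1 κ ∧ κ < x ∧
      ∀ s ≤ r, ¬ ((∃ i, K s.1 x κ i) ∨ Split s.1 x κ)
    swap
    · push Not at hn
      exact act q l x ⟨hx, fun _ => hc.mono hD, fun _ κ hκ r hr g => hn κ r hr g hκ,
        fun h => by simp [hk] at h, fun h => by simp [hk] at h⟩ hs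
    obtain ⟨κ, ⟨r, hr, ha, hκ, hn⟩, hmin⟩ := (wellFounded_lt (α := O)).has_min _ hn
    have hκp := (r.proper ha.2).path
    refine ⟨r, hr.trans l, κ, ha.2, (hs.le hr).trans ⟨fun s hs μ m g => ?_, fun s hs μ m g => ?_⟩⟩
    · obtain ⟨t, ht, g'⟩ := node_cmp ((fc_actN ha).mono hs) (hx.fc_act (hs.trans hr) g)
      have l2 := ht.trans hs
      rcases g' with rfl | ⟨i, g'⟩ | ⟨i, g'⟩ | ⟨ν, a, g1, g2⟩
      · exact absurd (Or.inl ⟨m, g⟩) (hn s hs)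
      · by_cases e : i = m
        · exact ⟨t, ht, e ▸ g'⟩
        · exact absurd (Or.inr ⟨μ, m, g.mono ht, bool_ne e ▸ g'⟩) (hn t l2)
      · obtain ⟨u, hu, g3⟩ := hx.down t (l2.trans hr) μ m κ i (g.mono ht) g'
        exact absurd (Or.inl ⟨i, g3⟩) (hn u (hu.trans l2))
      · obtain ⟨u, hu, g3⟩ := hx.down t (l2.trans hr) μ m ν _ (g.mono ht) g2
        exact absurd (Or.inr ⟨ν, _, g3, by simpa using g1.mono hu⟩) (hn u (hu.trans l2))
    · obtain ⟨t, ht, a1⟩ := hκp.act s hs μ m g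
      obtain ⟨u, hu, g'⟩ : ∃ u ≤ t, (∃ i, K u.1 x μ i) ∨ Split u.1 x μ := by
        by_contra hcon
        exact hmin μ ⟨t, ht.trans (hs.trans hr), a1, g.lt.trans hκ,
          fun u hu h => hcon ⟨u, hu, h⟩⟩ g.lt
      have l2 := hu.trans ht
      rcases g' with ⟨i, g'⟩ | ⟨ν, a, g1, g2⟩
      · by_cases e : i = m
        · exact ⟨u, l2, e ▸ g'⟩
        · exact absurd (Or.inr ⟨μ, i, g', bool_ne (Ne.symm e) ▸ g.mono l2⟩) (hn u (l2.trans hs))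
      · obtain ⟨v, hv, g3⟩ := hκp.down u (l2.trans hs) μ m ν _ (g.mono l2) g2
        exact absurd (Or.inr ⟨ν, a, g1.mono hv, g3⟩) (hn v (hv.trans (l2.trans hs)))
  · obtain ⟨x, hk, hs, -⟩ := exists_code (hF.le hq1) hα false
    have hx := hs.isPath (hF.le hq1)
    have hu : Unc (fun s => K s.1 x) q1 := by
      intro T hT r hr
      by_contra hcon
      refine hc ⟨r, hr, hT.mono ?_⟩
      rintro κ ⟨s, hs', i, g⟩
      obtain ⟨t, ht, g'⟩ := hs.fwd s (hs'.trans hr) κ i g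
      by_contra hκ
      exact hcon ⟨t, ht.trans hs', κ, i, hκ, g'⟩
    by_cases hn : ∃ j, ∃ r ≤ q1, ActB r.1 j ∧ ∀ s ≤ r, ¬ Split s.1 x j
    swap
    · push Not at hn
      exact act q1 hq1 x ⟨hx, fun h => by simp [hk] at h, fun h => by simp [hk] at h, fun _ => hu,
        fun _ j _ r hr g => hn j r hr g⟩ hs
    obtain ⟨j, r, hr, ha, hn⟩ := hn
    have hj := r.proper ha.2
    exact ⟨r, hr.trans hq1, j, ha.2, (hs.le hr).trans
      ⟨sub_of_no_split (hx.le hr) hj.path (hj.unc ha.1) hn,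
        sub_of_no_split hj.path (hx.le hr) (fun T hT s hs => hu T hT s (hs.trans hr))
          fun s hs g => hn s hs g.symm⟩⟩

end Pool.Agent.P.MP_63de32_gt
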