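import Pool.Agent.P.MP_63de32_gt.Sal2

set_option autoImplicit false

/-! The iteration has the countable chain condition. -/

open Pool.Agent.Lib.PosetForcing Cardinal

namespace Pool.Agent.P.MP_63de32_gt

/-- conditions with support below a stage -/
def DS (Ω : O) : Set PP := {q | Sup Ω q.1}

/-- the paths coded at `i` and `j` can only split inside `N` -/
def SplitIn (N : Set O) (i j : O) : Prop :=
  ∀ q : PP, Split q.1 i j → ∃ μ ∈ N, ∃ m, ∃ r ≤ q, K r.1 i μ m ∧ K r.1 j μ (!m)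

theorem club_split {Ω : O} (h : CC (DS Ω)) :
    Club fun N => ∀ i ∈ N, ∀ j ∈ N, i ≤ Ω → j ≤ Ω → SplitIn N i j := by
  refine (club_witness h (Θ := O × O) (W := O × Bool) (fun θ => {θ.1, θ.2})
    (fun θ => Set.toFinite _) (fun N hN => (hN.prod hN).mono fun θ hθ =>
      And.intro (hθ (Or.inl rfl)) (hθ (Or.inr rfl)))
    (fun θ q w => q ∈ DS Ω ∧ K q.1 θ.1 w.1 w.2 ∧ K q.1 θ.2 w.1 (!w.2)) (fun _ _ _ h => h.1)
    (fun w => {w.1}) fun w => Set.countable_singleton _).imp ?_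
  rintro N hN i hi j hj h1 h2 q ⟨μ, m, g1, g2⟩
  obtain ⟨q', w, ⟨a1, a2, a3⟩, -, a4, r, r1, r2⟩ := hN (i, j) (by rintro z (rfl | rfl) <;> assumption)
    (q.restr Ω) (μ, m) ⟨q.sup_restr Ω, g1.restr h1, g2.restr h2⟩
  obtain ⟨s, s1, s2, -⟩ := amalg q (r.restr Ω) Ω (r.sup_restr Ω)
    (PP.restr_le_of_sup r2 (q.sup_restr Ω))
  have l : s ≤ q' := s1.trans (PP.restr_le_of_sup r1 a1)
  exact ⟨w.1, a4 rfl, w.2, s, s2, a2.mono l, a3.mono l⟩

theorem no_high {N : Set O} (hN : DClosed N) {i j h : O} (hs : SplitIn N i j) {p : PP}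
    (hi : Proper i p) (hj : Proper j p) (hsp : ∃ q ≤ p, Split q.1 i j) (hh : h ∉ N) {s s' : Bool}
    (h1 : Fc p fun r => K r i h s) (h2 : Fc p fun r => K r j h s') : False := by
  obtain ⟨q, hq, g⟩ := hsp
  obtain ⟨μ, hμ, m, r, hr, g1, g2⟩ := hs q g
  have l1 := hr.trans hq
  obtain ⟨r1, hr1, a1⟩ := h1 r l1
  obtain ⟨r2, hr2, a2⟩ := h2 r1 (hr1.trans l1)
  have l2 := hr2.trans hr1
  have hlt := hi.path.low_lt hN (l2.trans l1) hμ hh (g1.mono l2) (a1.mono hr2)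
  obtain ⟨r3, hr3, a3⟩ := hi.path.lin r2 (l2.trans l1) h s μ m hlt (a1.mono hr2) (g1.mono l2)
  obtain ⟨r4, hr4, a4⟩ := hj.path.lin r3 (hr3.trans (l2.trans l1)) h s' μ _ hlt (a2.mono hr3)
    (g2.mono (hr3.trans l2))
  exact (hi.path.fc_act' h1).proper.path.not_both (hr4.trans (hr3.trans (l2.trans l1)))
    (a3.mono hr4) a4

theorem exists_fiber' {ι Z : Type*} (f : ι → Z) {I : Set ι} (hI : ¬ I.Countable) {S : Set Z}
    (hS : S.Countable) (hf : ∀ i ∈ I, f i ∈ S) : ∃ y, ¬ {i | i ∈ I ∧ f i = y}.Countable := by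
  by_contra hcon
  push Not at hcon
  exact hI ((hS.biUnion fun y _ => hcon y).mono fun i hi =>
    Set.mem_biUnion (hf i hi) (And.intro hi rfl))

theorem countable_lists {X : Type*} {S : Set X} (hS : S.Countable) :
    {l : List X | ∀ x ∈ l, x ∈ S}.Countable := by
  have := hS.to_subtype
  refine (Set.countable_range fun l : List S => l.map Subtype.val).mono fun l hl => ?_
  exact ⟨l.attach.map fun x => ⟨x.1, hl x.1 x.2⟩, by simp⟩

theorem countable_gens {S : Set O} (hS : S.Countable) :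
    {g : Gn | ∀ z, g = .inr z → z ∈ S}.Countable := by
  refine ((Set.countable_range Sum.inl).union (hS.image Sum.inr)).mono ?_
  rintro (n | z) h
  · exact Or.inl ⟨n, rfl⟩
  · exact Or.inr ⟨z, h z rfl, rfl⟩

theorem glue {m : O} {p q r : PP} (hp : Sup (Order.succ m) p.1) (hq : Sup (Order.succ m) q.1)
    (h1 : r ≤ p.restr m) (h2 : r ≤ q.restr m) (y' : Y) (ho : POk m (r.restr m) y')
    (h3 : ∀ y, p.1.f m = some y → YLe y' y) (h4 : ∀ y, q.1.f m = some y → YLe y' y) :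
    ∃ s, s ≤ p ∧ s ≤ q := by
  obtain ⟨s, s1, s2, -⟩ := (r.restr m).update m y'
    (fun y hy => by simp [(r.sup_restr m).none le_rfl] at hy) ho
  have ep : p.restr (Order.succ m) = p := Subtype.ext hp.restr_eq
  have eq : q.restr (Order.succ m) = q := Subtype.ext hq.restr_eq
  exact ⟨s, ep ▸ le_restr_succ (PP.restr_le_of_sup h1 (p.sup_restr m)) s1
    fun y hy => ⟨y', s2, h3 y hy⟩, eq ▸ le_restr_succ (PP.restr_le_of_sup h2 (q.sup_restr m)) s1
    fun y hy => ⟨y', s2, h4 y hy⟩⟩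

theorem cc_succ {m : O} (h : CC (DS m)) : CC (DS (Order.succ m)) := by
  classical
  intro ι I hI p hp
  have same : ∀ (J : Set ι) (y : Y), J ⊆ I → ¬ J.Countable → (∀ i ∈ J, (p i).1.f m = some y) →
      ∃ i ∈ I, ∃ j ∈ I, i ≠ j ∧ ∃ r, r ≤ p i ∧ r ≤ p j := by
    intro J y hJ hJ' hy
    obtain ⟨i, hi, j, hj, hne, r, r1, r2⟩ := h ι J hJ' (fun i => (p i).restr m)
      fun i _ => (p i).sup_restr m
    exact ⟨i, hJ hi, j, hJ hj, hne, glue (hp i (hJ hi)) (hp j (hJ hj)) r1 r2 y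
      (((p i).ok (hy i hi)).restr.le (PP.restr_le_of_sup r1 ((p i).sup_restr m)))
      (fun y' h => Option.some.inj ((hy i hi).symm.trans h) ▸ YLe.refl y)
      fun y' h => Option.some.inj ((hy j hj).symm.trans h) ▸ YLe.refl y⟩
  obtain ⟨b, hb⟩ := exists_fiber (fun i => decide ((p i).1.f m = none)) hI
  cases b
  swap
  · obtain ⟨i, hi, j, hj, g⟩ := h ι _ hb p fun i hi γ hγ =>
      (Order.lt_succ_iff.1 (hp i hi.1 γ hγ)).lt_of_ne fun e => hγ (e ▸ of_decide_eq_true hi.2)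
    exact ⟨i, hi.1, j, hj.1, g⟩
  set J := {i | i ∈ I ∧ decide ((p i).1.f m = none) = false} with hJ
  have hy : ∀ i ∈ J, (p i).1.f m = some (lst (p i).1 m, col (p i).1 m) := by
    intro i hi
    obtain ⟨y, hy⟩ := Option.ne_none_iff_exists'.1 (of_decide_eq_false hi.2)
    rw [lst_some hy, col_some hy, hy]
  rcases hk : kind m with _ | _
  swap
  · obtain ⟨i0, hi0⟩ := nonempty_of_not_countable hb
    have hD := ((p i0).ok (hy i0 hi0)).proper.cnt hk
    obtain ⟨l, hl⟩ := exists_fiber' (fun i => lst (p i).1 m) hb (countable_lists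
      (((countable_gens hD).prod (Set.countable_univ (α := Bool))).prod
        (Set.countable_univ (α := Bool)))) (by
      intro i hi e he
      refine ⟨⟨fun z hz => ?_, trivial⟩, trivial⟩
      obtain ⟨s, -, hs⟩ := ((p i).ok (hy i hi)).entO e he z hz _ le_rfl
      exact hs.mem)
    refine same _ (l, ∅) (fun i hi => hi.1.1) hl fun i hi => ?_
    have e : col (p i).1 m = ∅ := ((p i).ok (hy i hi.1)).nocol hk
    rw [hy i hi.1, hi.2, e]
  have hy' : ∀ i ∈ J, (p i).1.f m = some ([], col (p i).1 m) := fun i hi => by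
    have e : lst (p i).1 m = [] := ((p i).ok (hy i hi)).noent hk
    rw [hy i hi, e]
  obtain ⟨N, hmN, hNc, ⟨hN, hsp⟩, hre⟩ := ((club_dclosed.and (club_split h)).and
    (club_reflect h (fun q hq q' _ => ⟨m, q'.sup_restr m, hq⟩)
      (Θ := Finset Col × Finset (O × Bool)) (W := ι)
      (fun θ => Prod.fst '' (θ.1 : Set Col) ∪ Prod.fst '' (θ.2 : Set (O × Bool)))
      (fun θ => (θ.1.finite_toSet.image _).union (θ.2.finite_toSet.image _))
      (fun N hN => by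
        refine ((countable_finsets (hN.prod (Set.countable_univ (α := Bool × ℕ)))).prod
          (countable_finsets (hN.prod (Set.countable_univ (α := Bool))))).mono fun θ hθ => ?_
        exact ⟨fun x hx => ⟨hθ (Or.inl ⟨x, hx, rfl⟩), trivial⟩,
          fun x hx => ⟨hθ (Or.inr ⟨x, hx, rfl⟩), trivial⟩⟩)
      (fun θ q ξ => ξ ∈ J ∧ q ≤ (p ξ).restr m ∧ θ.1 ⊆ col (p ξ).1 m ∧
        ∀ c ∈ col (p ξ).1 m, c ∉ θ.1 → ∀ g ∈ θ.2,
          Fc q fun r => Sd r (.cone c.1 (!c.2.1)) (.inr g.1) g.2)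
      (fun θ q q' w hq g => ⟨g.1, hq.trans g.2.1, g.2.2.1,
        fun c hc hc' x hx => (g.2.2.2 c hc hc' x hx).mono hq⟩)
      (fun ξ => Prod.fst '' (col (p ξ).1 m : Set Col))
      fun ξ => (Finset.countable_toSet _).image _)).exists (Set.countable_singleton m)
  by_cases hall : ∀ η ∈ J, ∀ c ∈ col (p η).1 m, c.1 ∈ N
  · obtain ⟨q, hq⟩ := exists_fiber' (fun i => col (p i).1 m) hb
      (countable_finsets (hNc.prod (Set.countable_univ (α := Bool × ℕ))))
      fun i hi c hc => ⟨hall i hi c hc, trivial⟩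
    exact same _ ([], q) (fun i hi => hi.1.1) hq fun i hi => by rw [hy' i hi.1, hi.2]
  push Not at hall
  obtain ⟨η, hη, c0, hc0, hc0N⟩ := hall
  let pa := (p η).restr m
  have oa : POk m pa ([], col (p η).1 m) := ((p η).ok (hy' η hη)).restr
  let q0 : Finset Col := (col (p η).1 m).filter fun c => c.1 ∈ N
  let L : Finset (O × Bool) := ((ment_finite pa.1).toFinset ×ˢ Finset.univ).filter
    fun g => g.1 ∈ N ∧ Fc pa fun r => K r m g.1 g.2
  have hL : ∀ g, g ∈ L ↔ g.1 ∈ ment pa.1 ∧ g.1 ∈ N ∧ Fc pa fun r => K r m g.1 g.2 := by simp [L]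
  obtain ⟨pb, ξ, pc, ⟨hξ, a1, a2, a3⟩, a4, a5, a6, a7⟩ := hre (q0, L) (by
      rintro z (⟨c, hc, rfl⟩ | ⟨g, hg, rfl⟩)
      · exact (Finset.mem_filter.1 hc).2
      · exact ((hL g).1 hg).2.1) pa pa le_rfl ((p η).sup_restr m) η
    ⟨hη, le_rfl, Finset.filter_subset _ _, fun c hc hc' g hg r hr => by
      have hcN : c.1 ∉ N := fun h => hc' (Finset.mem_filter.2 ⟨hc, h⟩)
      obtain ⟨-, g2, g3⟩ := (hL g).1 hg
      obtain ⟨s, hs, g4⟩ := oa.proper.path.fc_lin g3 (oa.col c hc)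
        (oa.proper.path.fc_low_lt hN g2 hcN g3 (oa.col c hc)) r hr
      exact ⟨s, hs, .on _ _ (Or.inl g4)⟩⟩
  have hξN : ∀ c ∈ col (p ξ).1 m, c.1 ∈ N := fun c hc => a4 ⟨c, hc, rfl⟩
  obtain ⟨r, r1, r2, -, r4⟩ := sal2 hN a5 a6 0 a7 (pth_br oa.proper)
    ((col (p η).1 m).image Prod.fst) ((col (p ξ).1 m).image fun c => (c.1, c.2.1)) 0
    (fun _ j hj hj' hk' h hh s s' g1 g2 => by
      have hjm : j < m := (p η).sup_restr m j hj'
      exact no_high hN (hsp m (hmN rfl) j hj le_rfl hjm.le) oa.proper (pa.proper hj')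
        (oa.proper.newB hk j hjm pa le_rfl ⟨hk', hj'⟩) hh g1 g2)
  have ob : POk m r ([], col (p ξ).1 m) := ((p ξ).ok (hy' ξ hξ)).restr.le (r2.trans a1)
  have oa' := oa.le r1
  have hcol : ∀ c ∈ col (p ξ).1 m ∪ col (p η).1 m, Fc r fun r => K r m c.1 c.2.1 := fun c hc =>
    (Finset.mem_union.1 hc).elim (ob.col c) (oa'.col c)
  have hlo : ∀ c ∈ col (p ξ).1 m ∪ col (p η).1 m, c.1 ∈ N → c ∈ col (p ξ).1 m := fun c hc h =>
    (Finset.mem_union.1 hc).elim id fun hc => a2 (Finset.mem_filter.2 ⟨hc, h⟩)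
  have hhi : ∀ c ∈ col (p ξ).1 m ∪ col (p η).1 m, c.1 ∉ N → c ∈ col (p η).1 m := fun c hc h =>
    (Finset.mem_union.1 hc).elim (fun hc => absurd (hξN c hc) h) id
  refine ⟨ξ, hξ.1, η, hη.1, fun e => hc0N (hξN c0 (e ▸ hc0)),
    glue (hp ξ hξ.1) (hp η hη.1) (r2.trans a1) r1 ([], col (p ξ).1 m ∪ col (p η).1 m)
      (POk.restr ⟨ob.proper, fun h => by simp [hk] at h, fun _ => rfl, by simp, by simp, hcol,
        fun c hc c' hc' h1 h2 => ?_⟩)
      (fun y h => Option.some.inj ((hy' ξ hξ).symm.trans h) ▸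
        ⟨List.prefix_refl _, Finset.subset_union_left⟩)
      fun y h => Option.some.inj ((hy' η hη).symm.trans h) ▸
        ⟨List.prefix_refl _, Finset.subset_union_right⟩⟩
  by_cases hcN : c.1 ∈ N
  · by_cases hcN' : c'.1 ∈ N
    · exact ob.sep c (hlo c hc hcN) c' (hlo c' hc' hcN') h1 h2
    · have b1 := hlo c hc hcN
      have b2 := hhi c' hc' hcN'
      by_cases hq0 : c ∈ q0
      · exact oa'.sep c (Finset.mem_filter.1 hq0).1 c' b2 h1 h2
      · refine r4 _ (Or.inr ⟨(c.1, c.2.1), Finset.mem_image.2 ⟨c, b1, rfl⟩, rfl,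
          fun h s hh _ g => ?_⟩) (fun g s g1 g2 g3 => ?_) c'.1 c'.2.1
          (Or.inr (Finset.mem_image.2 ⟨c', b2, rfl⟩)) hcN' zero_le (oa.col c' b2)
        · exact ob.proper.path.fc_lin (ob.col c b1) (g.mono r1)
            (ob.proper.path.fc_low_lt hN hcN hh (ob.col c b1) (g.mono r1))
        · exact (a3 c b1 hq0 (g, s) ((hL _).2 ⟨g1, g2.resolve_right (not_lt.2 zero_le), g3⟩)).mono r2
  · by_cases hcN' : c'.1 ∈ N
    · exact absurd (ob.proper.path.fc_low_lt hN hcN' hcN (hcol c' hc') (hcol c hc))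
        (not_lt.2 h1.le)
    · exact oa'.sep c (hhi c hc hcN) c' (hhi c' hc' hcN') h1 h2

theorem amalg2 {p q r : PP} {x : O} (h1 : r ≤ p.restr x) (h2 : r ≤ q.restr x)
    (h : ∀ γ, x ≤ γ → p.1.f γ = none ∨ q.1.f γ = none) : ∃ s, s ≤ p ∧ s ≤ q := by
  classical
  let s : C := ⟨fun γ => if γ < x then r.1.f γ else if p.1.f γ = none then q.1.f γ else p.1.f γ,
    ((r.1.fin.union p.1.fin).union q.1.fin).subset fun γ h => by
      by_cases hγ : γ < x <;> by_cases h' : p.1.f γ = none <;> simp_all⟩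
  have e1 : ∀ γ, γ < x → s.f γ = r.1.f γ := fun γ h => if_pos h
  have e2 : ∀ γ, x ≤ γ → s.f γ = if p.1.f γ = none then q.1.f γ else p.1.f γ :=
    fun γ h => if_neg (not_lt.2 h)
  have l1 : s ≤ p.1 := fun γ y hy => by
    rcases lt_or_ge γ x with g | g
    · rw [e1 γ g]; exact h1 γ y ((restr_f_of_lt g).trans hy)
    · exact ⟨y, by rw [e2 γ g, if_neg (by simp [hy]), hy], YLe.refl y⟩
  have l2 : s ≤ q.1 := fun γ y hy => by
    rcases lt_or_ge γ x with g | g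
    · rw [e1 γ g]; exact h2 γ y ((restr_f_of_lt g).trans hy)
    · exact ⟨y, by rw [e2 γ g, if_pos ((h γ g).resolve_right (by simp [hy])), hy], YLe.refl y⟩
  refine ⟨⟨s, fun ι y hy => ?_⟩, l1, l2⟩
  rcases lt_or_ge ι x with g | g
  · refine (r.2 ι y (by rw [← e1 ι g, hy])).mono fun γ y' hy' => ?_
    obtain ⟨a1, a2⟩ := restr_f_some hy'
    exact ⟨y', by rw [restr_f_of_lt a1, e1 γ (a1.trans g), a2], YLe.refl _⟩
  · rw [e2 ι g] at hy
    split_ifs at hy with h'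
    · exact (q.2 ι y hy).mono (restr_mono l2 ι)
    · exact (p.2 ι y hy).mono (restr_mono l1 ι)

theorem cc_stage (Ω : O) : CC (DS Ω) := by
  classical
  induction Ω using WellFoundedLT.induction with
  | ind Ω ih =>
  intro ι I hI p hp
  obtain ⟨R, J, hJ, hJ', h1, h2⟩ := exists_delta (fun i => (p i).1.fin.toFinset) hI
  have key : ∀ x, (∀ γ ∈ R, γ < x) → ∀ i ∈ J, ∀ j ∈ J, i ≠ j →
      ∀ γ, x ≤ γ → (p i).1.f γ = none ∨ (p j).1.f γ = none := by
    intro x hx i hi j hj hne γ hγ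
    by_contra hcon
    rw [not_or] at hcon
    exact absurd (hx γ (h2 i hi j hj hne γ ((p i).1.fin.mem_toFinset.2 hcon.1)
      ((p j).1.fin.mem_toFinset.2 hcon.2))) (not_lt.2 hγ)
  rcases R.eq_empty_or_nonempty with rfl | hR
  · obtain ⟨i, hi, j, hj, hne⟩ := exists_ne_of_not_countable hJ'
    have e : ∀ q : PP, (⊤ : PP) ≤ q.restr 0 := fun q γ y hy =>
      absurd (restr_f_some hy).1 (not_lt.2 zero_le)
    exact ⟨i, hJ hi, j, hJ hj, hne, amalg2 (e _) (e _) (key 0 (by simp) i hi j hj hne)⟩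
  · obtain ⟨m, hm, hmax⟩ := R.exists_max_image id hR
    obtain ⟨i0, hi0⟩ := nonempty_of_not_countable hJ'
    have hmΩ : m < Ω := hp i0 (hJ hi0) m ((p i0).1.fin.mem_toFinset.1 (h1 i0 hi0 hm))
    obtain ⟨i, hi, j, hj, hne, r, r1, r2⟩ := cc_succ (ih m hmΩ) ι J hJ'
      (fun i => (p i).restr (Order.succ m)) fun i _ => (p i).sup_restr _
    exact ⟨i, hJ hi, j, hJ hj, hne, amalg2 r1 r2
      (key _ (fun γ hγ => Order.lt_succ_iff.2 (hmax γ hγ)) i hi j hj hne)⟩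

/-- the first uncountable ordinal as a type -/
abbrev W1 : Type 1 := (Cardinal.aleph.{1} 1).ord.ToType

theorem mk_W1 : #W1 = ℵ₁ := by simp

instance : Uncountable W1 := by
  rw [← aleph0_lt_mk_iff, mk_W1]; exact aleph0_lt_aleph_one

theorem exists_W1_emb {ι : Type 1} {I : Set ι} (hI : ¬ I.Countable) :
    ∃ e : W1 → ι, Function.Injective e ∧ ∀ x, e x ∈ I := by
  rw [← le_aleph0_iff_set_countable, not_le, ← Order.succ_le_iff, succ_aleph0, ← mk_W1] at hI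
  obtain ⟨e⟩ := hI
  exact ⟨fun x => e x, fun x y h => e.injective (Subtype.ext h), fun x => (e x).2⟩

instance : Small.{0} W1 := by
  rw [small_iff_lift_mk_lt_univ, mk_W1]
  simpa using lift_lt_univ (Cardinal.aleph.{0} 1)

theorem cc_univ : CC Set.univ := by
  intro ι I hI p _
  obtain ⟨e, he, he'⟩ := exists_W1_emb hI
  obtain ⟨Ω, hΩ⟩ := exists_sup_small fun x => (p (e x)).1
  obtain ⟨i, -, j, -, hne, h⟩ := cc_stage Ω W1 Set.univ Set.not_countable_univ
    (fun x => p (e x)) fun x _ => hΩ x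
  exact ⟨e i, he' i, e j, he' j, fun g => hne (he g), h⟩

theorem ccc : CCC PP := fun ι I hI p => cc_univ ι I hI p fun _ _ => trivial

theorem club_split' : Club fun N => ∀ i ∈ N, ∀ j ∈ N, SplitIn N i j := by
  refine (club_witness cc_univ (Θ := O × O) (W := O × Bool) (fun θ => {θ.1, θ.2})
    (fun θ => Set.toFinite _) (fun N hN => (hN.prod hN).mono fun θ hθ =>
      And.intro (hθ (Or.inl rfl)) (hθ (Or.inr rfl)))
    (fun θ q w => K q.1 θ.1 w.1 w.2 ∧ K q.1 θ.2 w.1 (!w.2)) (fun _ _ _ _ => trivial)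
    (fun w => {w.1}) fun w => Set.countable_singleton _).imp ?_
  rintro N hN i hi j hj q ⟨μ, m, g1, g2⟩
  obtain ⟨q', w, ⟨a2, a3⟩, -, a4, r, r1, r2⟩ := hN (i, j) (by rintro z (rfl | rfl) <;> assumption)
    q (μ, m) ⟨g1, g2⟩
  exact ⟨w.1, a4 rfl, w.2, r, r2, a2.mono r1, a3.mono r1⟩

theorem club_reflect' {Θ W : Type*} (mt : Θ → Set O)
    (hf : ∀ θ, (mt θ).Finite) (hc : ∀ N : Set O, N.Countable → {θ | mt θ ⊆ N}.Countable)
    (ψ : Θ → PP → W → Prop) (hψ : ∀ θ q q' w, q' ≤ q → ψ θ q w → ψ θ q' w) (ex : W → Set O)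
    (he : ∀ w, (ex w).Countable) : Club fun N => ∀ θ, mt θ ⊆ N → ∀ pa pp : PP, pp ≤ pa →
      ∀ w, ψ θ pp w → ∃ pb w' pc, ψ θ pb w' ∧ ex w' ⊆ N ∧ pc ≤ pp ∧ pc ≤ pb ∧ Fit N pa pb :=
  (club_reflect cc_univ (fun q _ _ _ => (exists_sup q.1).imp fun _ h => ⟨trivial, h⟩) mt hf hc ψ hψ
    ex he).imp fun _ h θ hθ pa pp hp w hw => h θ hθ pa pp hp trivial w hw

end Pool.Agent.P.MP_63de32_gt
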