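import Pool.Agent.P.MP_63de32_gt.Comb

set_option autoImplicit false

/-! Minimal small cones lie along branches coded in closed sets. -/

open Pool.Agent.Lib.PosetForcing

namespace Pool.Agent.P.MP_63de32_gt

/-- a family of forced small basic sets -/
structure IsSm (Sm : PP → Cd → Prop) : Prop where
  mono : ∀ p q e, q ≤ p → Sm p e → Sm q e
  sub : ∀ (p : PP) e e', (∀ q : PP, q ≤ p → ∀ z, InB q.1 z e' → InB q.1 z e) → Sm p e → Sm p e'

theorem IsSm.smc {Sm : PP → Cd → Prop} (h : IsSm Sm) {r : PP} {y : Pt} (hy : ∀ n, y ≠ .nat n)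
    {e : Cd} (h1 : InB r.1 y e) (h2 : Sm r e) : SmC Sm y r := by
  obtain ⟨e', h3, h4⟩ := h1.nb hy
  exact ⟨e', h3, h.sub r e e' (fun q hq z => h4 q.1 hq z) h2⟩

/-- all cones on the path to the node `μ` are forced not to be small -/
def IsA (Sm : PP → Cd → Prop) (μ : O) (p : PP) : Prop :=
  (Fc p fun r => ActN r μ) ∧ ∀ s ≤ p, ∀ κ i, K s.1 μ κ i → Pos Sm (.cone κ i) s

theorem IsA.mono {Sm : PP → Cd → Prop} {μ : O} {p q : PP} (h : IsA Sm μ p) (hq : q ≤ p) :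
    IsA Sm μ q := ⟨h.1.mono hq, fun s hs => h.2 s (hs.trans hq)⟩

/-- the part in `N` of the path coded at `x` is forced to lie on the path coded at `j` -/
def Agree (N : Set O) (x j : O) (r : PP) : Prop :=
  ∀ s ≤ r, ∀ κ ∈ N, ∀ i, K s.1 x κ i → ∃ t ≤ s, K t.1 j κ i

theorem Agree.mono {N : Set O} {x j : O} {r s : PP} (h : Agree N x j r) (hs : s ≤ r) :
    Agree N x j s := fun u hu => h u (hu.trans hs)

theorem Agree.sub {N N' : Set O} {x j : O} {r : PP} (h : Agree N x j r) (hN : N' ⊆ N) :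
    Agree N' x j r := fun u hu κ hκ => h u hu κ (hN hκ)

theorem Agree.trans {N : Set O} {x j l : O} {r : PP} (h : Agree N x j r) (h' : Agree N j l r) :
    Agree N x l r := fun u hu κ hκ i g => by
  obtain ⟨t, ht, g1⟩ := h u hu κ hκ i g
  obtain ⟨v, hv, g2⟩ := h' t (ht.trans hu) κ hκ i g1
  exact ⟨v, hv.trans ht, g2⟩

/-- the path coded at `x` is comparable with all nodes of `N` -/
def CmpN (N : Set O) (x : O) (p : PP) : Prop := ∀ s ≤ p, ∀ μ ∈ N, (Fc s fun r => ActN r μ) →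
  ∃ t ≤ s, (∃ i, K t.1 x μ i) ∨ ∃ ν a, K t.1 μ ν a ∧ K t.1 x ν (!a)

theorem cmpN_br (N : Set O) {j : O} {p : PP} (h : ActB p.1 j) : CmpN N j p := fun _ hs _ _ g =>
  (p.proper h.2).path.cmp_unc ((p.proper h.2).unc h.1) hs g

theorem cmpN_node {N : Set O} (hN : DClosed N) {x : O} {p : PP} (h : Fc p fun r => ActN r x)
    (hx : x ∉ N) : CmpN N x p := fun s hs μ hμ g => by
  obtain ⟨t, ht, g'⟩ := node_cmp (h.mono hs) g
  rcases g' with rfl | g' | ⟨i, g'⟩ | g'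
  · exact absurd hμ hx
  · exact ⟨t, ht, Or.inl g'⟩
  · exact absurd (hN μ hμ (g.proper.cnt g.kind) g'.mem) hx
  · exact ⟨t, ht, Or.inr g'.symm⟩

theorem Agree.symm {N : Set O} (hN : DClosed N) {x j : O} {p : PP} (h : Agree N x j p)
    (hc : CmpN N x p) (hj : Proper j p) : Agree N j x p := fun s hs κ hκ i g => by
  have ha := hj.path.fc_act hs g
  obtain ⟨t, ht, g'⟩ := hc s hs κ hκ ha
  rcases g' with ⟨i', g'⟩ | ⟨ν, a, g1, g2⟩
  · obtain ⟨u, hu, g3⟩ := h t (ht.trans hs) κ hκ i' g'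
    exact ⟨t, ht, hj.path.eq (hu.trans (ht.trans hs)) g3 (g.mono (hu.trans ht)) ▸ g'⟩
  · obtain ⟨u, hu, g3⟩ := h t (ht.trans hs) ν (hN κ hκ (ha.proper.cnt ha.kind) g1.mem) _ g2
    obtain ⟨v, hv, g4⟩ := hj.path.down u (hu.trans (ht.trans hs)) κ i ν a (g.mono (hu.trans ht))
      (g1.mono hu)
    exact (hj.path.not_both (hv.trans (hu.trans (ht.trans hs))) g4 (g3.mono hv)).elim

theorem exists_split {p : PP} {j j' : O} (h : ActB p.1 j) (h' : ActB p.1 j') (hne : j ≠ j') :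
    ∃ q ≤ p, Split q.1 j j' := by
  rcases lt_or_gt_of_ne hne with hl | hl
  · obtain ⟨q, hq, g⟩ := (p.proper h'.2).newB h'.1 j hl p le_rfl h
    exact ⟨q, hq, g.symm⟩
  · exact (p.proper h.2).newB h.1 j' hl p le_rfl h'

theorem Agree.eq {N : Set O} {j j' : O} {p : PP} (h : Agree N j j' p) (hs : SplitIn N j j')
    (hj : ActB p.1 j) (hj' : ActB p.1 j') : j = j' := by
  by_contra hne
  obtain ⟨q, hq, g⟩ := exists_split hj hj' hne
  obtain ⟨μ, hμ, m, r, hr, g1, g2⟩ := hs q g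
  obtain ⟨t, ht, g3⟩ := h r (hr.trans hq) μ hμ m g1
  exact (p.proper hj'.2).path.not_both (ht.trans (hr.trans hq)) g3 (g2.mono ht)

/-- a step of the stem above `L` -/
def OKs (Sm : PP → Cd → Prop) (L : Finset (O × Bool)) (μ : O) (m : Bool) (r : PP) : Prop :=
  (∃ g ∈ L, g = (μ, m) ∨ K r.1 g.1 μ m) ∨
    ((∀ g ∈ L, K r.1 μ g.1 g.2) ∧ Pos Sm (.cone μ m) r ∧ SmC Sm (.cone μ (!m)) r)

theorem OKs.mono {Sm : PP → Cd → Prop} (h : IsSm Sm) {L : Finset (O × Bool)} {μ : O} {m : Bool}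
    {r s : PP} (g : OKs Sm L μ m r) (hs : s ≤ r) : OKs Sm L μ m s := by
  rcases g with ⟨x, hx, g⟩ | ⟨g1, g2, g3⟩
  · exact Or.inl ⟨x, hx, g.imp id fun g => g.mono hs⟩
  · exact Or.inr ⟨fun x hx => (g1 x hx).mono hs, g2.mono hs, g3.mono h.mono hs⟩

/-- the stem above `L` -/
def Stem (Sm : PP → Cd → Prop) (L : Finset (O × Bool)) (r : PP) (κ : O) (i : Bool) : Prop :=
  (Fc r fun s => ActN s κ) ∧ Dn (OKs Sm L κ i) r ∧
    ∀ s ≤ r, ∀ ν a, K s.1 κ ν a → Dn (OKs Sm L ν a) s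

theorem stem_path {Sm : PP → Cd → Prop} (h : IsSm Sm) {L : Finset (O × Bool)} {x0 : Pt} {p : PP}
    (hx : Pth x0 p) (hL : ∀ g ∈ L, Dn (fun r : PP => KP r.1 x0 g.1 g.2) p) :
    IsPath (Stem Sm L) p := by
  have on : ∀ s ≤ p, ∀ ν a, (∃ g ∈ L, g = (ν, a) ∨ K s.1 g.1 ν a) → ∃ t ≤ s, KP t.1 x0 ν a := by
    rintro s hs ν a ⟨g, hg, rfl | h1⟩
    · exact hL _ hg s hs
    · obtain ⟨t, ht, h2⟩ := hL g hg s hs
      obtain ⟨u, hu, h3⟩ := hx.down t (ht.trans hs) _ _ ν a h2 (h1.mono ht)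
      exact ⟨u, hu.trans ht, h3⟩
  have mix : ∀ (s : PP) ν a, (∃ g ∈ L, g = (ν, a) ∨ K s.1 g.1 ν a) →
      (∀ g ∈ L, K s.1 ν g.1 g.2) → False := by
    rintro s ν a ⟨g, hg, rfl | h1⟩ h2
    · exact lt_irrefl _ (h2 _ hg).lt
    · exact lt_irrefl _ (h1.lt.trans (h2 _ hg).lt)
  have ex : ∀ s ≤ p, ∀ ν a, Dn (OKs Sm L ν a) s → Dn (OKs Sm L ν (!a)) s → False := by
    intro s hs ν a h1 h2
    obtain ⟨t, ht, g1⟩ := h1 s le_rfl
    obtain ⟨u, hu, g2⟩ := h2 t ht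
    have l := hu.trans (ht.trans hs)
    rcases g1.mono h hu with g1 | g1
    · rcases g2 with g2 | g2
      · obtain ⟨v, hv, a1⟩ := on u l _ _ g1
        obtain ⟨w, hw, a2⟩ := on v (hv.trans l) _ _
          (g2.imp fun _ g => ⟨g.1, g.2.imp id fun g => g.mono hv⟩)
        exact IsPath.not_both hx (hw.trans (hv.trans l)) (a1.mono hw) a2
      · exact mix u _ _ g1 g2.1
    · rcases g2 with g2 | g2
      · exact mix u _ _ g2 g1.1
      · exact g2.2.1 u le_rfl g1.2.2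
  refine ⟨fun r s κ i hs g => ⟨g.1.mono hs, g.2.1.mono hs, fun u hu => g.2.2 u (hu.trans hs)⟩,
    fun r _ κ i g => g.1 r le_rfl, fun r hr κ g1 g2 => ex r hr κ true g1.2.1 g2.2.1,
    fun r _ κ i μ m g1 g2 => ?_, fun r hr κ i μ m hl g1 g2 => ?_⟩
  · refine ⟨r, le_rfl, g1.1.proper.path.fc_act le_rfl g2, g1.2.2 r le_rfl μ m g2,
      fun s hs ν a g3 => Dn.dn fun u hu => ?_⟩
    obtain ⟨v, hv, g4⟩ := g1.1.proper.path.down u (hu.trans hs) μ m ν a
      (g2.mono (hu.trans hs)) (g3.mono hu)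
    exact ⟨v, hv, g1.2.2 v (hv.trans (hu.trans hs)) ν a g4⟩
  · obtain ⟨s, hs, g⟩ := node_cmp g1.1 g2.1
    rcases g with rfl | ⟨a, g⟩ | ⟨a, g⟩ | ⟨ν, a, g3, g4⟩
    · exact absurd hl (lt_irrefl _)
    · by_cases e : m = a
      · exact ⟨s, hs, e ▸ g⟩
      · exact (ex s (hs.trans hr) μ a (g1.2.2 s hs μ a g) (bool_ne e ▸ g2.2.1.mono hs)).elim
    · exact absurd (hl.trans g.lt) (lt_irrefl _)
    · exact (ex s (hs.trans hr) ν a (g1.2.2 s hs ν a g3) (g2.2.2 s hs ν _ g4)).elim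

/-- the properties of closed sets used for the colouring -/
structure Nice (Sm : PP → Cd → Prop) (N : Set O) : Prop where
  dc : DClosed N
  sp : ∀ i ∈ N, ∀ j ∈ N, SplitIn N i j
  sm : ∀ j ∈ N, ∀ (q : PP) κ i, K q.1 j κ i → SmC Sm (.cone κ i) q →
    ∃ r ≤ q, ∃ κ' ∈ N, ∃ i', K r.1 j κ' i' ∧ SmC Sm (.cone κ' i') r
  claim : ∀ (p : PP) μ m e, μ ∉ N → IsA Sm μ p → Nb p.1 (.cone μ m) e → Sm p e →
    ∃ r ≤ p, ∃ j ∈ N, ActB r.1 j ∧ Agree N μ j r

theorem club_nice {Sm : PP → Cd → Prop} (hS : IsSm Sm) : Club (Nice Sm) := by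
  classical
  have c1 := club_witness cc_univ (Θ := O) (W := O) (fun j => {j})
    (fun j => Set.finite_singleton j) (fun N hN => hN.mono fun j hj => hj rfl)
    (fun j q κ => ∃ i, K q.1 j κ i ∧ SmC Sm (.cone κ i) q) (fun _ _ _ _ => trivial)
    (fun κ => {κ}) fun κ => Set.countable_singleton κ
  have c2 := club_witness cc_univ (Θ := Finset (O × Bool)) (W := O)
    (fun L => Prod.fst '' (L : Set (O × Bool))) (fun L => L.finite_toSet.image _)
    (fun N hN => (countable_finsets (hN.prod (Set.countable_univ (α := Bool)))).mono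
      fun L hL x hx => And.intro (hL ⟨x, hx, rfl⟩) trivial)
    (fun L q x => q.1.f x ≠ none ∧ Same (Stem Sm L) x q) (fun _ _ _ _ => trivial)
    (fun κ => {κ}) fun κ => Set.countable_singleton κ
  have c3 := club_reflect' (Θ := O × Bool) (W := Unit) (fun θ => {θ.1})
    (fun θ => Set.finite_singleton _)
    (fun N hN => (hN.prod (Set.countable_univ (α := Bool))).mono
      fun θ hθ => And.intro (hθ rfl) trivial)
    (fun θ q _ => Pos Sm (.cone θ.1 (!θ.2)) q) (fun θ q q' w hq g => g.mono hq)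
    (fun _ => ∅) fun _ => Set.countable_empty
  refine (((club_dclosed.and club_split').and c1).and (c2.and c3)).imp ?_
  rintro N ⟨⟨⟨hN, hsp⟩, w1⟩, w2, w3⟩
  refine ⟨hN, hsp, fun j hj q κ i g1 g2 => ?_, fun p μ m e hμ hA he hSm => ?_⟩
  · obtain ⟨q', κ', ⟨i', a1, a2⟩, -, a3, r, r1, r2⟩ := w1 j (by simpa using hj) q κ ⟨i, g1, g2⟩
    exact ⟨r, r2, κ', a3 rfl, i', a1.mono r1, a2.mono hS.mono r1⟩
  by_contra hcon
  have hx0 : Pth (.cone μ m) p := pth_cone hA.1 m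
  have hμp := hA.1.proper.path
  let S : Finset O := (ment_finite p.1).toFinset ∪ (cd_node_finite e).toFinset
  let L : Finset (O × Bool) := (S ×ˢ Finset.univ).filter
    fun g => g.1 ∈ N ∧ Dn (fun r : PP => KP r.1 (.cone μ m) g.1 g.2) p
  have hL : ∀ g, g ∈ L ↔ g.1 ∈ S ∧ g.1 ∈ N ∧
      Dn (fun r : PP => KP r.1 (.cone μ m) g.1 g.2) p := by simp [L]
  have he' : ∀ h s, (Sum.inr h, s) ∈ e → h ∈ S ∧
      Dn (fun r : PP => KP r.1 (.cone μ m) h s) p := fun h s hg =>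
    ⟨Finset.mem_union_right _ ((cd_node_finite e).mem_toFinset.2 ⟨s, hg⟩),
      fun r hr => ⟨r, le_rfl, KP.mono (he _ hg) hr⟩⟩
  by_cases fork : ∃ pp ≤ p, ∃ α ∈ N, ∃ i, K pp.1 μ α i ∧ (∀ g ∈ L, K pp.1 α g.1 g.2) ∧
    Pos Sm (.cone α (!i)) pp
  · obtain ⟨pp, hpp, α, hα, i, f1, f2, f3⟩ := fork
    obtain ⟨h0, ⟨hh0, s0, hs0⟩, hmin⟩ := (wellFounded_lt (α := O)).has_min
      {h | h ∉ N ∧ ∃ s, Dn (fun r : PP => KP r.1 (.cone μ m) h s) p}
      ⟨μ, hμ, m, fun r _ => ⟨r, le_rfl, Or.inr ⟨rfl, rfl⟩⟩⟩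
    obtain ⟨pb, -, pc, b1, -, b3, b4, b5⟩ := w3 (α, i) (by simpa using hα) p pp hpp () f3
    obtain ⟨r, r1, r2, r3, r4⟩ := sal2 hN (b3.trans hpp) b4 h0 b5 hx0 S {(α, i)} 0
      (fun _ j hj hj' hk h hh s s' g1 g2 => hcon ⟨p, le_rfl, j, hj, ⟨hk, hj'⟩,
        fun u hu κ hκ a g => by
          obtain ⟨v, hv, g3⟩ := g1 u hu
          obtain ⟨w, hw, g4⟩ := g2 v (hv.trans hu)
          have l := hw.trans (hv.trans hu)
          have g5 : KP w.1 (.cone μ m) κ a := Or.inl (g.mono (hw.trans hv))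
          obtain ⟨w1, hw1, g6⟩ := hx0.lin w l h s κ a
            (IsPath.low_lt hN hx0 l hκ hh g5 (g3.mono hw)) (g3.mono hw) g5
          obtain ⟨w2, hw2, g7⟩ := (p.proper hj').path.down w1 (hw1.trans l) h s' κ a
            (g4.mono hw1) g6
          exact ⟨w2, hw2.trans (hw1.trans (hw.trans hv)), g7⟩⟩)
    have lc := b3.trans hpp
    have a1 : Dn (fun r : PP => KP r.1 (.cone μ m) α i) pc := fun u hu =>
      ⟨u, le_rfl, Or.inl (f1.mono (hu.trans b3))⟩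
    have hαh : α < h0 := IsPath.fc_low_lt hN (hx0.le lc) hα hh0 a1 (hs0.mono lc)
    have a2 : Fc r fun r => K r h0 α i :=
      ((IsPath.fc_lin (hx0.le lc) a1 (hs0.mono lc) hαh).restr (loc_K le_rfl _ _)).mono r3
    have a3 : ∀ g ∈ L, Fc r fun r => Sd r (.cone α (!i)) (.inr g.1) g.2 := fun g hg u hu => by
      obtain ⟨v, hv, g1⟩ := ((fc_K ((f2 g hg).mono b3)).restr (loc_K hαh.le _ _)).mono r3 u hu
      exact ⟨v, hv, .on _ _ (Or.inl g1)⟩
    have a4 := r4 _ (Or.inr ⟨(α, i), Finset.mem_singleton_self _, rfl, fun h s _ h2 g => by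
        rcases h2.lt_or_eq with h2 | rfl
        · exact ((IsPath.fc_act' hx0 g).mono r1).proper.path.fc_down
            ((IsPath.fc_lin hx0 hs0 g h2).mono r1) a2
        · exact a2⟩)
      (fun g s g1 g2 g3 => by
        have g4 : g ∈ N := by
          by_contra g4
          exact hmin g ⟨g4, s, g3⟩ (g2.resolve_left g4)
        exact a3 (g, s) ((hL _).2
          ⟨Finset.mem_union_left _ ((ment_finite p.1).mem_toFinset.2 g1), g4, g3⟩))
    obtain ⟨s, hs, a5⟩ := fin_dn e.finite_toSet (p := r)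
      (Φ := fun g s => Sd s.1 (.cone α (!i)) g.1 g.2) (fun _ _ _ hs g => g.mono hs) (by
        rintro ⟨n | h, b⟩ hg
        · obtain rfl : b = false := he _ hg
          exact fc_sd (.natF n (by simp))
        · obtain ⟨g1, g2⟩ := he' h b hg
          by_cases hh : h ∈ N
          · exact a3 (h, b) ((hL _).2 ⟨g1, hh, g2⟩)
          · exact a4 h b (Or.inr g1) hh (not_lt.1 (hmin h ⟨hh, b, g2⟩)) g2)
    exact b1 s (hs.trans r2) (hS.smc (by simp) a5 (hS.mono _ _ _ (hs.trans r1) hSm))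
  obtain ⟨r0, hr0, x, hx⟩ := capture (stem_path hS hx0 fun g hg => ((hL g).1 hg).2.2)
  obtain ⟨q', x', ⟨b1, b2⟩, -, b3, s, s1, s2⟩ := w2 L
    (by rintro z ⟨g, hg, rfl⟩; exact ((hL g).1 hg).2.1) r0 x hx
  have hx' : x' ∈ N := b3 rfl
  have ok : ∀ u ≤ p, ∀ κ ∈ N, ∀ i, K u.1 μ κ i → Dn (OKs Sm L κ i) u := by
    intro u hu κ hκ i g v hv
    have l := hv.trans hu
    by_cases h1 : ∃ c ∈ L, κ ≤ c.1
    · obtain ⟨c, hc, h1⟩ := h1
      obtain ⟨w, hw, h2⟩ := ((hL c).1 hc).2.2 v l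
      have h3 : KP w.1 (.cone μ m) κ i := Or.inl (g.mono (hw.trans hv))
      rcases h1.lt_or_eq with h1 | h1
      · obtain ⟨w1, hw1, h4⟩ := hx0.lin w (hw.trans l) _ _ _ _ h1 h2 h3
        exact ⟨w1, hw1.trans hw, Or.inl ⟨c, hc, Or.inr h4⟩⟩
      · exact ⟨v, le_rfl, Or.inl ⟨c, hc, Or.inl (Prod.ext h1.symm
          (IsPath.eq hx0 (hw.trans l) (h1 ▸ h2) h3))⟩⟩
    · push Not at h1
      obtain ⟨w, hw, h2⟩ := fin_dn L.finite_toSet (p := v) (Φ := fun c s => K s.1 κ c.1 c.2)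
        (fun _ _ _ hs g => g.mono hs) fun c hc => IsPath.fc_lin (hx0.le l)
          (((hL c).1 hc).2.2.mono l)
          (fun w hw => ⟨w, le_rfl, Or.inl (g.mono (hw.trans hv))⟩) (h1 c hc)
      have h3 : ∃ w' ≤ w, SmC Sm (.cone κ (!i)) w' := by
        by_contra h3
        exact fork ⟨w, hw.trans l, κ, hκ, i, g.mono (hw.trans hv), h2,
          fun w' hw' h4 => h3 ⟨w', hw', h4⟩⟩
      obtain ⟨w', hw', h3⟩ := h3
      exact ⟨w', hw'.trans hw, Or.inr ⟨fun c hc => (h2 c hc).mono hw',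
        hA.2 w' (hw'.trans (hw.trans l)) κ i (g.mono (hw'.trans (hw.trans hv))), h3⟩⟩
  have ls := s2.trans hr0
  have ag : Agree N μ x' s := fun u hu κ hκ i g => by
    have l := hu.trans ls
    refine b2.fwd u (hu.trans s1) κ i ⟨hμp.fc_act l g, ok u l κ hκ i g,
      fun v hv ν a g1 => Dn.dn fun w hw => ?_⟩
    obtain ⟨w1, hw1, g2⟩ := hμp.down w (hw.trans (hv.trans l)) κ i ν a (g.mono (hw.trans hv))
      (g1.mono hw)
    exact ⟨w1, hw1, ok w1 (hw1.trans (hw.trans (hv.trans l))) ν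
      (hN κ hκ (hμp.cnt l g) g1.mem) a g2⟩
  rcases hk : kind x' with _ | _
  · exact hcon ⟨s, ls, x', hx', ⟨hk, C.ne_none s1 b1⟩, ag⟩
  have ha : Fc s fun r => ActN r x' := fc_actN ⟨hk, C.ne_none s1 b1⟩
  obtain ⟨t, ht, g⟩ := cmpN_node hN (hA.1.mono ls) hμ s le_rfl x' hx' ha
  rcases g with ⟨a, g⟩ | ⟨ν, a, g1, g2⟩
  · obtain ⟨u, -, g'⟩ := ag t ht x' hx' a g
    exact lt_irrefl _ g'.lt
  · obtain ⟨u, hu, g'⟩ := ag t ht ν (hN x' hx' (ha.proper.cnt hk) g1.mem) _ g2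
    exact ha.proper.path.not_both (hu.trans ht) (g1.mono hu) g'

end Pool.Agent.P.MP_63de32_gt
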