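import Pool.Agent.P.MP_63de32_gt.Capture

set_option autoImplicit false

/-! Compactness, density and sequential closedness of the natural numbers, combinatorially. -/

open Pool.Agent.Lib.PosetForcing

namespace Pool.Agent.P.MP_63de32_gt

/-- points of the space -/
def Act (p : C) : Pt → Prop
  | .nat _ => True
  | .br j => ActB p j
  | .cone _ _ => False

theorem Act.mono {p q : C} {z : Pt} (h : Act p z) (hq : q ≤ p) : Act q z := by
  cases z with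
  | nat n => trivial
  | br j => exact ActB.mono h hq
  | cone x b => exact h

theorem Act.pth {p : PP} {z : Pt} (h : Act p.1 z) : Pth z p := by
  cases z with
  | nat n => exact pth_nat n p
  | br j => exact pth_br (p.proper h.2)
  | cone x b => exact h.elim

theorem pt_total {p : PP} {z : Pt} (h : Act p.1 z) {x : O} (hx : Fc p fun r => ActN r x) :
    ∃ s ≤ p, ∃ b, Sd s.1 z (.inr x) b := by
  cases z with
  | nat n => exact sd_total x p h.pth hx (Or.inl ⟨n, rfl⟩)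
  | br j =>
    obtain ⟨s, hs, g⟩ := (p.proper h.2).path.cmp_unc ((p.proper h.2).unc h.1) le_rfl hx
    obtain ⟨t, ht, g'⟩ := sd_total x s (h.pth.le hs) (hx.mono hs) (Or.inr g)
    exact ⟨t, ht.trans hs, g'⟩
  | cone x b => exact h.elim

/-- codes of basic sets -/
abbrev Cd : Type 1 := Finset (Gn × Bool)

/-- the cone has a small canonical neighbourhood -/
def SmC (Sm : PP → Cd → Prop) (t : Pt) (r : PP) : Prop := ∃ e, Nb r.1 t e ∧ Sm r e

/-- the cone is forced to have no small canonical neighbourhood -/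
def Pos (Sm : PP → Cd → Prop) (t : Pt) (r : PP) : Prop := ∀ s ≤ r, ¬ SmC Sm t s

theorem SmC.mono {Sm : PP → Cd → Prop} (hm : ∀ p q e, q ≤ p → Sm p e → Sm q e) {t : Pt}
    {r s : PP} (h : SmC Sm t r) (hs : s ≤ r) : SmC Sm t s := by
  obtain ⟨e, h1, h2⟩ := h
  exact ⟨e, h1.mono hs, hm _ _ _ hs h2⟩

theorem Pos.mono {Sm : PP → Cd → Prop} {t : Pt} {r s : PP} (h : Pos Sm t r) (hs : s ≤ r) :
    Pos Sm t s := fun u hu => h u (hu.trans hs)

theorem Pos.of_dn {Sm : PP → Cd → Prop} (hm : ∀ p q e, q ≤ p → Sm p e → Sm q e) {t : Pt}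
    {r : PP} (h : ∀ s ≤ r, ∃ u ≤ s, Pos Sm t u) : Pos Sm t r := fun s hs g => by
  obtain ⟨u, hu, g'⟩ := h s hs
  exact g' u le_rfl (g.mono hm hu)

/-- a neighbourhood code on a path is a neighbourhood code of a cone of the path -/
theorem Nb.top {z : Pt} {p : PP} (hz : Pth z p) {e : Cd} (h : Nb p.1 z e) :
    (∀ g ∈ e, ∃ n, g = (.inl n, false)) ∨
      ∃ s ≤ p, ∃ κ i, KP s.1 z κ i ∧ Nb s.1 (.cone κ i) e := by
  classical
  let T : Set (O × Bool) := {x | (Sum.inr x.1, x.2) ∈ e}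
  have hT : T.Finite := e.finite_toSet.preimage (f := fun x : O × Bool => (Sum.inr x.1, x.2))
    fun a _ b _ hab => by simpa [Prod.ext_iff] using hab
  rcases T.eq_empty_or_nonempty with h1 | h1
  · refine Or.inl ?_
    rintro ⟨n | κ, b⟩ hg
    · obtain rfl : b = false := h _ hg
      exact ⟨n, rfl⟩
    · exact absurd (show (κ, b) ∈ T from hg) (by simp [h1])
  · obtain ⟨x, hx, hmax⟩ := T.exists_max_image Prod.fst hT h1
    have hx' : KP p.1 z x.1 x.2 := h _ hx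
    obtain ⟨s, hs, g⟩ := fin_dn e.finite_toSet (p := p)
      (Φ := fun g s => GenP s.1 (.cone x.1 x.2) g) (fun _ _ _ hs g => g.mono hs) (by
        rintro ⟨n | κ, b⟩ hg r hr
        · exact ⟨r, le_rfl, h _ hg⟩
        · have h2 : KP r.1 z κ b := KP.mono (h _ hg) hr
          rcases (hmax (κ, b) hg).lt_or_eq with hl | hl
          · obtain ⟨s, hs, g⟩ := hz.lin r hr _ _ _ _ hl (hx'.mono hr) h2
            exact ⟨s, hs, Or.inl g⟩
          · obtain rfl : κ = x.1 := hl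
            exact ⟨r, le_rfl, Or.inr ⟨rfl, IsPath.eq hz hr h2 (hx'.mono hr)⟩⟩)
    exact Or.inr ⟨s, hs, x.1, x.2, hx'.mono hs, g⟩

theorem compact_comb (Sm : PP → Cd → Prop) (hm : ∀ p q e, q ≤ p → Sm p e → Sm q e) (p0 : PP)
    (sub2 : ∀ (p : PP) e e1 e2, (∀ q ≤ p, ∀ z, Act q.1 z → InB q.1 z e →
      ∃ r ≤ q, InB r.1 z e1 ∨ InB r.1 z e2) → Sm p e1 → Sm p e2 → Sm p e)
    (pt : ∀ q ≤ p0, ∀ z, Act q.1 z → ∃ r ≤ q, ∃ e, InB r.1 z e ∧ Sm r e) : ∃ q ≤ p0, Sm q ∅ := by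
  classical
  by_contra hcon
  have natrem : ∀ e : Cd, (∀ g ∈ e, ∃ n, g = (.inl n, false)) → ∀ r ≤ p0, ¬ Sm r e := by
    intro e
    induction e using Finset.induction_on with
    | empty => exact fun _ r hr h => hcon ⟨r, hr, h⟩
    | insert g e _ ih =>
      intro he r hr h
      obtain ⟨n, rfl⟩ := he g (Finset.mem_insert_self _ _)
      obtain ⟨s, hs, e', h1, h2⟩ := pt r hr (.nat n) trivial
      refine ih (fun g hg => he g (Finset.mem_insert_of_mem hg)) s (hs.trans hr)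
        (sub2 s e _ e' (fun q hq z _ hz => ⟨q, le_rfl, ?_⟩) (hm _ _ _ hs h) h2)
      by_cases hzn : z = .nat n
      · exact Or.inr (hzn ▸ h1.mono hq)
      · refine Or.inl fun g hg => ?_
        rcases Finset.mem_insert.1 hg with rfl | hg
        · exact .natF n hzn
        · exact hz g hg
  let Good : PP → O → Bool → Prop := fun r κ i =>
    Pos Sm (.cone κ i) r ∧ (i = true → Dn (SmC Sm (.cone κ false)) r)
  have gm : ∀ r s κ i, s ≤ r → Good r κ i → Good s κ i := fun r s κ i hs g =>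
    ⟨g.1.mono hs, fun h => (g.2 h).mono hs⟩
  have gd : ∀ r κ i, (∀ s ≤ r, ∃ u ≤ s, Good u κ i) → Good r κ i := fun r κ i g =>
    ⟨Pos.of_dn hm fun s hs => (g s hs).imp fun _ h => ⟨h.1, h.2.1⟩,
      fun h => Dn.dn fun s hs => (g s hs).imp fun _ h' => ⟨h'.1, h'.2.2 h⟩⟩
  have ge : ∀ r κ i j, Good r κ i → Good r κ j → i = j := by
    have : ∀ r κ, Good r κ true → Good r κ false → False := fun r κ g1 g2 => by
      obtain ⟨s, hs, g⟩ := g1.2 rfl r le_rfl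
      exact g2.1 s hs g
    intro r κ i j g1 g2
    cases i <;> cases j
    · rfl
    · exact (this r κ g2 g1).elim
    · exact (this r κ g1 g2).elim
    · rfl
  let F : PP → O → Bool → Prop := fun r κ i => (Fc r fun s => ActN s κ) ∧ Good r κ i ∧
    ∀ s ≤ r, ∀ μ m, K s.1 κ μ m → Good s μ m
  have hF : IsPath F p0 := by
    refine ⟨fun r s κ i hs g => ⟨g.1.mono hs, gm _ _ _ _ hs g.2.1,
      fun u hu => g.2.2 u (hu.trans hs)⟩, fun r _ κ i g => g.1 r le_rfl,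
      fun r _ κ g1 g2 => by simpa using ge _ _ _ _ g1.2.1 g2.2.1, fun r _ κ i μ m g1 g2 => ?_,
      fun r _ κ i μ m hl g1 g2 => ?_⟩
    · refine ⟨r, le_rfl, g1.1.proper.path.fc_act le_rfl g2, g1.2.2 r le_rfl μ m g2,
        fun s hs ν a g3 => gd _ _ _ fun u hu => ?_⟩
      obtain ⟨v, hv, g4⟩ := g1.1.proper.path.down u (hu.trans hs) μ m ν a
        (g2.mono (hu.trans hs)) (g3.mono hu)
      exact ⟨v, hv, g1.2.2 v (hv.trans (hu.trans hs)) ν a g4⟩
    · obtain ⟨s, hs, g⟩ := node_cmp g1.1 g2.1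
      rcases g with rfl | ⟨a, g⟩ | ⟨a, g⟩ | ⟨ν, a, g3, g4⟩
      · exact absurd hl (lt_irrefl _)
      · exact ⟨s, hs, ge _ _ _ _ (g1.2.2 s hs μ a g) (gm _ _ _ _ hs g2.2.1) ▸ g⟩
      · exact absurd (hl.trans g.lt) (lt_irrefl _)
      · simpa using ge _ _ _ _ (g1.2.2 s hs ν a g3) (g2.2.2 s hs ν _ g4)
  obtain ⟨r, hr, x, hx, hs⟩ := capture hF
  have hp : Pth (.br x) r := pth_br (r.proper hx)
  have top : ∀ s ≤ r, ∀ e, Nb s.1 (.br x) e → ¬ Sm s e := by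
    intro s hsr e h1 h2
    rcases h1.top (hp.le hsr) with h3 | ⟨t, ht, κ, i, h3, h4⟩
    · exact natrem e h3 s (hsr.trans hr) h2
    · obtain ⟨u, hu, h5⟩ := hs.bwd t (ht.trans hsr) κ i h3
      exact h5.2.1.1 u le_rfl ⟨e, h4.mono hu, hm _ _ _ (hu.trans ht) h2⟩
  rcases hk : kind x with _ | _
  · obtain ⟨s, hsr, e, h1, h2⟩ := pt r hr (.br x) ⟨hk, hx⟩
    obtain ⟨e', h3, h4⟩ := h1.nb (by simp)
    exact top s hsr e' h3
      (sub2 s e' e e (fun q hq z _ hz => ⟨q, le_rfl, Or.inl (h4 q.1 hq z hz)⟩) h2 h2)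
  have ha : Fc r fun s => ActN s x := fc_actN ⟨hk, hx⟩
  suffices h : ∃ s ≤ r, ∃ i, Good s x i by
    obtain ⟨s, hsr, i, g⟩ := h
    obtain ⟨t, -, g'⟩ := hs.fwd s hsr x i ⟨ha.mono hsr, g, fun u hu μ m g1 => gd _ _ _
      fun v hv => (hs.bwd v (hv.trans (hu.trans hsr)) μ m (g1.mono hv)).imp
        fun _ h => ⟨h.1, h.2.2.1⟩⟩
    exact lt_irrefl _ g'.lt
  by_cases h0 : ∃ s ≤ r, Pos Sm (.cone x false) s
  · obtain ⟨s, hsr, g⟩ := h0
    exact ⟨s, hsr, false, g, by simp⟩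
  have h0' : Dn (SmC Sm (.cone x false)) r := fun s hsr => by
    by_contra g
    exact h0 ⟨s, hsr, fun u hu g' => g ⟨u, hu, g'⟩⟩
  refine ⟨r, le_rfl, true, fun s hsr ⟨e2, b1, b2⟩ => ?_, fun _ => h0'⟩
  obtain ⟨t, ht, e1, a1, a2⟩ := h0' s hsr
  have key : ∀ (b : Bool) (e' : Cd), Nb t.1 (.cone x b) e' → e' ⊆ e1 ∪ e2 → ∀ q : PP, ∀ z,
      InB q.1 z ((e1 ∪ e2).filter fun g => g.1 ≠ .inr x) → Sd q.1 z (.inr x) b → InB q.1 z e' := by
    rintro b e' h1 h2 q z h3 h4 ⟨g, c⟩ hg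
    by_cases e : g = .inr x
    · subst e
      rcases h1 _ hg with h5 | ⟨-, rfl⟩
      · exact absurd h5.lt (lt_irrefl _)
      · exact h4
    · exact h3 _ (Finset.mem_filter.2 ⟨h2 hg, e⟩)
  refine top t (ht.trans hsr) ((e1 ∪ e2).filter fun g => g.1 ≠ .inr x) ?_
    (sub2 t _ e1 e2 (fun q hq z hz h3 => ?_) a2 (hm _ _ _ ht b2))
  · rintro ⟨n | κ, c⟩ hg
    · exact (Finset.mem_union.1 (Finset.mem_filter.1 hg).1).elim (a1 _) (b1 _)
    · have hne : κ ≠ x := by simpa using (Finset.mem_filter.1 hg).2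
      rcases Finset.mem_union.1 (Finset.mem_filter.1 hg).1 with h | h
      · exact (a1 _ h).resolve_right fun g => hne g.1
      · exact K.mono ((b1 _ h).resolve_right fun g => hne g.1) ht
  · obtain ⟨u, hu, b, hb⟩ := pt_total hz (ha.mono (hq.trans (ht.trans hsr)))
    cases b
    · exact ⟨u, hu, Or.inl (key _ e1 a1 Finset.subset_union_left u z (h3.mono hu) hb)⟩
    · exact ⟨u, hu, Or.inr (key _ e2 (b1.mono ht) Finset.subset_union_right u z (h3.mono hu) hb)⟩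

theorem exists_branch (p : PP) : ∃ r ≤ p, ∃ j, ActB r.1 j := by
  let F : PP → O → Bool → Prop := fun r κ i => (Fc r fun s => ActN s κ) ∧ i = false ∧
    ∀ s ≤ r, ∀ μ m, K s.1 κ μ m → m = false
  have hF : IsPath F p := by
    refine ⟨fun r s κ i hs g => ⟨g.1.mono hs, g.2.1, fun u hu => g.2.2 u (hu.trans hs)⟩,
      fun r _ κ i g => g.1 r le_rfl, fun r _ κ g1 _ => by simpa using g1.2.1,
      fun r _ κ i μ m g1 g2 => ?_, fun r _ κ i μ m hl g1 g2 => ?_⟩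
    · refine ⟨r, le_rfl, g1.1.proper.path.fc_act le_rfl g2, g1.2.2 r le_rfl μ m g2,
        fun s hs ν a g3 => ?_⟩
      obtain ⟨v, hv, g4⟩ := g1.1.proper.path.down s hs μ m ν a (g2.mono hs) g3
      exact g1.2.2 v (hv.trans hs) ν a g4
    · obtain ⟨s, hs, g⟩ := node_cmp g1.1 g2.1
      rcases g with rfl | ⟨a, g⟩ | ⟨a, g⟩ | ⟨ν, a, g3, g4⟩
      · exact absurd hl (lt_irrefl _)
      · exact ⟨s, hs, ((g1.2.2 s hs μ a g).trans g2.2.1.symm) ▸ g⟩
      · exact absurd (hl.trans g.lt) (lt_irrefl _)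
      · have := g2.2.2 s hs ν _ g4
        simp [g1.2.2 s hs ν a g3] at this
  obtain ⟨r, hr, x, hx, hs⟩ := capture hF
  rcases hk : kind x with _ | _
  · exact ⟨r, hr, x, hk, hx⟩
  · obtain ⟨t, -, g'⟩ := hs.fwd r le_rfl x false ⟨fc_actN ⟨hk, hx⟩, rfl, fun u hu μ m g1 =>
      (hs.bwd u hu μ m g1).elim fun _ h => h.2.2.1⟩
    exact absurd g'.lt (lt_irrefl _)

theorem fit_top (p : PP) : Fit ∅ p ⊤ := by
  refine ⟨?_, by simp, by simp⟩
  rintro z ((h | ⟨h, e, he, -⟩) | ⟨j, c, hc, -⟩)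
  · exact h rfl
  · obtain ⟨y, hy, -⟩ := mem_lst he
    exact absurd hy (by simp [show (⊤ : PP).1.f h = none from rfl])
  · obtain ⟨y, hy, -⟩ := mem_col hc
    exact absurd hy (by simp [show (⊤ : PP).1.f j = none from rfl])

theorem cd_nat_finite (e : Cd) : {n | ∃ b, (Sum.inl n, b) ∈ e}.Finite :=
  ((e.finite_toSet.image Prod.fst).preimage Sum.inl_injective.injOn).subset
    fun _ ⟨_, h⟩ => ⟨_, h, rfl⟩

theorem cd_node_finite (e : Cd) : {x | ∃ b, (Sum.inr x, b) ∈ e}.Finite :=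
  ((e.finite_toSet.image Prod.fst).preimage Sum.inr_injective.injOn).subset
    fun _ ⟨_, h⟩ => ⟨_, h, rfl⟩

theorem dense_nat {p : PP} {j : O} (hj : ActB p.1 j) {e : Cd} (h : InB p.1 (.br j) e) :
    ∃ r ≤ p, ∃ n, InB r.1 (.nat n) e := by
  obtain ⟨e', h1, h2⟩ := h.nb (by simp)
  obtain ⟨n, hn⟩ := ((nment_finite p.1).union (cd_nat_finite e')).exists_notMem
  obtain ⟨r, r1, -, -, r4⟩ := sal2 (N := ∅) (fun _ h => h.elim) (le_refl p) le_top 0 (fit_top p)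
    (pth_br (p.proper hj.2)) (cd_node_finite e').toFinset ∅ n (by simp)
  obtain ⟨s, hs, g⟩ := fin_dn e'.finite_toSet (p := r)
    (Φ := fun g s => Sd s.1 (.nat n) g.1 g.2) (fun _ _ _ hs g => g.mono hs) (by
      rintro ⟨m | κ, b⟩ hg
      · obtain rfl : b = false := h1 _ hg
        exact fc_sd (.natF m fun e => hn (Or.inr ⟨false, by
          obtain rfl : n = m := by simpa using e
          exact hg⟩))
      · exact r4 _ (Or.inl ⟨rfl, fun h => hn (Or.inl h)⟩) (by simp) κ b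
          (Or.inr ((cd_node_finite e').mem_toFinset.2 ⟨b, hg⟩)) (by simp) zero_le
          (fc_K (h1 _ hg)))
  exact ⟨s, hs.trans r1, n, h2 s.1 (hs.trans r1) _ g⟩

theorem seq_closed (Sq : PP → ℕ → ℕ → Prop) (hm : ∀ p q k n, q ≤ p → Sq p k n → Sq q k n)
    (p0 : PP) {j : O} (hj : ActB p0.1 j) (tot : ∀ q ≤ p0, ∀ k, ∃ r ≤ q, ∃ n, Sq r k n)
    (cv : ∀ q ≤ p0, ∀ e, InB q.1 (.br j) e → ∃ r ≤ q, ∃ m, ∀ s ≤ r, ∀ k, m ≤ k → ∀ n,
      Sq s k n → ∃ t ≤ s, InB t.1 (.nat n) e) : False := by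
  classical
  obtain ⟨N, -, hNc, hN, hre⟩ := (club_dclosed.and (club_reflect'
    (Θ := (ℕ × ℕ) × Finset (O × Bool)) (W := Unit) (fun θ => Prod.fst '' (θ.2 : Set (O × Bool)))
    (fun θ => θ.2.finite_toSet.image _)
    (fun N hN => by
      refine ((Set.countable_univ (α := ℕ × ℕ)).prod
        (countable_finsets (hN.prod (Set.countable_univ (α := Bool))))).mono fun θ hθ => ?_
      exact ⟨trivial, fun x hx => ⟨hθ ⟨x, hx, rfl⟩, trivial⟩⟩)
    (fun θ q _ => Sq q θ.1.1 θ.1.2 ∧ ∀ g ∈ θ.2, Sd q.1 (.nat θ.1.2) (.inr g.1) g.2)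
    (fun θ q q' w hq g => ⟨hm _ _ _ _ hq g.1, fun x hx => (g.2 x hx).mono hq⟩)
    (fun _ => ∅) fun _ => Set.countable_empty)).exists Set.countable_empty
  have hp := p0.proper hj.2
  obtain ⟨p1, hp1, h0, i0, hh0, g0⟩ := hp.unc hj.1 N hNc p0 le_rfl
  obtain ⟨pa, hpa, m, h1⟩ := cv p1 hp1 {(.inr h0, i0)} (by
    intro g hg
    obtain rfl := Finset.mem_singleton.1 hg
    exact .on _ _ g0)
  have la := hpa.trans hp1
  have hx0 : Pth (.cone h0 (!i0)) pa := pth_cone ((hp.path.fc_act hp1 g0).mono hpa) _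
  let L : Finset (O × Bool) := ((ment_finite pa.1).toFinset ×ˢ Finset.univ).filter
    fun g => g.1 ∈ N ∧ Dn (fun r : PP => KP r.1 (.cone h0 (!i0)) g.1 g.2) pa
  have hL : ∀ g, g ∈ L ↔ g.1 ∈ ment pa.1 ∧ g.1 ∈ N ∧
      Dn (fun r : PP => KP r.1 (.cone h0 (!i0)) g.1 g.2) pa := by simp [L]
  let e0 : Cd := L.image (fun g => (.inr g.1, g.2)) ∪
    (nment_finite pa.1).toFinset.image fun n => (.inl n, false)
  obtain ⟨q1, hq1, a1⟩ := fin_dn e0.finite_toSet (p := pa)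
    (Φ := fun g s => Sd s.1 (.br j) g.1 g.2) (fun _ _ _ hs g => g.mono hs) (by
      intro g hg r hr
      rcases Finset.mem_union.1 hg with hg | hg
      · obtain ⟨x, hx, rfl⟩ := Finset.mem_image.1 hg
        obtain ⟨-, b2, b3⟩ := (hL x).1 hx
        obtain ⟨s, hs, b4 | ⟨b4, -⟩⟩ := b3 r hr
        · obtain ⟨t, ht, b5⟩ := hp.path.down s (hs.trans (hr.trans la)) h0 i0 _ _
            (g0.mono (hs.trans (hr.trans hpa))) b4
          exact ⟨t, ht.trans hs, .on _ _ b5⟩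
        · exact absurd (b4 ▸ b2) hh0
      · obtain ⟨n, -, rfl⟩ := Finset.mem_image.1 hg
        exact ⟨r, le_rfl, .natF n (by simp)⟩)
  obtain ⟨q2, hq2, m0, a2⟩ := cv q1 (hq1.trans la) e0 a1
  obtain ⟨q3, hq3, n, a3⟩ := tot q2 (hq2.trans (hq1.trans la)) (max m m0)
  obtain ⟨q4, hq4, a4⟩ := a2 q3 hq3 _ (le_max_right _ _) n a3
  obtain ⟨pb, -, pc, ⟨b1, b2⟩, -, b3, b4, b5⟩ := hre ((max m m0, n), L)
    (by rintro z ⟨g, hg, rfl⟩; exact ((hL g).1 hg).2.1) pa q4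
    (hq4.trans (hq3.trans (hq2.trans hq1))) ()
    ⟨hm _ _ _ _ hq4 a3, fun g hg => a4 (.inr g.1, g.2)
      (Finset.mem_union_left _ (Finset.mem_image.2 ⟨g, hg, rfl⟩))⟩
  obtain ⟨r, r1, r2, -, r4⟩ := sal2 hN (b3.trans (hq4.trans (hq3.trans (hq2.trans hq1)))) b4 0 b5
    hx0 {h0} ∅ n (by simp)
  obtain ⟨s, hs, c1⟩ := r4 _ (Or.inl ⟨rfl, fun h => by
      have := a4 (.inl n, false) (Finset.mem_union_right _ (Finset.mem_image.2
        ⟨n, (nment_finite pa.1).mem_toFinset.2 h, rfl⟩))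
      simpa using sd_inl this⟩)
    (fun g s g1 g2 g3 => fc_sd ((b2 (g, s) ((hL _).2
      ⟨g1, g2.resolve_right (not_lt.2 zero_le), g3⟩)).mono r2)) h0 (!i0)
    (Or.inr (Finset.mem_singleton_self _)) hh0 zero_le
    (fun r _ => ⟨r, le_rfl, Or.inr ⟨rfl, rfl⟩⟩) r le_rfl
  obtain ⟨t, ht, c2⟩ := h1 s (hs.trans r1) _ (le_max_left _ _) n (hm _ _ _ _ (hs.trans r2) b1)
  exact (pth_nat n t).cons (c2 (.inr h0, i0) (Finset.mem_singleton_self _)) (c1.mono ht)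

end Pool.Agent.P.MP_63de32_gt
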