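import Pool.Agent.Lib.PosetForcing.Card
import Pool.Agent.Lib.PosetForcing.Cond
import Pool.Agent.P.MP_63de32_gt.Defs

set_option autoImplicit false

/-! Countably compact weakly theta-refinable subspaces are compact, in extensions by countably
closed posets. -/

open Pool.Agent.Lib.PosetForcing

namespace Pool.Agent.P.MP_63de32_gt.Pos

universe u

variable {P : Type u} [Preorder P] [OrderTop P]

instance clopen_isFin (a b : Name P) :
    Clopen fun U : Gen P => IsFin Mod.mem (a.val U) (b.val U) := by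
  unfold IsFin; infer_instance

instance clopen_covers (a b : Name P) :
    Clopen fun U : Gen P => Covers Mod.mem (a.val U) (b.val U) := by
  unfold Covers; infer_instance

instance clopen_relOpen (a b c : Name P) :
    Clopen fun U : Gen P => RelOpen Mod.mem (a.val U) (b.val U) (c.val U) := by
  unfold RelOpen; infer_instance

instance clopen_conv (a b c d : Name P) :
    Clopen fun U : Gen P => Conv Mod.mem (a.val U) (b.val U) (c.val U) (d.val U) := by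
  unfold Conv; infer_instance

/-- countably closed -/
def SC (P : Type u) [Preorder P] : Prop :=
  ∀ p : ℕ → P, (∀ n, p (n + 1) ≤ p n) → ∃ q, ∀ i, q ≤ p i

/-- forced membership -/
abbrev In (p : P) (a b : Name P) : Prop := Forces p fun U => Mod.mem (a.val U) (b.val U)

/-- forced inequality -/
abbrev Neq (p : P) (a b : Name P) : Prop := Forces p fun U => a.val U ≠ b.val U

theorem dc {S : Type*} (I : S → Prop) (R : ℕ → S → S → Prop) (s0 : S) (h0 : I s0)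
    (h : ∀ n s, I s → ∃ t, I t ∧ R n s t) :
    ∃ f : ℕ → S, f 0 = s0 ∧ ∀ n, I (f n) ∧ R n (f n) (f (n + 1)) := by
  have : ∀ n (s : {s // I s}), ∃ t : {s // I s}, R n s.1 t.1 := fun n s => by
    obtain ⟨t, h1, h2⟩ := h n s.1 s.2
    exact ⟨⟨t, h1⟩, h2⟩
  choose g hg using this
  let x : ℕ → {s // I s} := fun n => Nat.rec ⟨s0, h0⟩ g n
  exact ⟨fun n => (x n).1, rfl, fun n => ⟨(x n).2, hg n (x n)⟩⟩

theorem length_le {p : P} {E : Name P} {m : ℕ}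
    (h : Forces p fun U => LeCard Mod.mem (E.val U) ((natName m).val U)) {l : List (Name P)}
    (h1 : ∀ g ∈ l, In p g E) (h2 : l.Pairwise (Neq p)) : l.length ≤ m := by
  obtain ⟨U, hU⟩ := exists_gen p
  obtain ⟨j, hj, hj'⟩ := h U hU
  have : ∀ i : Fin l.length, ∃ a : Fin m,
      App Mod.mem j ((l.get i).val U) ((natName a.val).val U) := fun i => by
    obtain ⟨y, hy⟩ := hj.2.1 _ (h1 _ (List.get_mem l i) U hU)
    obtain ⟨a, ha, rfl⟩ := (mem_natName U y).1 ((isZFC U).app_val hj hy).2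
    exact ⟨⟨a, ha⟩, hy⟩
  choose f hf using this
  have hi : Function.Injective f := fun a b e => by
    have e' := hj' _ _ _ (hf a) (e ▸ hf b)
    rcases lt_trichotomy a b with g | g | g
    · exact absurd e' (List.pairwise_iff_get.1 h2 a b g U hU)
    · exact g
    · exact absurd e'.symm (List.pairwise_iff_get.1 h2 b a g U hU)
  simpa using Fintype.card_le_of_injective f hi

omit [OrderTop P] in
theorem exists_max {p : P} {m k0 : ℕ} (G : ℕ → P → Prop) (h0 : G k0 p)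
    (hb : ∀ k, ∀ q ≤ p, G k q → k ≤ m) :
    ∃ k, ∃ q ≤ p, G (k0 + k) q ∧ ∀ r ≤ q, ¬ G (k0 + k + 1) r := by
  by_contra hc
  push Not at hc
  have : ∀ k, ∃ q ≤ p, G (k0 + k) q := fun k => by
    induction k with
    | zero => exact ⟨p, le_rfl, h0⟩
    | succ k ih =>
      obtain ⟨q, hq, g⟩ := ih
      obtain ⟨r, hr, g'⟩ := hc k q hq g
      exact ⟨r, hr.trans hq, g'⟩
  obtain ⟨q, hq, g⟩ := this (m + 1)
  have := hb _ q hq g
  omega

theorem fin_decide {p : P} {E : Name P}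
    (h : Forces p fun U => IsFin Mod.mem (omegaName.val U) (E.val U)) :
    ∃ q ≤ p, ∃ m, Forces q fun U => LeCard Mod.mem (E.val U) ((natName m).val U) := by
  obtain ⟨n, hn⟩ := Forces.exists_name
    (Φ := fun U n => Mod.mem n (omegaName.val U) ∧ LeCard Mod.mem (E.val U) n) h
  obtain ⟨q, hq, m, hm⟩ := Forces.exists_fam (hn.imp fun _ h => h.1)
  exact ⟨q, hq, m.down, ((hn.mono hq).and hm).imp fun U h => h.2 ▸ h.1.2⟩

omit [OrderTop P] in
theorem eq_or_neq (r : P) (u : Name P) (l : List (Name P)) :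
    (∃ s ≤ r, ∃ v ∈ l, Forces s fun U => u.val U = v.val U) ∨ ∀ v ∈ l, Neq r u v := by
  by_cases h : ∃ s ≤ r, ∃ v ∈ l, Forces s fun U => u.val U = v.val U
  · exact Or.inl h
  · exact Or.inr fun v hv => forces_not_iff.2 fun s hs g => h ⟨s, hs, v, hv, g⟩

theorem fin_elim {p : P} {E : Name P}
    (h : Forces p fun U => IsFin Mod.mem (omegaName.val U) (E.val U)) :
    ∃ q ≤ p, ∃ l : List (Name P), (∀ u ∈ l, In q u E) ∧
      ∀ r ≤ q, ∀ u, In r u E → ∃ s ≤ r, ∃ v ∈ l, Forces s fun U => u.val U = v.val U := by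
  obtain ⟨q, hq, m, hm⟩ := fin_decide h
  obtain ⟨k, r, hr, ⟨l, l1, l2, l3⟩, hk⟩ := exists_max (p := q) (m := m) (k0 := 0)
    (fun k r => ∃ l : List (Name P), l.length = k ∧ (∀ u ∈ l, In r u E) ∧ l.Pairwise (Neq r))
    ⟨[], rfl, by simp, by simp⟩ fun k r hr ⟨l, l1, l2, l3⟩ => l1 ▸ length_le (hm.mono hr) l2 l3
  refine ⟨r, hr.trans hq, l, l2, fun s hs u hu => (eq_or_neq s u l).resolve_right fun g => ?_⟩
  refine hk s hs ⟨u :: l, by simp [l1], ?_, List.pairwise_cons.2 ⟨g, l3.imp fun h => h.mono hs⟩⟩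
  exact List.forall_mem_cons.2 ⟨hu, fun v hv => (l2 v hv).mono hs⟩

omit [OrderTop P] in
theorem inter_list {X T y : Name P} {p : P}
    (hT : Forces p fun U => IsTop Mod.mem (X.val U) (T.val U)) (hy : In p y X) {ι : Type*}
    (l : List ι) (R : ι → Name P → Prop)
    (hR : ∀ i V W, (∀ U, IsSub Mod.mem (V.val U) (W.val U)) → R i W → R i V)
    (h : ∀ i ∈ l, ∃ W, In p W T ∧ In p y W ∧ R i W) :
    ∃ V, In p V T ∧ In p y V ∧ ∀ i ∈ l, R i V := by
  induction l with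
  | nil => exact ⟨X, hT.imp fun _ h => h.2.1, hy, by simp⟩
  | cons i l ih =>
    obtain ⟨V, a1, a2, a3⟩ := ih fun j hj => h j (List.mem_cons_of_mem _ hj)
    obtain ⟨W, b1, b2, b3⟩ := h i List.mem_cons_self
    have e := mem_sepName V fun U z => Mod.mem z (W.val U)
    refine ⟨sepName V fun U z => Mod.mem z (W.val U),
      (hT.and (a1.and b1)).imp fun U g => g.1.2.2.1 _ _ _ g.2.1 g.2.2 (e U),
      (a2.and b2).imp fun U g => (e U _).2 g, List.forall_mem_cons.2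
        ⟨hR _ _ _ (fun U z hz => ((e U z).1 hz).2) b3,
          fun j hj => hR _ _ _ (fun U z hz => ((e U z).1 hz).1) (a3 j hj)⟩⟩

/-- `y` is forced to be a cluster point of `d` -/
def Clus (T : Name P) (q : P) (y : Name P) (d : ℕ → Name P) : Prop :=
  ∀ r ≤ q, ∀ V, In r V T → In r y V → ∀ m, ∃ s ≤ r, ∃ n, m ≤ n ∧ In s (d n) V

/-- countable compactness -/
def CC (T Y : Name P) (p0 : P) : Prop :=
  ∀ p ≤ p0, ∀ d : ℕ → Name P, (∀ n, In p (d n) Y) → ∃ q ≤ p, ∃ y, In q y Y ∧ Clus T q y d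

/-- open classes -/
structure Op (T Y : Name P) (p : P) (O : P → Name P → Prop) : Prop where
  mono : ∀ q r y, r ≤ q → O q y → O r y
  op : ∀ q ≤ p, ∀ y, In q y Y → O q y → ∃ V, In q V T ∧ In q y V ∧
    ∀ s ≤ q, ∀ z, In s z V → In s z Y → O s z

/-- the complement of `O` is covered by finitely many members of `F` -/
def Sm (F Y : Name P) (p : P) (O : P → Name P → Prop) : Prop :=
  ∃ l : List (Name P), (∀ u ∈ l, In p u F) ∧
    ∀ r ≤ p, ∀ y, In r y Y → ∃ s ≤ r, O s y ∨ ∃ u ∈ l, In s y u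

/-- `y` lies in `k` different members of `H` -/
def Od (H : Name P) (k : ℕ) (p : P) (y : Name P) : Prop :=
  ∃ l : List (Name P), l.length = k ∧ (∀ g ∈ l, In p g H ∧ In p y g) ∧ l.Pairwise (Neq p)

section
variable {X T Y F H : Name P} {p0 : P}

omit [OrderTop P] in
theorem Op.le {p q : P} {O : P → Name P → Prop} (h : Op T Y p O) (hq : q ≤ p) : Op T Y q O :=
  ⟨h.mono, fun r hr => h.op r (hr.trans hq)⟩

omit [OrderTop P] in
theorem Op.or {p : P} {O O' : P → Name P → Prop} (h : Op T Y p O) (h' : Op T Y p O') :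
    Op T Y p fun s y => O s y ∨ O' s y := by
  refine ⟨fun q r y hr g => g.imp (h.mono q r y hr) (h'.mono q r y hr), ?_⟩
  rintro q hq y hy (g | g)
  · obtain ⟨V, a1, a2, a3⟩ := h.op q hq y hy g
    exact ⟨V, a1, a2, fun s hs z b1 b2 => Or.inl (a3 s hs z b1 b2)⟩
  · obtain ⟨V, a1, a2, a3⟩ := h'.op q hq y hy g
    exact ⟨V, a1, a2, fun s hs z b1 b2 => Or.inr (a3 s hs z b1 b2)⟩

omit [OrderTop P] in
theorem op_list {p : P} {l : List (Name P)} (h : ∀ u ∈ l, In p u T) :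
    Op T Y p fun s y => ∃ u ∈ l, In s y u :=
  ⟨fun _ _ _ hr ⟨u, hu, g⟩ => ⟨u, hu, g.mono hr⟩, fun _ hq _ _ ⟨u, hu, g⟩ =>
    ⟨u, (h u hu).mono hq, g, fun _ _ _ b _ => ⟨u, hu, b⟩⟩⟩

omit [OrderTop P] in
theorem Op.clus {p q : P} {O : P → Name P → Prop} (h : Op T Y p O) (hq : q ≤ p) {y : Name P}
    {d : ℕ → Name P} (hd : ∀ n, In p (d n) Y) (hy : In p y Y) (hc : Clus T p y d) (g : O q y)
    (m : ℕ) : ∃ s ≤ q, ∃ n, m ≤ n ∧ O s (d n) := by
  obtain ⟨V, a1, a2, a3⟩ := h.op q hq y (hy.mono hq) g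
  obtain ⟨s, hs, n, hn, b⟩ := hc q hq V a1 a2 m
  exact ⟨s, hs, n, hn, a3 s hs _ b ((hd n).mono (hs.trans hq))⟩

omit [OrderTop P] in
theorem od_nbhd {q : P} {y : Name P} (hT : Forces q fun U => IsTop Mod.mem (X.val U) (T.val U))
    (hy : In q y X) (hH : Forces q fun U => ∀ g, Mod.mem g (H.val U) →
      RelOpen Mod.mem (T.val U) (Y.val U) g) {l : List (Name P)}
    (hl : ∀ g ∈ l, In q g H ∧ In q y g) : ∃ V, In q V T ∧ In q y V ∧
      ∀ g ∈ l, ∀ s ≤ q, ∀ z, In s z V → In s z Y → In s z g := by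
  refine inter_list hT hy l (fun g V => ∀ s ≤ q, ∀ z, In s z V → In s z Y → In s z g)
    (fun g V W e h s hs z a => h s hs z (a.imp fun U a => e U _ a)) fun g hg => ?_
  obtain ⟨W, hW⟩ := Forces.exists_name (Φ := fun U W => Mod.mem W (T.val U) ∧
    ∀ z, Mod.mem z (g.val U) ↔ Mod.mem z W ∧ Mod.mem z (Y.val U))
    ((hH.and (hl g hg).1).imp fun U h => h.1 _ h.2)
  exact ⟨W, hW.imp fun _ h => h.1, (hW.and (hl g hg).2).imp fun _ h => ((h.1.2 _).1 h.2).1,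
    fun s hs z a b => ((hW.mono hs).and (a.and b)).imp fun _ h => (h.1.2 _).2 h.2⟩

omit [OrderTop P] in
theorem op_od (hT : Forces p0 fun U => IsTop Mod.mem (X.val U) (T.val U))
    (hY : Forces p0 fun U => IsSub Mod.mem (Y.val U) (X.val U))
    (hH : Forces p0 fun U => ∀ g, Mod.mem g (H.val U) → RelOpen Mod.mem (T.val U) (Y.val U) g)
    (k : ℕ) : Op T Y p0 (Od H k) := by
  refine ⟨fun q r y hr ⟨l, l1, l2, l3⟩ => ⟨l, l1, fun g hg => ⟨(l2 g hg).1.mono hr,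
    (l2 g hg).2.mono hr⟩, l3.imp fun h => h.mono hr⟩, fun q hq y hy ⟨l, l1, l2, l3⟩ => ?_⟩
  obtain ⟨V, a1, a2, a3⟩ := od_nbhd (hT.mono hq)
    (((hY.mono hq).and hy).imp fun U h => h.1 _ h.2) (hH.mono hq) l2
  exact ⟨V, a1, a2, fun s hs z b1 b2 => ⟨l, l1, fun g hg => ⟨(l2 g hg).1.mono hs,
    a3 g hg s hs z b1 b2⟩, l3.imp fun h => h.mono hs⟩⟩

omit [OrderTop P] in
theorem pick {p : P} {O : P → Name P → Prop} (h : ¬ Sm F Y p O) {l : List (Name P)}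
    (hl : ∀ u ∈ l, In p u F) :
    ∃ r ≤ p, ∃ y, In r y Y ∧ ∀ s ≤ r, ¬ O s y ∧ ∀ u ∈ l, ¬ In s y u := by
  by_contra hc
  refine h ⟨l, hl, fun r hr y hy => ?_⟩
  by_contra hc'
  refine hc ⟨r, hr, y, hy, fun s hs => ⟨fun g => hc' ⟨s, hs, Or.inl g⟩,
    fun u hu g => hc' ⟨s, hs, Or.inr ⟨u, hu, g⟩⟩⟩⟩

omit [OrderTop P] in
theorem layer (hσ : SC P) (hT : Forces p0 fun U => IsTop Mod.mem (X.val U) (T.val U))
    (hY : Forces p0 fun U => IsSub Mod.mem (Y.val U) (X.val U)) (hC : CC T Y p0)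
    (hH : Forces p0 fun U => ∀ g, Mod.mem g (H.val U) → RelOpen Mod.mem (T.val U) (Y.val U) g ∧
      ∃ u, Mod.mem u (F.val U) ∧ IsSub Mod.mem g u) (k : ℕ) {p : P} (hp : p ≤ p0)
    {O : P → Name P → Prop} (hO : Op T Y p O)
    (h : ∀ r ≤ p, ∀ y, In r y Y → ∃ s ≤ r, O s y ∨ Od H (k + 1) s y) :
    ∃ q ≤ p, Sm F Y q fun s y => O s y ∨ Od H (k + 2) s y := by
  by_contra hc
  push Not at hc
  have hH' := hH.imp fun U h g hg => (h g hg).1
  obtain ⟨f, f0, hf⟩ := dc (S := P × List (Name P) × Name P × Name P)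
    (fun a => a.1 ≤ p ∧ ∀ u ∈ a.2.1, In a.1 u F)
    (fun _ a b => b.1 ≤ a.1 ∧ In b.1 b.2.2.1 Y ∧ In b.1 b.2.2.2 H ∧ In b.1 b.2.2.1 b.2.2.2 ∧
      (∀ s ≤ b.1, ¬ (O s b.2.2.1 ∨ Od H (k + 2) s b.2.2.1) ∧ ∀ u ∈ a.2.1, ¬ In s b.2.2.1 u) ∧
      ∃ u, b.2.1 = u :: a.2.1 ∧ Forces b.1 fun U => IsSub Mod.mem (b.2.2.2.val U) (u.val U))
    (p, [], X, X) ⟨le_rfl, by simp⟩ (by
      rintro - ⟨q, l, _, _⟩ ⟨hq, hl⟩
      obtain ⟨r, hr, y, a1, a2⟩ := pick (hc q hq) hl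
      obtain ⟨s, hs, g | ⟨l', l1, l2, -⟩⟩ := h r (hr.trans hq) y a1
      · exact absurd (Or.inl g) (a2 s hs).1
      obtain ⟨g, hg⟩ := List.exists_mem_of_length_eq_add_one l1
      obtain ⟨u, hu⟩ := Forces.exists_name (Φ := fun U u => Mod.mem u (F.val U) ∧
        IsSub Mod.mem (g.val U) u) (((hH.mono (hs.trans (hr.trans (hq.trans hp)))).and
          (l2 g hg).1).imp fun U h => (h.1 _ h.2).2)
      exact ⟨(s, u :: l, y, g), ⟨hs.trans (hr.trans hq), List.forall_mem_cons.2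
        ⟨hu.imp fun _ h => h.1, fun v hv => (hl v hv).mono (hs.trans hr)⟩⟩, hs.trans hr,
        a1.mono hs, (l2 g hg).1, (l2 g hg).2, fun t ht => a2 t (ht.trans hs), u, rfl,
        hu.imp fun _ h => h.2⟩)
  obtain ⟨q, hq⟩ := hσ (fun n => (f n).1) fun n => (hf n).2.1
  have hqp : q ≤ p := (hq 0).trans (hf 0).1.1
  let d : ℕ → Name P := fun n => (f (n + 1)).2.2.1
  have hd : ∀ n, In q (d n) Y := fun n => (hf n).2.2.1.mono (hq (n + 1))
  obtain ⟨r, hr, y, y1, y2⟩ := hC q (hqp.trans hp) d hd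
  obtain ⟨s, hs, g | ⟨l, l1, l2, l3⟩⟩ := h r (hr.trans hqp) y y1
  · obtain ⟨t, ht, n, -, g'⟩ := (hO.le (hr.trans hqp)).clus hs (fun n => (hd n).mono hr) y1 y2 g 0
    exact ((hf n).2.2.2.2.2.1 t (ht.trans (hs.trans (hr.trans (hq _))))).1 (Or.inl g')
  have hs0 : s ≤ p0 := hs.trans (hr.trans (hqp.trans hp))
  obtain ⟨V, a1, a2, a3⟩ := od_nbhd (hT.mono hs0)
    (((hY.mono hs0).and (y1.mono hs)).imp fun U h => h.1 _ h.2) (hH'.mono hs0) l2
  obtain ⟨t, ht, i, -, b1⟩ := y2 s hs V a1 a2 0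
  obtain ⟨t', ht', j, hj, b2⟩ := y2 t (ht.trans hs) V (a1.mono ht) (a2.mono ht) (i + 1)
  have h1 : t' ≤ s := ht'.trans ht
  have h2 : t' ≤ q := h1.trans (hs.trans hr)
  obtain ⟨-, -, c1, c2, c3, u, c4, c5⟩ := (hf i).2
  rcases eq_or_neq t' (f (i + 1)).2.2.2 l with ⟨v, hv, g, hg, e⟩ | e
  · have hm : ∀ n, u ∈ (f (i + 1 + n)).2.1 := fun n => by
      induction n with
      | zero => simp [c4]
      | succ n ih =>
        obtain ⟨u', e', -⟩ := (hf (i + 1 + n)).2.2.2.2.2.2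
        rw [← add_assoc, e']
        exact List.mem_cons_of_mem _ ih
    obtain ⟨n, rfl⟩ := Nat.exists_eq_add_of_le hj
    refine ((hf (i + 1 + n)).2.2.2.2.2.1 v (hv.trans (h2.trans (hq _)))).2 u (hm n) ?_
    exact (((a3 g hg t' h1 _ b2 ((hd _).mono h2)).mono hv).and
      (e.and (c5.mono (hv.trans (h2.trans (hq _)))))).imp fun U h => h.2.2 _ (h.2.1 ▸ h.1)
  · refine (c3 t' (h2.trans (hq _))).1 (Or.inr ⟨_ :: l, by simp [l1], List.forall_mem_cons.2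
      ⟨⟨c1.mono (h2.trans (hq _)), c2.mono (h2.trans (hq _))⟩, fun g hg => ⟨(l2 g hg).1.mono h1,
        a3 g hg t' h1 _ (b1.mono ht') ((hd _).mono h2)⟩⟩,
      List.pairwise_cons.2 ⟨e, l3.imp fun h => h.mono h1⟩⟩)

omit [OrderTop P] in
theorem shrink (hσ : SC P) (hT : Forces p0 fun U => IsTop Mod.mem (X.val U) (T.val U))
    (hY : Forces p0 fun U => IsSub Mod.mem (Y.val U) (X.val U)) (hC : CC T Y p0)
    (hF : Forces p0 fun U => IsSub Mod.mem (F.val U) (T.val U))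
    (hH : Forces p0 fun U => ∀ g, Mod.mem g (H.val U) → RelOpen Mod.mem (T.val U) (Y.val U) g ∧
      ∃ u, Mod.mem u (F.val U) ∧ IsSub Mod.mem g u) (k : ℕ) {p : P} (hp : p ≤ p0)
    {O : P → Name P → Prop} (hO : Op T Y p O) (hL : ∀ q ≤ p, ¬ Sm F Y q O) :
    ∃ q ≤ p, ∃ O' : P → Name P → Prop, Op T Y q O' ∧ (∀ r ≤ q, ¬ Sm F Y r O') ∧
      (∀ s y, O s y → O' s y) ∧
      ∀ r ≤ q, ∀ y, In r y Y → Od H (k + 1) r y → ∃ s ≤ r, O' s y ∨ Od H (k + 2) s y := by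
  by_cases h : ∀ q ≤ p, ¬ Sm F Y q fun s y => O s y ∨ Od H (k + 1) s y
  · exact ⟨p, le_rfl, _, hO.or ((op_od hT hY (hH.imp fun U h g hg => (h g hg).1) _).le hp), h,
      fun _ _ => Or.inl, fun r _ y _ g => ⟨r, le_rfl, Or.inl (Or.inr g)⟩⟩
  push Not at h
  obtain ⟨q, hq, l, l1, l2⟩ := h
  have hT' : ∀ q ≤ p, ∀ u, In q u F → In q u T := fun q hq u hu =>
    ((hF.mono (hq.trans hp)).and hu).imp fun U h => h.1 _ h.2
  have o1 := (hO.le hq).or (op_list (Y := Y) fun u hu => hT' q hq u (l1 u hu))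
  obtain ⟨r, hr, l', l3, l4⟩ := layer hσ hT hY hC hH k (hq.trans hp) o1 fun r hr y hy => by
    obtain ⟨s, hs, g⟩ := l2 r hr y hy
    exact ⟨s, hs, or_right_comm.1 g⟩
  refine ⟨r, hr.trans hq, _, (o1.le hr).or
    (op_list (Y := Y) fun u hu => hT' r (hr.trans hq) u (l3 u hu)), ?_,
    fun _ _ g => Or.inl (Or.inl g), fun s hs y hy _ => ?_⟩
  · rintro s hs ⟨l'', l5, l6⟩
    refine hL s (hs.trans (hr.trans hq)) ⟨l ++ l' ++ l'', fun u hu => ?_, fun t ht y hy => ?_⟩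
    · simp only [List.mem_append] at hu
      rcases hu with (hu | hu) | hu
      exacts [(l1 u hu).mono (hs.trans hr), (l3 u hu).mono hs, l5 u hu]
    · obtain ⟨v, hv, g⟩ := l6 t ht y hy
      refine ⟨v, hv, ?_⟩
      rcases g with ((g | ⟨u, hu, g⟩) | ⟨u, hu, g⟩) | ⟨u, hu, g⟩
      · exact Or.inl g
      all_goals exact Or.inr ⟨u, by simp [hu], g⟩
  · obtain ⟨t, ht, g⟩ := l4 s hs y hy
    exact ⟨t, ht, or_right_comm.1 g⟩

theorem finite_subcover (hσ : SC P) (hT : Forces p0 fun U => IsTop Mod.mem (X.val U) (T.val U))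
    (hY : Forces p0 fun U => IsSub Mod.mem (Y.val U) (X.val U)) (hC : CC T Y p0)
    (hF : Forces p0 fun U => IsSub Mod.mem (F.val U) (T.val U))
    (hF' : Forces p0 fun U => Covers Mod.mem (F.val U) (Y.val U))
    (hW : Forces p0 fun U => WeaklyThetaRef Mod.mem (omegaName.val U) (T.val U) (Y.val U)) :
    ∃ q ≤ p0, ∃ l : List (Name P), (∀ u ∈ l, In q u F) ∧
      ∀ r ≤ q, ∀ y, In r y Y → ∃ s ≤ r, ∃ u ∈ l, In s y u := by
  by_contra hc
  have hL : ∀ q ≤ p0, ¬ Sm F Y q fun _ _ => False := fun q hq ⟨l, l1, l2⟩ =>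
    hc ⟨q, hq, l, l1, by simpa using l2⟩
  have e := mem_sepName (powName Y) fun U g => ∃ u, Mod.mem u (F.val U) ∧
    ∀ z, Mod.mem z g ↔ Mod.mem z u ∧ Mod.mem z (Y.val U)
  obtain ⟨G, hG⟩ := Forces.exists_name (p := p0) (Φ := fun U G =>
    IsFunOn Mod.mem G (omegaName.val U) (fun H => ∀ g, Mod.mem g H →
      RelOpen Mod.mem (T.val U) (Y.val U) g ∧ ∃ u, Mod.mem u (F.val U) ∧ IsSub Mod.mem g u) ∧
    ∀ y, Mod.mem y (Y.val U) → ∃ n H, App Mod.mem G n H ∧ (∃ g, Mod.mem g H ∧ Mod.mem y g) ∧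
      ∃ E, IsFin Mod.mem (omegaName.val U) E ∧ ∀ g, Mod.mem g E ↔ Mod.mem g H ∧ Mod.mem y g)
    ((hF.and (hF'.and hW)).imp fun U h => by
      obtain ⟨G, g1, g2⟩ := h.2.2 _ (fun u hu => by
        obtain ⟨-, v, hv, g⟩ := (e U u).1 hu
        exact ⟨v, h.1 _ hv, g⟩) (fun y hy => by
        obtain ⟨v, hv, g⟩ := h.2.1 y hy
        obtain ⟨v, rfl⟩ := v.exists_name
        have e' := mem_sepName Y (fun U z => Mod.mem z (v.val U)) U
        exact ⟨_, (e U _).2 ⟨(mem_powName _ _ _).2 fun z hz => ((e' z).1 hz).1, _, hv,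
          fun z => (e' z).trans and_comm⟩, (e' y).2 ⟨hy, g⟩⟩)
      refine ⟨G, ⟨fun a ha => ?_, g1.2⟩, g2⟩
      obtain ⟨x, y, a1, a2, a3⟩ := g1.1 a ha
      refine ⟨x, y, a1, a2, fun g hg => ⟨(a3 g hg).1, ?_⟩⟩
      obtain ⟨u, hu, a4⟩ := (a3 g hg).2
      obtain ⟨-, v, hv, a5⟩ := (e U u).1 hu
      exact ⟨v, hv, fun z hz => ((a5 z).1 (a4 z hz)).1⟩)
  choose H hH using fun n : ℕ => Forces.exists_name
    (Φ := fun U H => App Mod.mem (G.val U) ((natName n).val U) H)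
    (hG.imp fun U h => h.1.2.1 _ (natName_mem_omega n U))
  have hH' : ∀ n, Forces p0 fun U => ∀ g, Mod.mem g ((H n).val U) →
      RelOpen Mod.mem (T.val U) (Y.val U) g ∧ ∃ u, Mod.mem u (F.val U) ∧ IsSub Mod.mem g u :=
    fun n => (hG.and (hH n)).imp fun U h => ((isZFC U).app_val h.1.1 h.2).2
  obtain ⟨f, f0, hf⟩ := dc (S := P × (P → Name P → Prop) × Name P)
    (fun a => a.1 ≤ p0 ∧ Op T Y a.1 a.2.1 ∧ ∀ q ≤ a.1, ¬ Sm F Y q a.2.1)
    (fun n a b => b.1 ≤ a.1 ∧ (∀ s y, a.2.1 s y → b.2.1 s y) ∧ In b.1 b.2.2 Y ∧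
      (∀ s ≤ b.1, ¬ b.2.1 s b.2.2) ∧ ∀ r ≤ b.1, ∀ y, In r y Y →
        Od (H n.unpair.1) (n.unpair.2 + 1) r y →
          ∃ s ≤ r, b.2.1 s y ∨ Od (H n.unpair.1) (n.unpair.2 + 2) s y)
    (p0, fun _ _ => False, X) ⟨le_rfl, ⟨fun _ _ _ _ h => h, fun _ _ _ _ h => h.elim⟩, hL⟩ (by
      rintro n ⟨p, O, _⟩ ⟨hp, hO, hL⟩
      obtain ⟨q, hq, O', a1, a2, a3, a4⟩ := shrink hσ hT hY hC hF (hH' n.unpair.1) n.unpair.2 hp
        hO hL
      obtain ⟨r, hr, y, b1, b2⟩ := pick (a2 q le_rfl) (l := []) (by simp)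
      exact ⟨(r, O', y), ⟨hr.trans (hq.trans hp), a1.le hr, fun s hs => a2 s (hs.trans hr)⟩,
        hr.trans hq, a3, b1, fun s hs => (b2 s hs).1, fun s hs => a4 s (hs.trans hr)⟩)
  obtain ⟨q, hq⟩ := hσ (fun n => (f n).1) fun n => (hf n).2.1
  have hq0 : q ≤ p0 := (hq 0).trans (hf 0).1.1
  let d : ℕ → Name P := fun n => (f (n + 1)).2.2
  have hd : ∀ n, In q (d n) Y := fun n => (hf n).2.2.2.1.mono (hq (n + 1))
  obtain ⟨r, hr, y, y1, y2⟩ := hC q hq0 d hd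
  have hr0 := hr.trans hq0
  obtain ⟨n, hn⟩ := Forces.exists_name (Φ := fun U n => ∃ H, App Mod.mem (G.val U) n H ∧
    (∃ g, Mod.mem g H ∧ Mod.mem (y.val U) g) ∧ ∃ E, IsFin Mod.mem (omegaName.val U) E ∧
      ∀ g, Mod.mem g E ↔ Mod.mem g H ∧ Mod.mem (y.val U) g)
    (((hG.mono hr0).and y1).imp fun U h => h.1.2 _ h.2)
  obtain ⟨s, hs, ⟨n'⟩, hn'⟩ := Forces.exists_fam (((hG.mono hr0).and hn).imp fun U h => by
    obtain ⟨H, g, -⟩ := h.2
    exact ((isZFC U).app_val h.1.1 g).1)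
  have h1 : Forces s fun U => (∃ g, Mod.mem g ((H n').val U) ∧ Mod.mem (y.val U) g) ∧
      ∃ E, IsFin Mod.mem (omegaName.val U) E ∧
        ∀ g, Mod.mem g E ↔ Mod.mem g ((H n').val U) ∧ Mod.mem (y.val U) g :=
    ((((hG.and (hH n')).mono (hs.trans hr0)).and (hn.mono hs)).and hn').imp fun U h => by
      obtain ⟨H', g1, g2⟩ := h.1.2
      rw [h.2] at g1
      exact h.1.1.1.1.2.2 _ _ _ g1 h.1.1.2 ▸ g2
  obtain ⟨g, hg⟩ := Forces.exists_name
    (Φ := fun U g => Mod.mem g ((H n').val U) ∧ Mod.mem (y.val U) g) (h1.imp fun _ h => h.1)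
  obtain ⟨E, hE⟩ := Forces.exists_name (Φ := fun U E => IsFin Mod.mem (omegaName.val U) E ∧
    ∀ g, Mod.mem g E ↔ Mod.mem g ((H n').val U) ∧ Mod.mem (y.val U) g) (h1.imp fun _ h => h.2)
  obtain ⟨t, ht, m, hm⟩ := fin_decide (hE.imp fun _ h => h.1)
  obtain ⟨k, v, hv, a1, a2⟩ := exists_max (p := t) (m := m) (k0 := 1) (fun k r => Od (H n') k r y)
    ⟨[g], rfl, by simpa using ⟨(hg.mono ht).imp fun _ h => h.1, (hg.mono ht).imp fun _ h => h.2⟩,
      by simp⟩ fun k v hv ⟨l, l1, l2, l3⟩ => l1 ▸ length_le (hm.mono hv) (fun g hg =>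
        ((hE.mono (hv.trans ht)).and ((l2 g hg).1.and (l2 g hg).2)).imp
          fun U h => (h.1.2 _).2 h.2) l3
  have hvr : v ≤ r := hv.trans (ht.trans hs)
  have := (hf (Nat.pair n' k)).2.2.2.2.2 v (hvr.trans (hr.trans (hq _))) y (y1.mono hvr)
  rw [Nat.unpair_pair] at this
  rw [add_comm 1 k] at a1 a2
  obtain ⟨w, hw, b | b⟩ := this a1
  swap
  · exact a2 w hw b
  obtain ⟨z, hz, j, hj, c⟩ := ((hf (Nat.pair n' k + 1)).1.2.1.le (hr.trans (hq _))).clus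
    (hw.trans hvr) (fun n => (hd n).mono hr) y1 y2 b (Nat.pair n' k)
  obtain ⟨i, rfl⟩ := Nat.exists_eq_add_of_le hj
  have hm : ∀ i s y, (f (Nat.pair n' k + 1)).2.1 s y → (f (Nat.pair n' k + i + 1)).2.1 s y :=
    fun i s y g => by
      induction i with
      | zero => exact g
      | succ i ih => exact (hf (Nat.pair n' k + i + 1)).2.2.1 s y ih
  exact (hf (Nat.pair n' k + i)).2.2.2.2.1 z (hz.trans (hw.trans (hvr.trans (hr.trans (hq _)))))
    (hm i _ _ c)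

end

end Pool.Agent.P.MP_63de32_gt.Pos
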