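import Pool.Agent.P.MP_63de32_gt.Pos1

set_option autoImplicit false

/-! After collapsing the continuum by a countably closed poset, compact hereditarily weakly
theta-refinable spaces are sequentially compact. -/

open Pool.Agent.Lib.PosetForcing Filter

namespace Pool.Agent.P.MP_63de32_gt.Pos

universe u

/-- the cofinite filter on `D` -/
def fl (D : Set ℕ) : Filter ℕ := atTop ⊓ 𝓟 D

instance (D : Set ℕ) : (fl D).IsCountablyGenerated := by unfold fl; infer_instance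

theorem fl_mem (D : Set ℕ) : ∀ᶠ n in fl D, n ∈ D := mem_inf_of_right (mem_principal_self D)

theorem pseudo {ι : Type*} [Countable ι] (D : ι → Set ℕ) (h1 : ∀ i, (fl (D i)).NeBot)
    (h2 : ∀ i j, fl (D i) ≤ fl (D j) ∨ fl (D j) ≤ fl (D i)) :
    ∃ E, (fl E).NeBot ∧ ∀ i, fl E ≤ fl (D i) := by
  cases isEmpty_or_nonempty ι with
  | inl h => exact ⟨Set.univ, by simpa [fl] using atTop_neBot, fun i => h.elim i⟩
  | inr h =>
    have : (⨅ i, fl (D i)).NeBot := iInf_neBot_of_directed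
      (fun i j => (h2 i j).elim (fun g => ⟨i, le_rfl, g⟩) fun g => ⟨j, g, le_rfl⟩) h1
    obtain ⟨x, hx⟩ := exists_seq_tendsto (⨅ i, fl (D i))
    obtain ⟨i0⟩ := h
    have hx0 : Tendsto x atTop atTop := hx.mono_right ((iInf_le _ i0).trans inf_le_left)
    refine ⟨Set.range x, ?_, fun i => le_inf inf_le_left ?_⟩
    · exact (tendsto_inf.2 ⟨hx0, tendsto_principal.2 (.of_forall fun k => ⟨k, rfl⟩)⟩ :
        Tendsto x atTop (fl (Set.range x))).neBot
    · obtain ⟨m, hm⟩ := eventually_atTop.1 ((hx.mono_right (iInf_le _ i)).eventually (fl_mem _))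
      obtain ⟨b, hb⟩ := ((Set.finite_Iio m).image x).bddAbove
      refine le_principal_iff.2 (mem_inf_principal.2 (eventually_atTop.2 ⟨b + 1, ?_⟩))
      rintro _ hn ⟨k, rfl⟩
      refine hm k (not_lt.1 fun hk => ?_)
      have := hb ⟨k, hk, rfl⟩
      omega

theorem wf_rec {W D : Type*} [Preorder W] [WellFoundedLT W] [Nonempty D]
    (I : ∀ a : W, (∀ b, b < a → D) → D → Prop)
    (h : ∀ a (F : W → D), (∀ b < a, I b (fun c _ => F c) (F b)) → ∃ x, I a (fun c _ => F c) x) :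
    ∃ F : W → D, ∀ a, I a (fun c _ => F c) (F a) := by
  classical
  let F : W → D := (wellFounded_lt (α := W)).fix fun a f => Classical.epsilon (I a f)
  refine ⟨F, fun a => ?_⟩
  induction a using WellFoundedLT.induction with
  | ind a ih =>
    have e : F a = Classical.epsilon (I a fun c _ => F c) := (wellFounded_lt (α := W)).fix_eq _ a
    rw [e]
    exact Classical.epsilon_spec (h a F ih)

variable {P : Type u} [Preorder P] [OrderTop P]

omit [OrderTop P] in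
theorem all_cnt (hσ : SC P) {ι : Type*} [Countable ι] {p : P} (R : ι → P → Prop)
    (hR : ∀ i q r, r ≤ q → R i q → R i r) (h : ∀ i, ∀ q ≤ p, ∃ r ≤ q, R i r) :
    ∃ q ≤ p, ∀ i, R i q := by
  cases isEmpty_or_nonempty ι with
  | inl g => exact ⟨p, le_rfl, fun i => g.elim i⟩
  | inr g =>
    obtain ⟨f, hf⟩ := exists_surjective_nat ι
    obtain ⟨q, hq, g⟩ := exists_le_forall hσ p (fun n => R (f n)) (fun n => hR _) fun n => h _
    exact ⟨q, hq, fun i => (hf i).elim fun n e => e ▸ g n⟩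

/-- the name of a sequence -/
def seqN (d : ℕ → Name P) : Name P :=
  funName (fun n : ULift.{u} ℕ => natName n.down) fun n => d n.down

theorem app_seqN (d : ℕ → Name P) (n : ℕ) (U : Gen P) :
    App Mod.mem ((seqN d).val U) ((natName n).val U) ((d n).val U) :=
  app_funName (fun n : ULift.{u} ℕ => natName n.down) (fun n => d n.down) ⟨n⟩ U

theorem isFun_seqN {p : P} {d : ℕ → Name P} {A : Name P} (h : ∀ n, In p (d n) A) :
    Forces p fun U => IsFun Mod.mem ((seqN d).val U) (omegaName.val U) (A.val U) :=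
  forces_isFunOn_graph (V := fun U y => Mod.mem y (A.val U))
    (fun i q hq _ => ⟨q, le_rfl, ((h i.down).mono hq).imp fun U g => ⟨natName_mem_omega _ U, g⟩⟩)
    (fun j q _ _ => ⟨q, le_rfl, j, le_top, Forces.of_forall (fun _ => rfl) q⟩)
    fun i j q _ _ _ g => ⟨q, le_rfl, Forces.of_forall (fun U => by rw [g.natName_inj]) q⟩

variable {X T : Name P} {p0 : P}

theorem exists_clus (hσ : SC P)
    (hK : Forces p0 fun U => IsCpt Mod.mem (omegaName.val U) (X.val U) (T.val U))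
    {d : ℕ → Name P} (hd : ∀ n, In p0 (d n) X) : ∃ z, In p0 z X ∧ Clus T p0 z d := by
  have key : Forces p0 fun U => ∃ z, Mod.mem z (X.val U) ∧ ∀ V, Mod.mem V (T.val U) →
      Mod.mem z V → ∀ m, Mod.mem m (omegaName.val U) →
        ∃ k y, App Mod.mem ((seqN d).val U) k y ∧ Mod.mem m k ∧ Mod.mem y V := by
    by_contra hc
    obtain ⟨q, hq, h1⟩ := exists_forces_not hc
    have e := mem_sepName T fun U V => ∃ m, Mod.mem m (omegaName.val U) ∧
      ∀ k y, App Mod.mem ((seqN d).val U) k y → Mod.mem m k → ¬ Mod.mem y V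
    generalize sepName T _ = F at e
    obtain ⟨G, hG⟩ := Forces.exists_name (p := q) (Φ := fun U G => IsSub Mod.mem G (F.val U) ∧
      IsFin Mod.mem (omegaName.val U) G ∧ Covers Mod.mem G (X.val U))
      (((hK.mono hq).and h1).imp fun U h => h.1 _ (fun V hV => ((e U V).1 hV).1) fun z hz => by
        have := h.2
        push Not at this
        obtain ⟨V, a1, a2, a3⟩ := this z hz
        exact ⟨V, (e U V).2 ⟨a1, a3⟩, a2⟩)
    obtain ⟨r, hr, l, l1, l2⟩ := fin_elim (hG.imp fun _ h => h.2.1)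
    obtain ⟨s, hs, h2⟩ := all_cnt hσ (p := r) (fun (i : Fin l.length) s => ∃ m, ∀ n, m < n →
      Forces s fun U => ¬ Mod.mem ((d n).val U) ((l.get i).val U))
      (fun i _ _ g ⟨m, hm⟩ => ⟨m, fun n hn => (hm n hn).mono g⟩) fun i s hs => by
        obtain ⟨m, hm⟩ := Forces.exists_name (p := s) (Φ := fun U m =>
          Mod.mem m (omegaName.val U) ∧ ∀ k y, App Mod.mem ((seqN d).val U) k y → Mod.mem m k →
            ¬ Mod.mem y ((l.get i).val U)) ((((hG.mono hr).and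
              (l1 _ (List.get_mem l i))).mono hs).imp fun U h => ((e U _).1 (h.1.1 _ h.2)).2)
        obtain ⟨t, ht, m', hm'⟩ := Forces.exists_fam (hm.imp fun _ h => h.1)
        exact ⟨t, ht, m'.down, fun n hn => ((hm.mono ht).and hm').imp fun U h =>
          h.1.2 _ _ (app_seqN d n U) (h.2 ▸ natName_mem hn U)⟩
    choose m hm using h2
    obtain ⟨b, hb⟩ := (Set.finite_range m).bddAbove
    obtain ⟨u, hu⟩ := Forces.exists_name (p := s) (Φ := fun U u => Mod.mem u (G.val U) ∧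
      Mod.mem ((d (b + 1)).val U) u) (((hG.mono (hs.trans hr)).and
        ((hd (b + 1)).mono (hs.trans (hr.trans hq)))).imp fun U h => h.1.2.2 _ h.2)
    obtain ⟨t, ht, v, hv, g⟩ := l2 s hs u (hu.imp fun _ h => h.1)
    obtain ⟨i, rfl⟩ := List.get_of_mem hv
    exact Forces.not_false ((((hm i (b + 1) (Nat.lt_succ_of_le (hb ⟨i, rfl⟩))).and hu).mono ht).and
      g |>.imp fun U h => h.1.1 (h.2 ▸ h.1.2.2))
  obtain ⟨z, hz⟩ := Forces.exists_name (Φ := fun U z => Mod.mem z (X.val U) ∧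
    ∀ V, Mod.mem V (T.val U) → Mod.mem z V → ∀ m, Mod.mem m (omegaName.val U) →
      ∃ k y, App Mod.mem ((seqN d).val U) k y ∧ Mod.mem m k ∧ Mod.mem y V) key
  refine ⟨z, hz.imp fun _ h => h.1, fun r hr V a1 a2 m => ?_⟩
  obtain ⟨k, hk⟩ := Forces.exists_name (p := r) (Φ := fun U k =>
    ∃ y, App Mod.mem ((seqN d).val U) k y ∧ Mod.mem ((natName m).val U) k ∧ Mod.mem y (V.val U))
    (((hz.mono hr).and (a1.and a2)).imp fun U h => h.1.2 _ h.2.1 h.2.2 _ (natName_mem_omega m U))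
  obtain ⟨y, hy⟩ := Forces.exists_name (Φ := fun U y => App Mod.mem ((seqN d).val U) (k.val U) y ∧
    Mod.mem ((natName m).val U) (k.val U) ∧ Mod.mem y (V.val U)) hk
  obtain ⟨s, hs, n, -, g⟩ := Forces.exists_app_graph (hy.imp fun _ h => h.1)
  obtain ⟨U, hU⟩ := ((hy.mono hs).and g).exists
  exact ⟨s, hs, n.down, (natName_mem_iff.1 (hU.2.1 ▸ hU.1.2.1)).le,
    ((hy.mono hs).and g).imp fun U h => h.2.2 ▸ h.1.2.2⟩

/-- terms for iterated cluster points -/
inductive Tm : Type u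
  | leaf (n : ℕ) : Tm
  | node (s : ℕ → Tm) : Tm

/-- `d` is forced to converge to `x` along `D` -/
def Cv (T : Name P) (q : P) (x : Name P) (d : ℕ → Name P) (D : Set ℕ) : Prop :=
  ∀ r ≤ q, ∀ V, In r V T → In r x V → ∃ s ≤ r, ∀ᶠ n in fl D, In s (d n) V

/-- the poset adds an enumeration of `Tm` along `W` -/
structure Enum {W : Type u} (g : P → W → Tm.{u} → Prop) : Prop where
  mono : ∀ p q a t, q ≤ p → g p a t → g q a t
  fn : ∀ p a t t', g p a t → g p a t' → t = t'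
  tot : ∀ p a, ∃ q ≤ p, ∃ t, g q a t
  sur : ∀ p t, ∃ q ≤ p, ∃ a, g q a t

omit [OrderTop P] in
theorem thin_out (hσ : SC P) {d : ℕ → Name P} {q : P} {x : Name P} {D : Set ℕ}
    (h : ¬ Cv T q x d D) : ∃ r ≤ q, ∃ V E, (fl E).NeBot ∧ fl E ≤ fl D ∧ In r V T ∧ In r x V ∧
      ∀ n ∈ E, Forces r fun U => ¬ Mod.mem ((d n).val U) (V.val U) := by
  unfold Cv at h
  push Not at h
  obtain ⟨r, hr, V, a1, a2, a3⟩ := h
  obtain ⟨s, hs, b⟩ := all_cnt hσ (p := r) (fun (n : ℕ) s => In s (d n) V ∨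
    Forces s fun U => ¬ Mod.mem ((d n).val U) (V.val U))
    (fun _ _ _ g h => h.imp (·.mono g) (·.mono g)) fun n s _ => by
      by_cases g : In s (d n) V
      · exact ⟨s, le_rfl, Or.inl g⟩
      · obtain ⟨t, ht, g'⟩ := exists_forces_not g
        exact ⟨t, ht, Or.inr g'⟩
  refine ⟨s, hs.trans hr, V, D ∩ {n | ¬ In s (d n) V}, ?_,
    inf_le_inf_left _ (principal_mono.2 Set.inter_subset_left), a1.mono hs, a2.mono hs,
    fun n hn => (b n).resolve_left hn.2⟩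
  have := frequently_iff_neBot.1 (a3 s hs)
  rwa [fl, inf_assoc, inf_principal] at this

theorem seq_compact (hσ : SC P) {W : Type u} [LinearOrder W] [WellFoundedLT W]
    (hW : ∀ a : W, (Set.Iio a).Countable) {g : P → W → Tm.{u} → Prop} (hg : Enum g)
    (hT : Forces p0 fun U => IsTop Mod.mem (X.val U) (T.val U))
    (hK : Forces p0 fun U => IsCpt Mod.mem (omegaName.val U) (X.val U) (T.val U))
    (hH : Forces p0 fun U => ∀ Y, IsSub Mod.mem Y (X.val U) →
      WeaklyThetaRef Mod.mem (omegaName.val U) (T.val U) Y)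
    {d : ℕ → Name P} (hd : ∀ n, In p0 (d n) X) :
    ∃ q ≤ p0, ∃ D, (fl D).NeBot ∧ ∃ x, In q x X ∧ Cv T q x d D := by
  by_contra hc
  push Not at hc
  have : ∀ e : ℕ → Name P, ∃ z, (∀ n, In p0 (e n) X) → In p0 z X ∧ Clus T p0 z e := fun e => by
    by_cases h : ∀ n, In p0 (e n) X
    · exact (exists_clus hσ hK h).imp fun z hz _ => hz
    · exact ⟨X, fun h' => absurd h' h⟩
  choose cl hcl using this
  let y : Tm.{u} → Name P := fun t => Tm.rec d (fun _ ih => cl ih) t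
  have hy : ∀ t, In p0 (y t) X := fun t => by
    induction t with
    | leaf n => exact hd n
    | node s ih => exact (hcl _ ih).1
  have hY : Forces p0 fun U => IsSub Mod.mem ((fam y).val U) (X.val U) :=
    forces_forall_mem_fam (Φ := fun U x => Mod.mem x (X.val U))
      fun t q hq => ⟨q, le_rfl, (hy t).mono hq⟩
  have hC : CC T (fam y) p0 := fun p hp e he => by
    obtain ⟨q, hq, h⟩ := all_cnt hσ (p := p) (fun (n : ℕ) q => ∃ t,
      Forces q fun U => (e n).val U = (y t).val U) (fun _ _ _ g ⟨t, ht⟩ => ⟨t, ht.mono g⟩)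
      fun n q hq => Forces.exists_fam ((he n).mono hq)
    choose s hs using h
    refine ⟨q, hq, y (.node s), Forces.of_forall (mem_fam y (.node s)) q,
      fun r hr V a1 a2 m => ?_⟩
    obtain ⟨t, ht, n, hn, b⟩ := (hcl (fun n => y (s n)) fun n => hy _).2 r
      (hr.trans (hq.trans hp)) V a1 a2 m
    exact ⟨t, ht, n, hn, (b.and ((hs n).mono (ht.trans hr))).imp fun U h => h.2 ▸ h.1⟩
  let I : ∀ a : W, (∀ b, b < a → Set P × (P → Set ℕ × Name P)) →
      Set P × (P → Set ℕ × Name P) → Prop := fun a f x =>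
    (∀ s ∈ x.1, ∀ s' ∈ x.1, ∀ r, r ≤ s → r ≤ s' → s = s') ∧
    (∀ q ≤ p0, ∃ s ∈ x.1, ∃ r, r ≤ s ∧ r ≤ q) ∧
    ∀ s ∈ x.1, (fl (x.2 s).1).NeBot ∧ In s (x.2 s).2 T ∧
      (∀ n ∈ (x.2 s).1, Forces s fun U => ¬ Mod.mem ((d n).val U) ((x.2 s).2.val U)) ∧
      (∃ t, g s a t ∧ In s (y t) (x.2 s).2) ∧
      ∀ b (hb : b < a), ∃ s' ∈ (f b hb).1, s ≤ s' ∧ fl (x.2 s).1 ≤ fl ((f b hb).2 s').1
  have cmp : ∀ (F : W → Set P × (P → Set ℕ × Name P)) a b, I a (fun c _ => F c) (F a) →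
      I b (fun c _ => F c) (F b) → ∀ s ∈ (F a).1, ∀ s' ∈ (F b).1, ∀ r, r ≤ s → r ≤ s' →
      fl ((F a).2 s).1 ≤ fl ((F b).2 s').1 ∨ fl ((F b).2 s').1 ≤ fl ((F a).2 s).1 := by
    intro F a b ha hb s hs s' hs' r h1 h2
    rcases lt_trichotomy a b with e | rfl | e
    · obtain ⟨s'', a1, a2, a3⟩ := (hb.2.2 s' hs').2.2.2.2 a e
      exact Or.inr (ha.1 s'' a1 s hs r (h2.trans a2) h1 ▸ a3)
    · exact Or.inl (ha.1 s hs s' hs' r h1 h2 ▸ le_rfl)
    · obtain ⟨s'', a1, a2, a3⟩ := (ha.2.2 s hs).2.2.2.2 b e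
      exact Or.inl (hb.1 s'' a1 s' hs' r (h1.trans a2) h2 ▸ a3)
  have : Nonempty (Name P) := ⟨X⟩
  obtain ⟨F, hF⟩ := wf_rec I fun a F ih => by
    obtain ⟨S, s1, s2, s3⟩ := exists_max_antichain {s : P | ∃ x : Set ℕ × Name P,
      (fl x.1).NeBot ∧ In s x.2 T ∧
      (∀ n ∈ x.1, Forces s fun U => ¬ Mod.mem ((d n).val U) (x.2.val U)) ∧
      (∃ t, g s a t ∧ In s (y t) x.2) ∧
      ∀ b (_ : b < a), ∃ s' ∈ (F b).1, s ≤ s' ∧ fl x.1 ≤ fl ((F b).2 s').1}
    choose! lab hlab using s1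
    refine ⟨(S, lab), s2, fun q hq => ?_, hlab⟩
    have := (hW a).to_subtype
    obtain ⟨r, hr, h1⟩ := all_cnt hσ (p := q) (fun (b : Set.Iio a) r => ∃ s ∈ (F b).1, r ≤ s)
      (fun _ _ _ g ⟨s, hs, h⟩ => ⟨s, hs, g.trans h⟩) fun b r hr => by
        obtain ⟨s, hs, t, h1, h2⟩ := (ih b b.2).2.1 r (hr.trans hq)
        exact ⟨t, h2, s, hs, h1⟩
    choose s hs hs' using h1
    obtain ⟨D, d1, d2⟩ := pseudo (fun b : Set.Iio a => ((F b).2 (s b)).1)
      (fun b => ((ih b b.2).2.2 _ (hs b)).1)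
      fun b c => cmp F b c (ih b b.2) (ih c c.2) _ (hs b) _ (hs c) r (hs' b) (hs' c)
    obtain ⟨r', hr', t, ht⟩ := hg.tot r a
    have h0 := hr'.trans (hr.trans hq)
    obtain ⟨v, hv, V, E, e1, e2, e3, e4, e5⟩ := thin_out hσ (hc r' h0 D d1 _ ((hy t).mono h0))
    obtain ⟨w, hw, z, z1, z2⟩ := s3 v ⟨(E, V), e1, e3, e5, ⟨t, hg.mono _ _ _ _ hv ht, e4⟩,
      fun b hb => ⟨_, hs ⟨b, hb⟩, hv.trans (hr'.trans (hs' ⟨b, hb⟩)), e2.trans (d2 ⟨b, hb⟩)⟩⟩
    exact ⟨w, hw, z, z1, z2.trans (hv.trans (hr'.trans hr))⟩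
  let C : Name P := .mk (Σ a : W, (F a).1) (fun x => ((F x.1).2 x.2).2) fun x => x.2
  obtain ⟨q, hq, l, l1, l2⟩ := finite_subcover (F := C) hσ hT hY hC
    (forces_forall_mem (b := C) (Φ := fun U x => Mod.mem x (T.val U))
      fun x q _ h => ⟨q, le_rfl, ((hF x.1).2.2 _ x.2.2).2.1.mono h⟩)
    (forces_forall_mem_fam (Φ := fun U x => ∃ V, Mod.mem V (C.val U) ∧ Mod.mem x V)
      fun t q hq => by
        obtain ⟨r, hr, a, ha⟩ := hg.sur q t
        obtain ⟨s, hs, v, h1, h2⟩ := (hF a).2.1 r (hr.trans hq)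
        obtain ⟨t', h3, h4⟩ := ((hF a).2.2 s hs).2.2.2.1
        obtain rfl := hg.fn v a _ _ (hg.mono _ _ _ _ h2 ha) (hg.mono _ _ _ _ h1 h3)
        exact ⟨v, h2.trans hr, ((forces_el_mem (b := C) ⟨a, s, hs⟩ h1).and (h4.mono h1)).imp
          fun U h => ⟨_, h⟩⟩)
    ((hH.and hY).imp fun U h => h.1 _ h.2)
  obtain ⟨r, hr, h1⟩ := all_cnt hσ (p := q) (fun (i : Fin l.length) r => ∃ x : Σ a : W, (F a).1,
    r ≤ x.2 ∧ Forces r fun U => (l.get i).val U = ((F x.1).2 x.2).2.val U)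
    (fun _ _ _ g ⟨x, h1, h2⟩ => ⟨x, g.trans h1, h2.mono g⟩)
    fun i r hr => ((l1 _ (List.get_mem l i)).mono hr).exists_el
  choose x hx hx' using h1
  obtain ⟨E, e1, e2⟩ := pseudo (fun i => ((F (x i).1).2 (x i).2).1)
    (fun i => ((hF _).2.2 _ (x i).2.2).1)
    fun i j => cmp F _ _ (hF _) (hF _) _ (x i).2.2 _ (x j).2.2 r (hx i) (hx j)
  obtain ⟨n, hn⟩ := (eventually_all.2 fun i => (fl_mem _).filter_mono (e2 i)).exists
  obtain ⟨s, hs, u, hu, b⟩ := l2 r hr (y (.leaf n)) (Forces.of_forall (mem_fam y (.leaf n)) r)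
  obtain ⟨i, rfl⟩ := List.get_of_mem hu
  exact Forces.not_false ((b.and ((((((hF _).2.2 _ (x i).2.2).2.2.1 n (hn i)).mono (hx i)).and
    (hx' i)).mono hs)).imp fun U h => h.2.1 (h.2.2 ▸ h.1))

end Pool.Agent.P.MP_63de32_gt.Pos
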