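import Pool.Agent.P.MP_63de32_gt.Pos2

set_option autoImplicit false

/-! The positive answer after collapsing the continuum. -/

open Pool.Agent.Lib.PosetForcing Filter

namespace Pool.Agent.P.MP_63de32_gt.Pos

universe u

section
variable {P : Type u} [Preorder P] [OrderTop P]

instance clopen_isTop (a b : Name P) :
    Clopen fun U : Gen P => IsTop Mod.mem (a.val U) (b.val U) := by
  unfold IsTop; infer_instance

instance clopen_isHausdorff (a b : Name P) :
    Clopen fun U : Gen P => IsHausdorff Mod.mem (a.val U) (b.val U) := by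
  unfold IsHausdorff; infer_instance

instance clopen_isCpt (a b c : Name P) :
    Clopen fun U : Gen P => IsCpt Mod.mem (a.val U) (b.val U) (c.val U) := by
  unfold IsCpt; infer_instance

instance clopen_wtr (a b c : Name P) :
    Clopen fun U : Gen P => WeaklyThetaRef Mod.mem (a.val U) (b.val U) (c.val U) := by
  unfold WeaklyThetaRef
  refine @clopen_forall _ _ _ fun F => @clopen_imp _ _ _ _ inferInstance
    (@clopen_imp _ _ _ _ inferInstance (@clopen_exists _ _ _ fun G => @clopen_and _ _ _ _ ?_ ?_))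
  · exact clopen_isFunOn G a fun U H => ∀ g, Mod.mem g H →
      RelOpen Mod.mem (b.val U) (c.val U) g ∧ ∃ u, Mod.mem u (F.val U) ∧ IsSub Mod.mem g u
  · infer_instance

instance clopen_isSequential (a b c : Name P) :
    Clopen fun U : Gen P => IsSequential Mod.mem (a.val U) (b.val U) (c.val U) := by
  unfold IsSequential; infer_instance

variable {X T A : Name P} {p0 : P}

theorem conv_of_cv {q : P} {x : Name P} {d : ℕ → Name P} {D : Set ℕ} (h : Cv T q x d D)
    {φ : ℕ → ℕ} (hφ : Tendsto φ atTop (fl D)) : Forces q fun U =>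
      Conv Mod.mem (omegaName.val U) (T.val U) ((seqN fun k => d (φ k)).val U) (x.val U) := by
  refine forces_forall fun V => forces_imp fun r hr a1 => ⟨r, le_rfl, forces_imp fun s hs a2 => ?_⟩
  obtain ⟨t, ht, b⟩ := h s (hs.trans hr) V (a1.mono hs) a2
  obtain ⟨m, hm⟩ := eventually_atTop.1 (hφ.eventually b)
  have i1 : ∀ a b : Name P, Clopen fun U : Gen P =>
      Mod.mem ((natName m).val U) (a.val U) → Mod.mem (b.val U) (V.val U) :=
    fun a b => inferInstance
  have key : Forces t fun U => ∀ k y, App Mod.mem ((seqN fun k => d (φ k)).val U) k y →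
      Mod.mem ((natName m).val U) k → Mod.mem y (V.val U) := forces_forall_app_graph
    (Φ := fun U k y => Mod.mem ((natName m).val U) k → Mod.mem y (V.val U))
    fun i v hv _ => ⟨v, le_rfl, fun U hU g =>
      (hm i.down (natName_mem_iff.1 g).le).mono hv U hU⟩
  exact ⟨t, ht, key.imp fun U g => ⟨_, natName_mem_omega m U, g⟩⟩

theorem sequential (hσ : SC P) {W : Type u} [LinearOrder W] [WellFoundedLT W]
    (hW : ∀ a : W, (Set.Iio a).Countable) {g : P → W → Tm.{u} → Prop} (hg : Enum g)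
    (hT : Forces p0 fun U => IsTop Mod.mem (X.val U) (T.val U))
    (hS : Forces p0 fun U => IsHausdorff Mod.mem (X.val U) (T.val U))
    (hK : Forces p0 fun U => IsCpt Mod.mem (omegaName.val U) (X.val U) (T.val U))
    (hH : Forces p0 fun U => ∀ Y, IsSub Mod.mem Y (X.val U) →
      WeaklyThetaRef Mod.mem (omegaName.val U) (T.val U) Y)
    (hA : Forces p0 fun U => IsSub Mod.mem (A.val U) (X.val U))
    (hA' : Forces p0 fun U => ∀ s x, IsFun Mod.mem s (omegaName.val U) (A.val U) →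
      Mod.mem x (X.val U) → Conv Mod.mem (omegaName.val U) (T.val U) s x → Mod.mem x (A.val U)) :
    Forces p0 fun U => ∃ V, Mod.mem V (T.val U) ∧
      ∀ z, Mod.mem z V ↔ Mod.mem z (X.val U) ∧ ¬ Mod.mem z (A.val U) := by
  have hC : CC T A p0 := fun p hp d hd => by
    obtain ⟨q, hq, D, h1, x, h2, h3⟩ := seq_compact hσ hW hg (hT.mono hp) (hK.mono hp)
      (hH.mono hp) fun n => ((hA.mono hp).and (hd n)).imp fun U h => h.1 _ h.2
    obtain ⟨φ, hφ⟩ := exists_seq_tendsto (fl D)
    refine ⟨q, hq, x, (((hA'.mono (hq.trans hp)).and (isFun_seqN fun k => (hd (φ k)).mono hq)).and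
      (h2.and (conv_of_cv h3 hφ))).imp fun U h => h.1.1 _ _ h.1.2 h.2.1 h.2.2,
      fun r hr V a1 a2 m => ?_⟩
    obtain ⟨s, hs, b⟩ := h3 r hr V a1 a2
    have c : ∀ᶠ n in fl D, m ≤ n := (eventually_ge_atTop m).filter_mono inf_le_left
    exact ⟨s, hs, (c.and b).exists⟩
  have key : Forces p0 fun U => ∀ x, Mod.mem x (X.val U) ∧ ¬ Mod.mem x (A.val U) →
      ∃ V, (Mod.mem V (T.val U) ∧ ∀ z, Mod.mem z V → ¬ Mod.mem z (A.val U)) ∧ Mod.mem x V := by
    refine forces_forall fun x => forces_imp fun q hq hx => ?_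
    have e := mem_sepName T fun U W => ∃ V, Mod.mem V (T.val U) ∧ Mod.mem (x.val U) V ∧
      ∀ z, Mod.mem z V → ¬ Mod.mem z W
    generalize sepName T _ = F at e
    obtain ⟨r, hr, l, l1, l2⟩ := finite_subcover (F := F) hσ (hT.mono hq) (hA.mono hq)
      (fun p hp => hC p (hp.trans hq)) (Forces.of_forall (fun U W hW => ((e U W).1 hW).1) q)
      ((((hS.and hA).mono hq).and hx).imp fun U h y hy => by
        obtain ⟨V, W, a1, a2, a3, a4, a5⟩ := h.1.1 _ h.2.1 y (h.1.2 y hy) fun e => h.2.2 (e ▸ hy)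
        exact ⟨W, (e U W).2 ⟨a2, V, a1, a3, a5⟩, a4⟩)
      (((hH.and hA).mono hq).imp fun U h => h.1 _ h.2)
    obtain ⟨V, a1, a2, a3⟩ := inter_list (hT.mono (hr.trans hq)) ((hx.mono hr).imp fun _ h => h.1) l
      (fun u V => Forces r fun U => ∀ z, Mod.mem z (V.val U) → ¬ Mod.mem z (u.val U))
      (fun u V W e h => h.imp fun U h z hz => h z (e U z hz)) fun u hu => by
        obtain ⟨V, hV⟩ := Forces.exists_name (Φ := fun U V => Mod.mem V (T.val U) ∧
          Mod.mem (x.val U) V ∧ ∀ z, Mod.mem z V → ¬ Mod.mem z (u.val U))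
          ((l1 u hu).imp fun U h => ((e U _).1 h).2)
        exact ⟨V, hV.imp fun _ h => h.1, hV.imp fun _ h => h.2.1, hV.imp fun _ h => h.2.2⟩
    have a4 : Forces r fun U => ∀ z, Mod.mem z (V.val U) → ¬ Mod.mem z (A.val U) :=
      forces_forall fun z => forces_imp fun s hs b => ⟨s, le_rfl, forces_not_iff.2 fun t ht c => by
        obtain ⟨v, hv, u, hu, c'⟩ := l2 t (ht.trans hs) z c
        exact Forces.not_false ((((a3 u hu).mono (hv.trans (ht.trans hs))).and
          ((b.mono (hv.trans ht)).and c')).imp fun U h => h.1 _ h.2.1 h.2.2)⟩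
    exact ⟨r, hr, ((a1.and a4).and a2).imp fun U h => ⟨_, h⟩⟩
  have e := mem_sepName T fun U V => ∀ z, Mod.mem z V → ¬ Mod.mem z (A.val U)
  generalize sepName T _ = F at e
  refine (hT.and key).imp fun U h => ⟨(unionName F).val U,
    h.1.2.2.2 _ _ (fun V hV => ((e U V).1 hV).1) (mem_unionName F U), fun z => ?_⟩
  rw [mem_unionName]
  constructor
  · rintro ⟨V, a1, a2⟩
    exact ⟨h.1.1 V ((e U V).1 a1).1 z a2, ((e U V).1 a1).2 z a2⟩
  · intro hz
    obtain ⟨V, a1, a2⟩ := h.2 z hz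
    exact ⟨V, (e U V).2 a1, a2⟩

theorem q1 (hσ : SC P) {W : Type u} [LinearOrder W] [WellFoundedLT W]
    (hW : ∀ a : W, (Set.Iio a).Countable) {g : P → W → Tm.{u} → Prop} (hg : Enum g) (U : Gen P) :
    Q1 (M := Mod U) Mod.mem := by
  intro w X T hw
  obtain rfl := hw.eq_omega
  obtain ⟨X, rfl⟩ := X.exists_name
  obtain ⟨T, rfl⟩ := T.exists_name
  intro h1 h2 h3 h4 A h5 h6
  obtain ⟨A, rfl⟩ := A.exists_name
  have i1 : Clopen fun U : Gen P => ∀ Y, IsSub Mod.mem Y (X.val U) →
      WeaklyThetaRef Mod.mem (omegaName.val U) (T.val U) Y := inferInstance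
  have i2 : Clopen fun U : Gen P => ∀ s x, IsFun Mod.mem s (omegaName.val U) (A.val U) →
      Mod.mem x (X.val U) → Conv Mod.mem (omegaName.val U) (T.val U) s x → Mod.mem x (A.val U) :=
    inferInstance
  have i3 : Clopen fun U : Gen P => ∃ V, Mod.mem V (T.val U) ∧
      ∀ z, Mod.mem z V ↔ Mod.mem z (X.val U) ∧ ¬ Mod.mem z (A.val U) := inferInstance
  refine @of_truth _ _ _ i3 U ?_
  filter_upwards [@truth _ _ _ (clopen_isTop X T) U h1, @truth _ _ _ (clopen_isHausdorff X T) U h2,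
    @truth _ _ _ (clopen_isCpt omegaName X T) U h3, @truth _ _ _ i1 U h4,
    @truth _ _ _ (clopen_isSub A X) U h5, @truth _ _ _ i2 U h6] with p a1 a2 a3 a4 a5 a6
  exact sequential hσ hW hg a1 a2 a3 a4 a5 a6

end

/-- countable functional relations -/
structure Col (W B : Type u) : Type u where
  /-- the graph -/
  s : Set (W × B)
  cnt : s.Countable
  fn : ∀ x b b', (x, b) ∈ s → (x, b') ∈ s → b = b'

variable {W B : Type u}

instance : Preorder (Col W B) where
  le p q := q.s ⊆ p.s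
  le_refl _ := subset_rfl
  le_trans _ _ _ h h' := h'.trans h

instance : OrderTop (Col W B) where
  top := ⟨∅, Set.countable_empty, fun _ _ _ h => h.elim⟩
  le_top _ := Set.empty_subset _

theorem sc_col : SC (Col W B) := fun p h => by
  have h1 : Antitone p := antitone_nat_of_succ_le h
  refine ⟨⟨⋃ i, (p i).s, Set.countable_iUnion fun i => (p i).cnt, fun x b b' a1 a2 => ?_⟩,
    fun i => Set.subset_iUnion (fun i => (p i).s) i⟩
  obtain ⟨i, hi⟩ := Set.mem_iUnion.1 a1
  obtain ⟨j, hj⟩ := Set.mem_iUnion.1 a2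
  exact (p (max i j)).fn x b b' (h1 (le_max_left i j) hi) (h1 (le_max_right i j) hj)

theorem col_add (p : Col W B) {a : W} (h : ∀ b, (a, b) ∉ p.s) (t : B) :
    ∃ q ≤ p, (a, t) ∈ q.s := by
  refine ⟨⟨insert (a, t) p.s, p.cnt.insert _, ?_⟩, Set.subset_insert _ _, Set.mem_insert _ _⟩
  rintro x b b' (e | e) (e' | e')
  · exact (Prod.ext_iff.1 e).2.trans (Prod.ext_iff.1 e').2.symm
  · obtain ⟨rfl, -⟩ := Prod.mk.inj e
    exact absurd e' (h _)
  · obtain ⟨rfl, -⟩ := Prod.mk.inj e'
    exact absurd e (h _)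
  · exact p.fn x b b' e e'

theorem enum_col [Uncountable W] : Enum fun (p : Col W Tm.{u}) a t => (a, t) ∈ p.s := by
  refine ⟨fun p q a t h g => h g, fun p => p.fn, fun p a => ?_, fun p t => ?_⟩
  · by_cases h : ∃ b, (a, b) ∈ p.s
    · exact ⟨p, le_rfl, h⟩
    · obtain ⟨q, hq, g⟩ := col_add p (not_exists.1 h) (.leaf 0)
      exact ⟨q, hq, _, g⟩
  · obtain ⟨a, ha⟩ : ∃ a, a ∉ Prod.fst '' p.s := by
      by_contra hc
      push Not at hc
      exact Set.not_countable_univ ((p.cnt.image Prod.fst).mono fun a _ => hc a)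
    obtain ⟨q, hq, g⟩ := col_add p (fun b hb => ha ⟨_, hb, rfl⟩) t
    exact ⟨q, hq, a, g⟩

end Pool.Agent.P.MP_63de32_gt.Pos
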