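import Pool.Agent.Lib.PosetForcing.Card

set_option autoImplicit false

/-! Raw conditions of the iteration, bookkeeping, the side relation. -/

open Pool.Agent.Lib.PosetForcing Cardinal

namespace Pool.Agent.P.MP_63de32_gt

/-- stages -/
abbrev O : Type 1 := Ordinal.{0}

/-- generators of the clopen algebra: singletons of natural numbers and nodes -/
abbrev Gn : Type 1 := ℕ ⊕ O

/-- natural numbers, branches and cones -/
inductive Pt : Type 1
  | nat (n : ℕ) : Pt
  | br (j : O) : Pt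
  | cone (x : O) (b : Bool) : Pt

/-- entries of the list at a node -/
abbrev Ent : Type 1 := (Gn × Bool) × Bool

/-- coloured points -/
abbrev Col : Type 1 := O × Bool × ℕ

/-- values of conditions -/
abbrev Y : Type 1 := List Ent × Finset Col

/-- raw conditions -/
@[ext] structure C : Type 1 where
  /-- the values -/
  f : O → Option Y
  fin : {γ | f γ ≠ none}.Finite

/-- extension of values -/
def YLe (y' y : Y) : Prop := y.1 <+: y'.1 ∧ y.2 ⊆ y'.2

theorem YLe.refl (y : Y) : YLe y y := ⟨List.prefix_refl _, subset_rfl⟩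

theorem YLe.trans {a b c : Y} (h : YLe a b) (h' : YLe b c) : YLe a c :=
  ⟨h'.1.trans h.1, h'.2.trans h.2⟩

instance : Preorder C where
  le p q := ∀ γ y, q.f γ = some y → ∃ y', p.f γ = some y' ∧ YLe y' y
  le_refl _ _ y h := ⟨y, h, YLe.refl y⟩
  le_trans _ _ _ h h' γ y hy := by
    obtain ⟨y1, h1, h2⟩ := h' γ y hy
    obtain ⟨y2, h3, h4⟩ := h γ y1 h1
    exact ⟨y2, h3, h4.trans h2⟩

theorem C.le_def {p q : C} :
    p ≤ q ↔ ∀ γ y, q.f γ = some y → ∃ y', p.f γ = some y' ∧ YLe y' y := Iff.rfl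

theorem C.ne_none {p q : C} (h : p ≤ q) {γ : O} (hγ : q.f γ ≠ none) : p.f γ ≠ none := by
  obtain ⟨y, hy⟩ := Option.ne_none_iff_exists'.1 hγ
  obtain ⟨y', h1, -⟩ := h γ y hy
  simp [h1]

instance : OrderTop C where
  top := ⟨fun _ => none, by simp⟩
  le_top _ _ _ h := absurd h (by simp)

theorem top_f (γ : O) : (⊤ : C).f γ = none := rfl

open Classical in
/-- restriction to an initial segment -/
noncomputable def C.restr (p : C) (α : O) : C :=
  ⟨fun γ => if γ < α then p.f γ else none, p.fin.subset fun γ h => by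
    by_cases hγ : γ < α <;> simp_all⟩

/-- the support is below `α` -/
def Sup (α : O) (p : C) : Prop := ∀ γ, p.f γ ≠ none → γ < α

theorem restr_f_of_lt {p : C} {α γ : O} (h : γ < α) : (p.restr α).f γ = p.f γ := if_pos h

theorem restr_f_of_ge {p : C} {α γ : O} (h : α ≤ γ) : (p.restr α).f γ = none := if_neg (not_lt.2 h)

theorem restr_f_some {p : C} {α γ : O} {y : Y} (h : (p.restr α).f γ = some y) :
    γ < α ∧ p.f γ = some y := by
  rcases lt_or_ge γ α with h1 | h1
  · exact ⟨h1, by rwa [restr_f_of_lt h1] at h⟩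
  · rw [restr_f_of_ge h1] at h; exact absurd h (by simp)

theorem restr_restr {p : C} {α γ : O} (h : γ ≤ α) : (p.restr α).restr γ = p.restr γ := by
  refine C.ext (funext fun δ => ?_)
  rcases lt_or_ge δ γ with h1 | h1
  · rw [restr_f_of_lt h1, restr_f_of_lt h1, restr_f_of_lt (h1.trans_le h)]
  · rw [restr_f_of_ge h1, restr_f_of_ge h1]

theorem sup_restr (p : C) (α : O) : Sup α (p.restr α) := fun γ h => by
  by_contra hγ
  exact h (restr_f_of_ge (not_lt.1 hγ))

theorem Sup.none {p : C} {α γ : O} (h : Sup α p) (hγ : α ≤ γ) : p.f γ = none := by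
  by_contra h1
  exact absurd (h γ h1) (not_lt.2 hγ)

theorem Sup.restr_eq {p : C} {α : O} (h : Sup α p) : p.restr α = p := by
  refine C.ext (funext fun δ => ?_)
  rcases lt_or_ge δ α with h1 | h1
  · exact restr_f_of_lt h1
  · rw [restr_f_of_ge h1, h.none h1]

theorem Sup.mono {p : C} {α β : O} (h : Sup α p) (hβ : α ≤ β) : Sup β p :=
  fun γ hγ => (h γ hγ).trans_le hβ

theorem exists_sup (p : C) : ∃ α, Sup α p := by
  obtain ⟨α, hα⟩ := p.fin.bddAbove
  exact ⟨Order.succ α, fun γ h => Order.lt_succ_iff.2 (hα h)⟩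

theorem exists_sup_small {ι : Type 1} [Small.{0} ι] (p : ι → C) : ∃ α, ∀ i, Sup α (p i) := by
  choose a ha using fun i => exists_sup (p i)
  obtain ⟨α, hα⟩ := Ordinal.bddAbove_of_small (s := Set.range a)
  exact ⟨α, fun i => (ha i).mono (hα ⟨i, rfl⟩)⟩

theorem le_restr (p : C) (α : O) : p ≤ p.restr α := fun _ y h =>
  ⟨y, (restr_f_some h).2, YLe.refl y⟩

theorem restr_mono {p q : C} (h : p ≤ q) (α : O) : p.restr α ≤ q.restr α := fun γ y hy => by
  obtain ⟨h1, h2⟩ := restr_f_some hy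
  obtain ⟨y', h3, h4⟩ := h γ y h2
  exact ⟨y', by rwa [restr_f_of_lt h1], h4⟩

theorem restr_le_of_sup {p q : C} {α : O} (h : p ≤ q) (hq : Sup α q) : p.restr α ≤ q := by
  have := restr_mono h α
  rwa [hq.restr_eq] at this

theorem restr_le_restr (p : C) {α β : O} (h : α ≤ β) : p.restr β ≤ p.restr α := by
  rw [← restr_restr h]; exact le_restr _ _

section card

theorem mk_le_univ_of_small (X : Type 1) [h : Small.{0} X] : #X ≤ Cardinal.univ.{0, 1} := by
  rw [small_iff_lift_mk_lt_univ] at h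
  simpa using h.le

theorem mk_finset_le {X : Type 1} (h : #X ≤ Cardinal.univ.{0, 1}) :
    #(Finset X) ≤ Cardinal.univ.{0, 1} := by
  rcases finite_or_infinite X with h1 | h1
  · exact mk_le_univ_of_small _
  · rwa [mk_finset_of_infinite]

theorem mk_list_le {X : Type 1} (h : #X ≤ Cardinal.univ.{0, 1}) :
    #(List X) ≤ Cardinal.univ.{0, 1} :=
  (mk_list_le_max X).trans (max_le aleph0_lt_univ.le h)

theorem mk_prod_le {X Z : Type 1} (h : #X ≤ Cardinal.univ.{0, 1}) (h' : #Z ≤ Cardinal.univ.{0, 1}) :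
    #(X × Z) ≤ Cardinal.univ.{0, 1} := by
  rw [mk_prod, lift_id, lift_id]
  exact mul_le_of_le aleph0_lt_univ.le h h'

theorem mk_prod_le' {X : Type 1} {Z : Type} [Countable Z] (h : #X ≤ Cardinal.univ.{0, 1}) :
    #(X × Z) ≤ Cardinal.univ.{0, 1} := by
  have h1 : #(X × ULift.{1} Z) ≤ Cardinal.univ.{0, 1} := mk_prod_le h (mk_le_univ_of_small _)
  exact le_trans (mk_le_of_injective (f := fun x : X × Z => (x.1, ULift.up x.2))
    fun a b hab => Prod.ext (Prod.ext_iff.1 hab).1
      (congrArg ULift.down (Prod.ext_iff.1 hab).2)) h1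

theorem mk_O_le : #O ≤ Cardinal.univ.{0, 1} := mk_ordinal.le

theorem mk_C_le : #C ≤ Cardinal.univ.{0, 1} := by
  classical
  have hG : #Gn ≤ Cardinal.univ.{0, 1} := by
    rw [mk_sum, lift_id', mk_nat, lift_aleph0]
    exact add_le_of_le aleph0_lt_univ.le aleph0_lt_univ.le mk_O_le
  have hY : #Y ≤ Cardinal.univ.{0, 1} :=
    mk_prod_le (mk_list_le (mk_prod_le' (mk_prod_le' hG))) (mk_finset_le (mk_prod_le' mk_O_le))
  have h2 : #(Option Y) ≤ Cardinal.univ.{0, 1} := by
    rw [mk_option]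
    exact add_le_of_le aleph0_lt_univ.le hY (one_le_aleph0.trans aleph0_lt_univ.le)
  refine le_trans (mk_le_of_injective (f := fun p : C =>
    (p.fin.toFinset.image fun γ => (γ, p.f γ))) ?_) (mk_finset_le (mk_prod_le mk_O_le h2))
  have key : ∀ p q : C, (p.fin.toFinset.image fun γ => (γ, p.f γ)) =
      (q.fin.toFinset.image fun γ => (γ, q.f γ)) → ∀ γ, p.f γ ≠ none → p.f γ = q.f γ := by
    intro p q h γ hγ
    have : (γ, p.f γ) ∈ q.fin.toFinset.image fun γ => (γ, q.f γ) :=
      h ▸ Finset.mem_image.2 ⟨γ, p.fin.mem_toFinset.2 hγ, rfl⟩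
    obtain ⟨δ, -, h1⟩ := Finset.mem_image.1 this
    obtain ⟨rfl, h2⟩ := Prod.ext_iff.1 h1
    exact h2.symm
  intro p q e2
  refine C.ext (funext fun γ => ?_)
  by_cases h1 : p.f γ = none
  · by_cases h2 : q.f γ = none
    · rw [h1, h2]
    · exact (key q p e2.symm γ h2).symm
  · exact key p q e2 γ h1

theorem mk_small_le {X : Type 1} (h : #X ≤ Cardinal.univ.{0, 1}) :
    #{t : Set X // Small.{0} t} ≤ Cardinal.univ.{0, 1} := by
  obtain ⟨e⟩ : Nonempty (X ↪ O) := by rwa [← Cardinal.le_def, mk_ordinal]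
  have h1 := mk_subset_mk_lt_cof (α := O)
    (by rw [mk_ordinal]; exact IsStrongLimit.univ.isStrongPrelimit)
  rw [mk_ordinal, IsInaccessible.univ.isRegular.cof_ord] at h1
  rw [← h1]
  refine mk_le_of_injective (f := fun t => ⟨e '' t.1, ?_⟩) fun t t' h => ?_
  · have := t.2
    have h2 : Small.{0} (e '' t.1) := inferInstance
    rw [small_iff_lift_mk_lt_univ] at h2
    simpa using h2
  · exact Subtype.ext (e.injective.image_injective (congrArg Subtype.val h))

theorem exists_task : ∃ task : O → Set (C × O × Bool) × Bool,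
    ∀ (t : Set (C × O × Bool)) (k : Bool), Small.{0} t → ∀ α, ∃ β, α ≤ β ∧ task β = (t, k) := by
  obtain ⟨e⟩ : Nonempty (({t : Set (C × O × Bool) // Small.{0} t} × Bool) × O ↪ O) := by
    rw [← Cardinal.le_def, mk_ordinal]
    exact mk_prod_le (mk_prod_le' (mk_small_le (mk_prod_le mk_C_le (mk_prod_le' mk_O_le)))) mk_O_le
  have : Nonempty (({t : Set (C × O × Bool) // Small.{0} t} × Bool) × O) :=
    ⟨((⟨∅, inferInstance⟩, true), 0)⟩
  refine ⟨fun γ => ((Function.invFun e γ).1.1.1, (Function.invFun e γ).1.2),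
    fun t k ht α => ?_⟩
  obtain ⟨δ, hδ⟩ : ∃ δ, α ≤ e ((⟨t, ht⟩, k), δ) := by
    by_contra hcon
    push Not at hcon
    exact not_small_ordinal.{0, 0} (small_of_injective
      (f := fun δ => (⟨e ((⟨t, ht⟩, k), δ), hcon δ⟩ : Set.Iio α)) fun δ δ' h =>
        congrArg Prod.snd (e.injective (congrArg Subtype.val h)))
  exact ⟨_, hδ, by simp only [Function.leftInverse_invFun e.injective _]⟩

end card

/-- the bookkeeping function -/
noncomputable def task : O → Set (C × O × Bool) × Bool := exists_task.choose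

/-- `true` for node stages, `false` for branch stages -/
noncomputable def kind (x : O) : Bool := (task x).2

/-- the possible members of the path coded at `x` -/
def Dm (x : O) : Set O := {κ | ∃ a i, (a, κ, i) ∈ (task x).1}

/-- `p` knows that `(κ, i)` lies on the path coded at `x` -/
def K (p : C) (x κ : O) (i : Bool) : Prop :=
  κ < x ∧ ∃ a, (a, κ, i) ∈ (task x).1 ∧ Sup x a ∧ p ≤ a

theorem K.lt {p : C} {x κ : O} {i : Bool} (h : K p x κ i) : κ < x := h.1

theorem K.mem {p : C} {x κ : O} {i : Bool} (h : K p x κ i) : κ ∈ Dm x := by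
  obtain ⟨-, a, h1, -⟩ := h
  exact ⟨a, i, h1⟩

theorem K.mono {p q : C} {x κ : O} {i : Bool} (h : K p x κ i) (hq : q ≤ p) : K q x κ i := by
  obtain ⟨h0, a, h1, h2, h3⟩ := h
  exact ⟨h0, a, h1, h2, hq.trans h3⟩

theorem K.restr {p : C} {x κ α : O} {i : Bool} (h : K p x κ i) (hα : x ≤ α) :
    K (p.restr α) x κ i := by
  obtain ⟨h0, a, h1, h2, h3⟩ := h
  exact ⟨h0, a, h1, h2, restr_le_of_sup h3 (h2.mono hα)⟩

/-- active node -/
def ActN (p : C) (x : O) : Prop := kind x = true ∧ p.f x ≠ none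

/-- active branch -/
def ActB (p : C) (x : O) : Prop := kind x = false ∧ p.f x ≠ none

theorem ActN.mono {p q : C} {x : O} (h : ActN p x) (hq : q ≤ p) : ActN q x :=
  ⟨h.1, C.ne_none hq h.2⟩

theorem ActB.mono {p q : C} {x : O} (h : ActB p x) (hq : q ≤ p) : ActB q x :=
  ⟨h.1, C.ne_none hq h.2⟩

theorem ActN.restr {p : C} {x α : O} (h : ActN p x) (hα : x < α) : ActN (p.restr α) x :=
  ⟨h.1, by rw [restr_f_of_lt hα]; exact h.2⟩

theorem ActB.restr {p : C} {x α : O} (h : ActB p x) (hα : x < α) : ActB (p.restr α) x :=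
  ⟨h.1, by rw [restr_f_of_lt hα]; exact h.2⟩

/-- the path of a point or cone -/
def KP (p : C) : Pt → O → Bool → Prop
  | .nat _, _, _ => False
  | .br j, κ, i => K p j κ i
  | .cone x b, κ, i => K p x κ i ∨ (κ = x ∧ i = b)

theorem KP.mono {p q : C} {z : Pt} {κ : O} {i : Bool} (h : KP p z κ i) (hq : q ≤ p) :
    KP q z κ i := by
  cases z with
  | nat n => exact h
  | br j => exact K.mono h hq
  | cone x b => exact h.imp (fun h => K.mono h hq) id

/-- the generator comes before the stage `x` -/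
def GLt : Gn → O → Prop
  | .inl _, _ => True
  | .inr z, x => z < x

theorem GLt.trans {g : Gn} {x α : O} (h : GLt g x) (hα : x ≤ α) : GLt g α := by
  cases g with
  | inl n => trivial
  | inr z => exact lt_of_lt_of_le h hα

/-- `p` knows on which side of a generator the point or cone `z` lies -/
inductive Sd (p : C) (z : Pt) : Gn → Bool → Prop
  | natT (n : ℕ) : z = .nat n → Sd p z (.inl n) true
  | natF (n : ℕ) : z ≠ .nat n → Sd p z (.inl n) false
  | on (x : O) (s : Bool) : KP p z x s → Sd p z (.inr x) s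
  | fe (x : O) (y : Y) (l : List Ent) (e : Ent) : p.f x = some y → l ++ [e] <+: y.1 →
      GLt e.1.1 x → (∀ d ∈ l, GLt d.1.1 x) → Sd p z e.1.1 e.1.2 →
      (∀ d ∈ l, Sd p z d.1.1 (!d.1.2)) → Sd p z (.inr x) e.2

theorem Sd.mono {p q : C} {z : Pt} {g : Gn} {s : Bool} (h : Sd p z g s) (hq : q ≤ p) :
    Sd q z g s := by
  induction h with
  | natT n h => exact .natT n h
  | natF n h => exact .natF n h
  | on x s h => exact .on x s (h.mono hq)
  | fe x y l e h1 h2 h3 h4 _ _ ih1 ih2 =>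
    obtain ⟨y', g1, g2⟩ := hq x y h1
    exact .fe x y' l e g1 (h2.trans g2.1) h3 h4 ih1 ih2

theorem Sd.restr {p : C} {x α : O} {b : Bool} {g : Gn} {s : Bool} (h : Sd p (.cone x b) g s)
    (hx : x ≤ α) (hg : GLt g α) : Sd (p.restr α) (.cone x b) g s := by
  induction h with
  | natT n h => exact .natT n h
  | natF n h => exact .natF n h
  | on x' s h => exact .on x' s (h.imp (fun h => K.restr h hx) id)
  | fe x' y l e h1 h2 h3 h4 _ _ ih1 ih2 =>
    have hlt : x' < α := hg
    exact .fe x' y l e (by rwa [restr_f_of_lt hlt]) h2 h3 h4 (ih1 (h3.trans hlt.le))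
      fun d hd => ih2 d hd ((h4 d hd).trans hlt.le)

/-- the paths coded at `x` and `x'` split -/
def Split (p : C) (x x' : O) : Prop := ∃ μ m, K p x μ m ∧ K p x' μ (!m)

theorem Split.mono {p q : C} {x x' : O} (h : Split p x x') (hq : q ≤ p) : Split q x x' := by
  obtain ⟨μ, m, h1, h2⟩ := h
  exact ⟨μ, m, h1.mono hq, h2.mono hq⟩

theorem Split.restr {p : C} {x x' α : O} (h : Split p x x') (hx : x ≤ α) (hx' : x' ≤ α) :
    Split (p.restr α) x x' := by
  obtain ⟨μ, m, h1, h2⟩ := h
  exact ⟨μ, m, h1.restr hx, h2.restr hx'⟩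

end Pool.Agent.P.MP_63de32_gt
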