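import Pool.Agent.P.MP_63de32_gt.Tree

set_option autoImplicit false

/-! The strong amalgamation lemma. -/

open Pool.Agent.Lib.PosetForcing

namespace Pool.Agent.P.MP_63de32_gt

/-- the list at a stage -/
def lst (p : C) (x : O) : List Ent := ((p.f x).map Prod.fst).getD []

/-- the coloured points at a stage -/
def col (p : C) (x : O) : Finset Col := ((p.f x).map Prod.snd).getD ∅

theorem lst_some {p : C} {x : O} {y : Y} (h : p.f x = some y) : lst p x = y.1 := by simp [lst, h]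

theorem col_some {p : C} {x : O} {y : Y} (h : p.f x = some y) : col p x = y.2 := by simp [col, h]

theorem lst_none {p : C} {x : O} (h : p.f x = none) : lst p x = [] := by simp [lst, h]

theorem col_none {p : C} {x : O} (h : p.f x = none) : col p x = ∅ := by simp [col, h]

theorem mem_lst {p : C} {x : O} {e : Ent} (h : e ∈ lst p x) : ∃ y, p.f x = some y ∧ e ∈ y.1 := by
  rcases hy : p.f x with _ | y
  · simp [lst_none hy] at h
  · exact ⟨y, rfl, lst_some hy ▸ h⟩

theorem mem_col {p : C} {x : O} {c : Col} (h : c ∈ col p x) : ∃ y, p.f x = some y ∧ c ∈ y.2 := by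
  rcases hy : p.f x with _ | y
  · simp [col_none hy] at h
  · exact ⟨y, rfl, col_some hy ▸ h⟩

theorem col_mono {p q : C} (h : q ≤ p) {x : O} {c : Col} (hc : c ∈ col p x) : c ∈ col q x := by
  obtain ⟨y, h1, h2⟩ := mem_col hc
  obtain ⟨y', h3, h4⟩ := h x y h1
  exact col_some h3 ▸ h4.2 h2

/-- `z` is known to lie outside all entries of the list -/
def Pass (p : C) (z : Pt) (l : List Ent) : Prop := ∀ d ∈ l, Sd p z d.1.1 (!d.1.2)

theorem Pass.mono {p q : C} {z : Pt} {l : List Ent} (h : Pass p z l) (hq : q ≤ p) : Pass q z l :=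
  fun d hd => (h d hd).mono hq

theorem fc_pass {p : PP} {z : Pt} {l : List Ent}
    (h : ∀ d ∈ l, Fc p fun r => Sd r z d.1.1 (!d.1.2)) : Fc p fun r => Pass r z l := fun _ hr =>
  fin_dn (S := {d | d ∈ l}) (List.finite_toSet l) (Φ := fun d s => Sd s.1 z d.1.1 (!d.1.2))
    (fun _ _ _ hs g => g.mono hs) fun d hd s hs => h d hd s (hs.trans hr)

/-- the points of `Λ` and the number `n0` get the prescribed sides at `h` unless caught by `l` -/
def Placed (Λ : Finset (O × Bool)) (val : O × Bool → Bool) (n0 : ℕ) (vn : Bool) (l : List Ent)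
    (h : O) (r : PP) : Prop :=
  (∀ s ≤ r, Pass s.1 (.nat n0) l → Sd s.1 (.nat n0) (.inr h) vn) ∧
    ∀ a ∈ Λ, ∀ s ≤ r, K s.1 h a.1 a.2 → Pass s.1 (.cone a.1 (!a.2)) l →
      ∃ t ≤ s, Sd t.1 (.cone a.1 (!a.2)) (.inr h) (val a)

theorem Placed.mono {Λ : Finset (O × Bool)} {val : O × Bool → Bool} {n0 : ℕ} {vn : Bool}
    {l : List Ent} {h : O} {r r' : PP} (g : Placed Λ val n0 vn l h r) (hr : r' ≤ r) :
    Placed Λ val n0 vn l h r' :=
  ⟨fun s hs => g.1 s (hs.trans hr), fun a ha s hs => g.2 a ha s (hs.trans hr)⟩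

theorem ind_max {motive : Finset (O × Bool) → Prop} (s : Finset (O × Bool)) (empty : motive ∅)
    (cons : ∀ a s (h : a ∉ s), (∀ x ∈ s, x.1 ≤ a.1) → motive s → motive (Finset.cons a s h)) :
    motive s := by
  classical
  refine Finset.induction_on_max_value (f := Prod.fst) s empty fun a s h1 h2 h3 => ?_
  rw [← Finset.cons_eq_insert a s h1]
  exact cons a s h1 h2 h3

theorem place (Λ : Finset (O × Bool)) (val : O × Bool → Bool) (n0 : ℕ) (vn : Bool) (l : List Ent)
    (h : O) (r : PP) (hr : Sup h r.1) (hk : kind h = true) (ho : POk h r (l, ∅)) :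
    ∃ r' ≤ r, (∀ γ, r'.1.f γ ≠ none → γ ≤ h) ∧ (∃ y, r'.1.f h = some y ∧ l <+: y.1) ∧
      Placed Λ val n0 vn l h r' := by
  classical
  have key : ∃ r' ≤ r, (∀ γ, r'.1.f γ ≠ none → γ ≤ h) ∧ ∃ ex : List Ent,
      r'.1.f h = some (l ++ [((.inl n0, true), vn)] ++ ex, ∅) ∧
      (∀ d ∈ ex, ∃ a ∈ Λ, d.1 = (.inr a.1, !a.2) ∧ K r'.1 h a.1 a.2) ∧
      ∀ a ∈ Λ, ∀ s ≤ r', K s.1 h a.1 a.2 → Pass s.1 (.cone a.1 (!a.2)) l →
        ∃ t ≤ s, Sd t.1 (.cone a.1 (!a.2)) (.inr h) (val a) := by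
    induction Λ using ind_max with
    | empty =>
      obtain ⟨r1, h1, h2, h3⟩ := r.update h (l, ∅) (fun y hy => by simp [hr.none le_rfl] at hy) ho
      obtain ⟨r2, g1, g2, g3⟩ := r1.append h2 hk ((.inl n0, true), vn) (fun _ _ => rfl)
        (fun z hz => by simp at hz)
      refine ⟨r2, g1.trans h1, fun γ hγ => ?_, [], by simpa using g2, by simp, by simp⟩
      by_cases e : γ = h
      · exact e.le
      · rw [g3 γ e, h3 γ e] at hγ
        exact (hr γ hγ).le
    | cons a Λ ha hmax ih =>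
      obtain ⟨r1, h1, h2, ex, h3, h4, h5⟩ := ih
      by_cases hK : ∃ s ≤ r1, K s.1 h a.1 a.2
      · obtain ⟨s, hs, hK⟩ := hK
        obtain ⟨r2, g1, g2, g3, g4⟩ := amalg r1 (s.restr h) h (s.sup_restr h)
          (PP.restr_mono hs h)
        have hK2 : K r2.1 h a.1 a.2 := (hK.restr le_rfl).mono g1
        have h3' := (g4 h le_rfl).trans h3
        obtain ⟨r3, k1, k2, k3⟩ := r2.append h3' hk ((.inr a.1, !a.2), val a)
          (fun _ hn => by simp at hn) (fun z hz => by
            obtain rfl : a.1 = z := by simpa using hz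
            simpa using fc_K hK2)
        refine ⟨r3, k1.trans (g2.trans h1), fun γ hγ => ?_, ex ++ [((.inr a.1, !a.2), val a)],
          by simpa using k2, fun d hd => ?_, fun a' ha' => ?_⟩
        · by_contra hlt
          rw [k3 γ (fun e => hlt e.le), g4 γ (not_le.1 hlt).le] at hγ
          exact hlt (h2 γ hγ)
        · rcases List.mem_append.1 hd with hd | hd
          · obtain ⟨a', b1, b2, b3⟩ := h4 d hd
            exact ⟨a', Finset.mem_cons_of_mem b1, b2, b3.mono (k1.trans g2)⟩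
          · obtain rfl : d = ((.inr a.1, !a.2), val a) := by simpa using hd
            exact ⟨a, Finset.mem_cons_self _ _, rfl, hK2.mono k1⟩
        · rcases Finset.mem_cons.1 ha' with rfl | ha'
          · intro t ht hKt hP
            have hpath := ho.proper.path
            have lt := ht.trans (k1.trans g2)
            obtain ⟨u, hu, hP'⟩ := fc_pass (p := t) (z := .cone a'.1 (!a'.2)) (l := ex) (by
              intro d hd v hv
              obtain ⟨a'', b1, b2, b3⟩ := h4 d hd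
              have b4 := b3.mono (hv.trans lt)
              rcases (hmax a'' b1).lt_or_eq with hl | hl
              · obtain ⟨w, hw, b5⟩ := hpath.lin v (hv.trans (lt.trans h1)) _ _ _ _ hl
                  (hKt.mono hv) b4
                refine ⟨w, hw, ?_⟩
                rw [b2]
                exact .on _ _ (Or.inl (by simpa using b5))
              · have := hpath.eq (hv.trans (lt.trans h1)) (hl ▸ b4) (hKt.mono hv)
                exact absurd (Prod.ext hl this ▸ b1) ha) t le_rfl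
            obtain ⟨y, c1, c2⟩ := (hu.trans ht) h _ k2
            refine ⟨u, hu, u.sd_fe (e := ((.inr a'.1, !a'.2), val a')) c1 c2.1
              (.on _ _ (Or.inr ⟨rfl, rfl⟩)) fun d hd => ?_⟩
            rcases List.mem_append.1 hd with hd | hd
            · rcases List.mem_append.1 hd with hd | hd
              · exact (hP d hd).mono hu
              · obtain rfl : d = ((.inl n0, true), vn) := by simpa using hd
                exact .natF _ (by simp)
            · exact hP' d hd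
          · exact fun t ht => h5 a' ha' t (ht.trans (k1.trans g2))
      · refine ⟨r1, h1, h2, ex, h3, fun d hd => ?_, fun a' ha' => ?_⟩
        · obtain ⟨a', b1, b2⟩ := h4 d hd
          exact ⟨a', Finset.mem_cons_of_mem b1, b2⟩
        · rcases Finset.mem_cons.1 ha' with rfl | ha'
          · exact fun t ht hKt => absurd ⟨t, ht, hKt⟩ hK
          · exact h5 a' ha'
  obtain ⟨r', h1, h2, ex, h3, -, h5⟩ := key
  refine ⟨r', h1, h2, ⟨_, h3, by simp⟩, fun s hs hP => ?_, h5⟩
  obtain ⟨y, c1, c2⟩ := hs h _ h3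
  exact s.sd_fe (e := ((.inl n0, true), vn)) c1 ((List.prefix_append _ _).trans c2.1)
    (.natT _ rfl) hP

/-- two conditions giving the same values to all entries of a list -/
theorem common_value {z : Pt} {h : O} {p q : PP} (l : List Ent)
    (hp : l ≠ [] → ∃ y, p.1.f h = some y ∧ l <+: y.1)
    (hq : l ≠ [] → ∃ y, q.1.f h = some y ∧ l <+: y.1)
    (hv : ∀ d ∈ l, ∃ v, (Fc p fun r => Sd r z d.1.1 v) ∧ Fc q fun r => Sd r z d.1.1 v) :
    ((Fc p fun r => Pass r z l) ∧ Fc q fun r => Pass r z l) ∨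
      ∃ s, (Fc p fun r => Sd r z (.inr h) s) ∧ Fc q fun r => Sd r z (.inr h) s := by
  induction l using List.reverseRecOn with
  | nil => exact Or.inl ⟨fc_pass (by simp), fc_pass (by simp)⟩
  | append_singleton l e ih =>
    obtain ⟨y, a1, a2⟩ := hp (by simp)
    obtain ⟨y', b1, b2⟩ := hq (by simp)
    rcases ih (fun _ => ⟨y, a1, (List.prefix_append _ _).trans a2⟩)
      (fun _ => ⟨y', b1, (List.prefix_append _ _).trans b2⟩) (fun d hd => hv d (by simp [hd]))
      with ⟨h1, h2⟩ | h1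
    · obtain ⟨v, v1, v2⟩ := hv e (by simp)
      by_cases hve : v = e.1.2
      · have fire : ∀ {p : PP} {y : Y}, p.1.f h = some y → l ++ [e] <+: y.1 →
            (Fc p fun r => Pass r z l) → (Fc p fun r => Sd r z e.1.1 v) →
            Fc p fun r => Sd r z (.inr h) e.2 := by
          intro p y a1 a2 h1 v1 r hr
          obtain ⟨s, hs, g1⟩ := h1 r hr
          obtain ⟨t, ht, g2⟩ := v1 s (hs.trans hr)
          obtain ⟨y', c1, c2⟩ := (ht.trans (hs.trans hr)) h y a1
          exact ⟨t, ht.trans hs, t.sd_fe c1 (a2.trans c2.1) (hve ▸ g2) (g1.mono ht)⟩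
        exact Or.inr ⟨e.2, fire a1 a2 h1 v1, fire b1 b2 h2 v2⟩
      · obtain rfl : v = !e.1.2 := by cases v <;> cases h : e.1.2 <;> simp_all
        have pass : ∀ {p : PP}, (Fc p fun r => Pass r z l) →
            (Fc p fun r => Sd r z e.1.1 (!e.1.2)) → Fc p fun r => Pass r z (l ++ [e]) := by
          intro p h1 v1 r hr
          obtain ⟨s, hs, g1⟩ := h1 r hr
          obtain ⟨t, ht, g2⟩ := v1 s (hs.trans hr)
          refine ⟨t, ht.trans hs, fun d hd => ?_⟩
          rcases List.mem_append.1 hd with hd | hd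
          · exact (g1 d hd).mono ht
          · obtain rfl : d = e := by simpa using hd
            exact g2
        exact Or.inl ⟨pass h1 v1, pass h2 v2⟩
    · exact Or.inr h1

/-- closure under possible predecessors -/
def DClosed (N : Set O) : Prop := ∀ x ∈ N, (Dm x).Countable → Dm x ⊆ N

theorem IsPath.low_lt {N : Set O} (hN : DClosed N) {F : PP → O → Bool → Prop} {p r : PP}
    (h : IsPath F p) (hr : r ≤ p) {a b : O} {i j : Bool} (ha : a ∈ N) (hb : b ∉ N) (h1 : F r a i)
    (h2 : F r b j) : a < b := by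
  rcases lt_trichotomy a b with hl | rfl | hl
  · exact hl
  · exact absurd ha hb
  · obtain ⟨s, -, g⟩ := h.lin r hr a i b j hl h1 h2
    exact absurd (hN a ha (h.cnt hr h1) g.mem) hb

theorem IsPath.fc_both {F : PP → O → Bool → Prop} {p : PP} (h : IsPath F p) {a b : O} {i j : Bool}
    (h1 : Dn (fun r => F r a i) p) (h2 : Dn (fun r => F r b j) p) {r : PP} (hr : r ≤ p) :
    ∃ s ≤ r, F s a i ∧ F s b j := by
  obtain ⟨s, hs, g1⟩ := h1 r hr
  obtain ⟨t, ht, g2⟩ := h2 s (hs.trans hr)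
  exact ⟨t, ht.trans hs, h.mono _ _ _ _ ht g1, g2⟩

theorem IsPath.fc_lin {F : PP → O → Bool → Prop} {p : PP} (h : IsPath F p) {a b : O} {i j : Bool}
    (h1 : Dn (fun r => F r a i) p) (h2 : Dn (fun r => F r b j) p) (hl : a < b) :
    Fc p fun r => K r b a i := fun r hr => by
  obtain ⟨s, hs, g1, g2⟩ := h.fc_both h1 h2 hr
  obtain ⟨t, ht, g⟩ := h.lin s (hs.trans hr) b j a i hl g2 g1
  exact ⟨t, ht.trans hs, g⟩

theorem IsPath.fc_down {F : PP → O → Bool → Prop} {p : PP} (h : IsPath F p) {a b : O} {i j : Bool}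
    (h1 : Dn (fun r => F r b j) p) (h2 : Fc p fun r => K r b a i) :
    Dn (fun r => F r a i) p := fun r hr => by
  obtain ⟨s, hs, g1⟩ := h1 r hr
  obtain ⟨t, ht, g2⟩ := h2 s (hs.trans hr)
  obtain ⟨u, hu, g⟩ := h.down t (ht.trans (hs.trans hr)) b j a i (h.mono _ _ _ _ ht g1) g2
  exact ⟨u, hu.trans (ht.trans hs), g⟩

theorem IsPath.fc_act' {F : PP → O → Bool → Prop} {p : PP} (h : IsPath F p) {a : O} {i : Bool}
    (h1 : Dn (fun r => F r a i) p) : Fc p fun r => ActN r a := fun r hr => by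
  obtain ⟨s, hs, g1⟩ := h1 r hr
  obtain ⟨t, ht, g⟩ := h.act s (hs.trans hr) a i g1
  exact ⟨t, ht.trans hs, g⟩

theorem IsPath.fc_low_lt {N : Set O} (hN : DClosed N) {F : PP → O → Bool → Prop} {p : PP}
    (h : IsPath F p) {a b : O} {i j : Bool} (ha : a ∈ N) (hb : b ∉ N)
    (h1 : Dn (fun r => F r a i) p) (h2 : Dn (fun r => F r b j) p) : a < b := by
  obtain ⟨s, hs, g1, g2⟩ := h.fc_both h1 h2 le_rfl
  exact h.low_lt hN hs ha hb g1 g2

theorem le_restr_of_gap {r p : PP} {a b : O} (h : r ≤ p.restr a)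
    (hg : ∀ γ, a ≤ γ → γ < b → p.1.f γ = none) : r ≤ p.restr b := fun γ y hy => by
  obtain ⟨h1, h2⟩ := restr_f_some hy
  rcases lt_or_ge γ a with h3 | h3
  · exact h γ y ((restr_f_of_lt h3).trans h2)
  · simp [hg γ h3 h1] at h2

theorem le_restr_succ {r r' p : PP} {m : O} (h : r ≤ p.restr m) (h' : r' ≤ r)
    (hm : ∀ y, p.1.f m = some y → ∃ y', r'.1.f m = some y' ∧ YLe y' y) :
    r' ≤ p.restr (Order.succ m) := fun γ y hy => by
  obtain ⟨h1, h2⟩ := restr_f_some hy
  rcases (Order.lt_succ_iff.1 h1).lt_or_eq with h3 | rfl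
  · exact (h'.trans h) γ y ((restr_f_of_lt h3).trans h2)
  · exact hm y h2

theorem sal {N : Set O} (hN : DClosed N) {pa pb pc : PP} (hca : pc ≤ pa) (hcb : pc ≤ pb) (θ : O)
    (H : Finset O) (Λ : Finset (O × Bool)) (val : O × Bool → O → Bool) (n0 : ℕ) (vn : O → Bool)
    (hbN : ∀ γ, pb.1.f γ ≠ none → γ ∈ N) (hbc : ∀ j, ∀ c ∈ col pb.1 j, c.1 ∈ N)
    (hlow : ∀ j, pb.1.f j ≠ none → ∀ c ∈ col pa.1 j, c.1 ∈ N → c ∈ col pb.1 j)
    (hH : ∀ h ∈ H, h ∉ N ∧ Fc pa fun r => ActN r h)
    (hHe : ∀ h ∈ H, ∀ e ∈ lst pa.1 h, ∀ z, e.1.1 = .inr z → z ∉ N → z ∈ H)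
    (hHc : ∀ j, ∀ c ∈ col pa.1 j, c.1 ∉ N → c.1 ∈ H)
    (hΛ : ∀ j, pa.1.f j ≠ none → ∀ c ∈ col pb.1 j, (c.1, c.2.1) ∈ Λ)
    (hval : ∀ j, pa.1.f j ≠ none → ∀ c ∈ col pb.1 j, ∀ h ∈ H, ∀ s, (Fc pa fun r => K r j h s) →
      Fc pc fun r => Sd r (.cone c.1 (!c.2.1)) (.inr h) (val (c.1, c.2.1) h))
    (hdec : ∀ j, pa.1.f j ≠ none → ∀ c ∈ col pb.1 j, ∀ h ∈ H, ∀ s, (Fc pa fun r => K r j h s) →
      ∀ e ∈ lst pa.1 h, ∀ z, e.1.1 = .inr z → z ∈ N →
        ∃ b, Fc pb fun r => Sd r (.cone c.1 (!c.2.1)) (.inr z) b) :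
    ∃ r : PP, r ≤ pa ∧ r ≤ pb ∧ r ≤ pc.restr θ ∧
      ∀ h ∈ H, θ ≤ h → Placed Λ (fun a => val a h) n0 (vn h) (lst pa.1 h) h r := by
  classical
  have main : ∀ ι, θ ≤ ι → ∃ r : PP, Sup ι r.1 ∧ r ≤ pa.restr ι ∧ r ≤ pb.restr ι ∧
      r ≤ pc.restr θ ∧ ∀ h ∈ H, θ ≤ h → h < ι →
        Placed Λ (fun a => val a h) n0 (vn h) (lst pa.1 h) h r := by
    intro ι
    induction ι using WellFoundedLT.induction with
    | ind ι ih =>
    intro hι
    let T : Finset O := (pa.1.fin.toFinset ∪ pb.1.fin.toFinset ∪ H).filter fun γ => θ ≤ γ ∧ γ < ι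
    have hT : ∀ γ, θ ≤ γ → γ < ι → (pa.1.f γ ≠ none ∨ pb.1.f γ ≠ none ∨ γ ∈ H) → γ ∈ T := by
      intro γ h1 h2 h3
      simp only [T, Finset.mem_filter, Finset.mem_union, Set.Finite.mem_toFinset, Set.mem_ofPred_eq]
      tauto
    rcases T.eq_empty_or_nonempty with hTe | hTe
    · refine ⟨pc.restr θ, (pc.sup_restr θ).mono hι,
        le_restr_of_gap (PP.restr_mono hca θ) fun γ h1 h2 => ?_,
        le_restr_of_gap (PP.restr_mono hcb θ) fun γ h1 h2 => ?_, le_rfl, fun h hh h1 h2 => ?_⟩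
      · by_contra h3; simpa [hTe] using hT γ h1 h2 (Or.inl h3)
      · by_contra h3; simpa [hTe] using hT γ h1 h2 (Or.inr (Or.inl h3))
      · exact absurd (hT h h1 h2 (Or.inr (Or.inr hh))) (by simp [hTe])
    obtain ⟨m, hmT, hmax⟩ := T.exists_max_image id hTe
    have hm := Finset.mem_filter.1 hmT
    obtain ⟨r, r1, r2, r3, r4, r5⟩ := ih m hm.2.2 hm.2.1
    suffices step : ∃ r' ≤ r, (∀ γ, r'.1.f γ ≠ none → γ ≤ m) ∧
        (∀ y, pa.1.f m = some y → ∃ y', r'.1.f m = some y' ∧ YLe y' y) ∧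
        (∀ y, pb.1.f m = some y → ∃ y', r'.1.f m = some y' ∧ YLe y' y) ∧
        (m ∈ H → Placed Λ (fun a => val a m) n0 (vn m) (lst pa.1 m) m r') by
      obtain ⟨r', s1, s2, s3, s4, s5⟩ := step
      refine ⟨r', fun γ hγ => (s2 γ hγ).trans_lt hm.2.2,
        le_restr_of_gap (le_restr_succ r2 s1 s3) fun γ h1 h2 => ?_,
        le_restr_of_gap (le_restr_succ r3 s1 s4) fun γ h1 h2 => ?_, s1.trans r4,
        fun h hh h1 h2 => ?_⟩
      · by_contra h3
        have h4 := Order.succ_le_iff.1 h1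
        exact absurd (hmax γ (hT γ (hm.2.1.trans h4.le) h2 (Or.inl h3))) (not_le.2 h4)
      · by_contra h3
        have h4 := Order.succ_le_iff.1 h1
        exact absurd (hmax γ (hT γ (hm.2.1.trans h4.le) h2 (Or.inr (Or.inl h3)))) (not_le.2 h4)
      · rcases (hmax h (hT h h1 h2 (Or.inr (Or.inr hh)))).lt_or_eq with h3 | h3
        · exact (r5 h hh h1 h3).mono s1
        · obtain rfl : h = m := h3
          exact s5 hh
    by_cases hmH : m ∈ H
    · obtain ⟨g1, g2⟩ := hH m hmH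
      have ho : POk m r (lst pa.1 m, ∅) := by
        rcases hy : pa.1.f m with _ | y
        · rw [lst_none hy]
          exact ⟨g2.proper.restr.le r2, fun _ => rfl, fun _ => rfl, by simp, by simp, by simp,
            by simp⟩
        · rw [lst_some hy, ← (pa.ok hy).nocol g2.kind]
          exact (pa.ok hy).restr.le r2
      obtain ⟨r', s1, s2, ⟨y', s3, s4⟩, s5⟩ := place Λ (fun a => val a m) n0 (vn m) _ m r r1
        g2.kind ho
      refine ⟨r', s1, s2, fun y hy => ⟨y', s3, lst_some hy ▸ s4, ?_⟩, fun y hy => ?_, fun _ => s5⟩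
      · rw [(pa.ok hy).nocol g2.kind]; exact Finset.empty_subset _
      · exact absurd (hbN m (by simp [hy])) g1
    suffices st : ∃ y', POk m r y' ∧ (∀ y, pa.1.f m = some y → YLe y' y) ∧
        ∀ y, pb.1.f m = some y → YLe y' y by
      obtain ⟨y', t1, t2, t3⟩ := st
      obtain ⟨r', s1, s2, s3⟩ := r.update m y' (fun y hy => by simp [r1.none le_rfl] at hy) t1
      refine ⟨r', s1, fun γ hγ => ?_, fun y hy => ⟨y', s2, t2 y hy⟩,
        fun y hy => ⟨y', s2, t3 y hy⟩, fun h => absurd h hmH⟩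
      by_cases e : γ = m
      · exact e.le
      · rw [s3 γ e] at hγ
        exact (r1 γ hγ).le
    rcases hya : pa.1.f m with _ | ya
    · rcases hyb : pb.1.f m with _ | yb
      · have := hm.1
        simp [hya, hyb, hmH] at this
      · exact ⟨yb, (pb.ok hyb).restr.le r3, by simp, fun y hy => Option.some.inj hy ▸ YLe.refl _⟩
    rcases hyb : pb.1.f m with _ | yb
    · exact ⟨ya, (pa.ok hya).restr.le r2, fun y hy => Option.some.inj hy ▸ YLe.refl _, by simp⟩
    have oa := (pa.ok hya).restr.le r2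
    have ob := (pb.ok hyb).restr.le r3
    obtain ⟨yc, hyc, c1⟩ := hca m ya hya
    obtain ⟨yc', hyc', c2⟩ := hcb m yb hyb
    obtain rfl : yc = yc' := Option.some.inj (hyc.symm.trans hyc')
    rcases hk : kind m with _ | _
    swap
    · rcases List.prefix_or_prefix_of_prefix c1.1 c2.1 with h | h
      · exact ⟨yb, ob, fun y hy => Option.some.inj hy ▸ ⟨h, by simp [oa.nocol hk]⟩,
          fun y hy => Option.some.inj hy ▸ YLe.refl _⟩
      · exact ⟨ya, oa, fun y hy => Option.some.inj hy ▸ YLe.refl _,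
          fun y hy => Option.some.inj hy ▸ ⟨h, by simp [ob.nocol hk]⟩⟩
    have hpath := oa.proper.path
    have hma : pa.1.f m ≠ none := by simp [hya]
    have hmb : pb.1.f m ≠ none := by simp [hyb]
    have mimic : ∀ c ∈ yb.2, ∀ h, h ∈ H → ∀ s, (Fc pa fun r => K r m h s) →
        Fc r fun r => Sd r (.cone c.1 (!c.2.1)) (.inr h) (val (c.1, c.2.1) h) := by
      intro c hc h
      have hc' : c ∈ col pb.1 m := col_some hyb ▸ hc
      induction h using WellFoundedLT.induction with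
      | ind h ih2 =>
      intro hh s hs
      have hsr : Fc r fun r => K r m h s := (hs.restr (loc_K le_rfl _ _)).mono r2
      have hlt : c.1 < h := hpath.fc_low_lt hN (hbc m c hc') (hH h hh).1 (ob.col c hc) hsr
      have hhm := hs.K_lt
      rcases lt_or_ge h θ with hθ | hθ
      · exact ((hval m hma c hc' h hh s hs).restr
          (loc_sd (g := .inr h) (hlt.trans hθ).le hθ)).mono r4
      have hl : ∀ q : PP, q ≤ pa.restr m → lst pa.1 h ≠ [] →
          ∃ y, q.1.f h = some y ∧ lst pa.1 h <+: y.1 := by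
        intro q hq hne
        rcases hy : pa.1.f h with _ | y
        · exact absurd (lst_none hy) hne
        · obtain ⟨y', g1, g2⟩ := hq h y ((restr_f_of_lt hhm).trans hy)
          exact ⟨y', g1, lst_some hy ▸ g2.1⟩
      rcases common_value (z := .cone c.1 (!c.2.1)) (h := h) (p := r) (q := pc) (lst pa.1 h)
        (hl r r2) (hl pc (hca.trans (pa.le_restr m))) (by
          intro d hd
          rcases hg : d.1.1 with n | z
          · exact ⟨false, fc_sd (.natF n (by simp)), fc_sd (.natF n (by simp))⟩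
          obtain ⟨y, hy, hd'⟩ := mem_lst hd
          have hz := (pa.ok hy).entO d hd' z hg
          by_cases hzN : z ∈ N
          · obtain ⟨b, hb⟩ := hdec m hma c hc' h hh s hs d hd z hg hzN
            exact ⟨b, (hb.restr (loc_sd (g := .inr z) (hlt.trans hhm).le
              (hz.K_lt.trans hhm))).mono r3, hb.mono hcb⟩
          · have hzH := hHe h hh d hd z hg hzN
            have hz' := (pa.ok hya).proper.path.fc_down hs hz
            exact ⟨_, ih2 z hz.K_lt hzH _ hz', hval m hma c hc' z hzH _ hz'⟩)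
        with ⟨h1, -⟩ | ⟨v, h1, h2⟩
      · intro q hq
        obtain ⟨q1, hq1, g1⟩ := h1 q hq
        obtain ⟨q2, hq2, g2⟩ := hpath.fc_lin (ob.col c hc) hsr hlt q1 (hq1.trans hq)
        obtain ⟨q3, hq3, g3⟩ := (r5 h hh hθ hhm).2 _ (hΛ m hma c hc') q2
          (hq2.trans (hq1.trans hq)) g2 (g1.mono hq2)
        exact ⟨q3, hq3.trans (hq2.trans hq1), g3⟩
      · have hp : Pth (.cone c.1 (!c.2.1)) pc := pth_cone
          (((pb.ok hyb).proper.path.fc_act' ((pb.ok hyb).col c hc)).mono hcb) _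
        rwa [← hp.fc_eq h2 (hval m hma c hc' h hh s hs)]
    have hcol : ∀ c ∈ ya.2 ∪ yb.2, Fc r fun r => K r m c.1 c.2.1 := fun c hc =>
      (Finset.mem_union.1 hc).elim (oa.col c) (ob.col c)
    have hlo : ∀ c ∈ ya.2 ∪ yb.2, c.1 ∈ N → c ∈ yb.2 := fun c hc h =>
      (Finset.mem_union.1 hc).elim
        (fun hc => col_some hyb ▸ hlow m hmb c (col_some hya ▸ hc) h) id
    have hhi : ∀ c ∈ ya.2 ∪ yb.2, c.1 ∉ N → c ∈ ya.2 := fun c hc h =>
      (Finset.mem_union.1 hc).elim id fun hc => absurd (hbc m c (col_some hyb ▸ hc)) h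
    refine ⟨([], ya.2 ∪ yb.2), ⟨oa.proper, fun h => by simp [hk] at h, fun _ => rfl, by simp,
      by simp, hcol, fun c hc c' hc' h1 h2 => ?_⟩,
      fun y hy => Option.some.inj hy ▸ ⟨by simp [oa.noent hk], Finset.subset_union_left⟩,
      fun y hy => Option.some.inj hy ▸ ⟨by simp [ob.noent hk], Finset.subset_union_right⟩⟩
    by_cases hcN : c.1 ∈ N
    · by_cases hcN' : c'.1 ∈ N
      · exact ob.sep c (hlo c hc hcN) c' (hlo c' hc' hcN') h1 h2
      · have a1 := hlo c hc hcN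
        have a2 := hhi c' hc' hcN'
        have a3 := hHc m c' (col_some hya ▸ a2) hcN'
        have a4 := (pa.ok hya).col c' a2
        have hp : Pth (.cone c.1 (!c.2.1)) pc := pth_cone
          (((pb.ok hyb).proper.path.fc_act' ((pb.ok hyb).col c a1)).mono hcb) _
        rw [hp.fc_eq ((pc.ok hyc).sep c (c2.2 a1) c' (c1.2 a2) h1 h2)
          (hval m hma c (col_some hyb ▸ a1) c'.1 a3 _ a4)]
        exact mimic c a1 c'.1 a3 _ a4
    · by_cases hcN' : c'.1 ∈ N
      · exact absurd (hpath.fc_low_lt hN hcN' hcN (hcol c' hc') (hcol c hc)) (not_lt.2 h1.le)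
      · exact oa.sep c (hhi c hc hcN) c' (hhi c' hc' hcN') h1 h2
  obtain ⟨a, ha⟩ := exists_sup pa.1
  obtain ⟨b, hb⟩ := exists_sup pb.1
  obtain ⟨c, hc⟩ := H.finite_toSet.bddAbove
  obtain ⟨r, -, r2, r3, r4, r5⟩ := main (max (max a b) (max θ (Order.succ c)))
    ((le_max_left _ _).trans (le_max_right _ _))
  have ea : pa.restr (max (max a b) (max θ (Order.succ c))) = pa :=
    Subtype.ext (ha.mono ((le_max_left _ _).trans (le_max_left _ _))).restr_eq
  have eb : pb.restr (max (max a b) (max θ (Order.succ c))) = pb :=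
    Subtype.ext (hb.mono ((le_max_right _ _).trans (le_max_left _ _))).restr_eq
  exact ⟨r, ea ▸ r2, eb ▸ r3, r4, fun h hh h1 => r5 h hh h1
    ((Order.lt_succ_iff.2 (hc hh)).trans_le ((le_max_right _ _).trans (le_max_right _ _)))⟩

end Pool.Agent.P.MP_63de32_gt
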