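import Pool.Agent.P.MP_63de32_gt.Sal

set_option autoImplicit false

/-! User form of the amalgamation lemma, closed sets of stages, reflection. -/

open Pool.Agent.Lib.PosetForcing

namespace Pool.Agent.P.MP_63de32_gt

/-- the stages mentioned in a condition -/
def ment (p : C) : Set O :=
  {γ | p.f γ ≠ none} ∪ {z | ∃ h, ∃ e ∈ lst p h, e.1.1 = .inr z} ∪ {z | ∃ j, ∃ c ∈ col p j, c.1 = z}

theorem ents_finite (p : C) : {e | ∃ h, e ∈ lst p h}.Finite :=
  (p.fin.biUnion fun h _ => List.finite_toSet (lst p h)).subset fun e ⟨h, he⟩ => by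
    obtain ⟨y, hy, -⟩ := mem_lst he
    exact Set.mem_biUnion (show p.f h ≠ none by simp [hy]) he

theorem cols_finite (p : C) : {x : O × Col | x.2 ∈ col p x.1}.Finite :=
  (p.fin.biUnion fun h _ => ((col p h).finite_toSet.image fun c => (h, c))).subset fun x hx => by
    obtain ⟨y, hy, -⟩ := mem_col hx
    exact Set.mem_biUnion (show p.f x.1 ≠ none by simp [hy]) ⟨x.2, hx, rfl⟩

theorem ment_finite (p : C) : (ment p).Finite := by
  refine (p.fin.union ?_).union ?_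
  · refine (((ents_finite p).image fun e => e.1.1).preimage
      (Sum.inr_injective.injOn)).subset ?_
    rintro z ⟨h, e, he, hz⟩
    exact ⟨e, ⟨h, he⟩, hz⟩
  · refine ((cols_finite p).image fun x => x.2.1).subset ?_
    rintro z ⟨j, c, hc, hz⟩
    exact ⟨(j, c), hc, hz⟩

/-- the natural numbers mentioned in a condition -/
def nment (p : C) : Set ℕ := {n | ∃ h, ∃ e ∈ lst p h, e.1.1 = .inl n}

theorem nment_finite (p : C) : (nment p).Finite := by
  refine (((ents_finite p).image fun e => e.1.1).preimage (Sum.inl_injective.injOn)).subset ?_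
  rintro z ⟨h, e, he, hz⟩
  exact ⟨e, ⟨h, he⟩, hz⟩

/-- the side of the coloured cone `c` of the branch `j` at the node `z` is decided -/
def DecAt (q : PP) (j : O) (c : Col) (z : O) : Prop :=
  (z < j ∧ ∃ b, Fc q fun r => Sd r (.cone c.1 (!c.2.1)) (.inr z) b) ∨
    ∀ b, ∀ s ≤ q, ¬ K s.1 j z b

theorem DecAt.mono {q q' : PP} {j : O} {c : Col} {z : O} (h : DecAt q j c z) (hq : q' ≤ q) :
    DecAt q' j c z :=
  h.imp (fun ⟨h1, b, h2⟩ => ⟨h1, b, h2.mono hq⟩) fun h b s hs => h b s (hs.trans hq)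

theorem DecAt.restr {q : PP} {j x : O} {c : Col} {z : O} (h : DecAt q j c z) (hc : c.1 < j)
    (hx : j ≤ x) : DecAt (q.restr x) j c z := by
  rcases h with ⟨h1, b, h2⟩ | h
  · exact Or.inl ⟨h1, b, h2.restr (loc_sd (g := .inr z) (hc.le.trans hx) (h1.trans_le hx))⟩
  · refine Or.inr fun b s hs hK => ?_
    obtain ⟨_, _, h3⟩ := ImpP.restr (p := q) (loc_K hx z b) (Loc.false x)
      (fun r hr g => (h b r hr g).elim) s hs hK
    exact h3

theorem PP.col_fc (q : PP) {j : O} {c : Col} (hc : c ∈ col q.1 j) :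
    Proper j q ∧ Fc q fun r => K r j c.1 c.2.1 := by
  obtain ⟨y, h1, h2⟩ := mem_col hc
  exact ⟨(q.ok h1).proper, (q.ok h1).col c h2⟩

theorem exists_decAt (a : Finset O) (J : Finset O) : ∀ q : PP, ∃ q' ≤ q,
    (∀ γ, (∀ j ∈ J, j ≤ γ) → q'.1.f γ = q.1.f γ) ∧
      ∀ j ∈ J, ∀ c ∈ col q'.1 j, ∀ z ∈ a, DecAt q' j c z := by
  classical
  induction J using Finset.induction_on_max with
  | empty => exact fun q => ⟨q, le_rfl, fun _ _ => rfl, by simp⟩
  | insert m J hm ih =>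
    intro q
    obtain ⟨s, hs, h1⟩ := fin_dn (col q.1 m ×ˢ a : Finset (Col × O)).finite_toSet
      (Φ := fun x s => DecAt s m x.1 x.2) (p := q)
      (fun _ _ _ hs g => g.mono hs) (by
        intro x hx r hr
        obtain ⟨g1, g2⟩ := q.col_fc (Finset.mem_product.1 hx).1
        by_cases h : ∃ b, ∃ s ≤ r, K s.1 m x.2 b
        · obtain ⟨b, s, hs, h⟩ := h
          obtain ⟨t, ht, g3⟩ := g2 s (hs.trans hr)
          obtain ⟨u, hu, v, g4⟩ := cone_total g1.path (ht.trans (hs.trans hr)) g3 (h.mono ht)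
          exact ⟨u, hu.trans (ht.trans hs), Or.inl ⟨h.lt, v, fc_sd g4⟩⟩
        · exact ⟨r, le_rfl, Or.inr fun b s hs g => h ⟨b, s, hs, g⟩⟩)
    obtain ⟨q1, a1, a2, -, a4⟩ := amalg q (s.restr m) m (s.sup_restr m) (PP.restr_mono hs m)
    obtain ⟨q2, b1, b2, b3⟩ := ih q1
    refine ⟨q2, b1.trans a2, fun γ hγ => ?_, fun j hj c hc z hz => ?_⟩
    · rw [b2 γ fun j hj => hγ j (Finset.mem_insert_of_mem hj),
        a4 γ (hγ m (Finset.mem_insert_self _ _))]
    · rcases Finset.mem_insert.1 hj with rfl | hj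
      · have e : col q2.1 j = col q.1 j := by
          unfold col
          rw [b2 j fun j' hj' => le_of_lt (hm j' hj'), a4 j le_rfl]
        rw [e] at hc
        exact ((h1 (c, z) (Finset.mem_product.2 ⟨hc, hz⟩)).restr (q.col_fc hc).2.K_lt
          le_rfl).mono (b1.trans a1)
      · exact b3 j hj c hc z hz

/-- `pb` lives in `N` and fits the part of `pa` in `N` -/
structure Fit (N : Set O) (pa pb : PP) : Prop where
  sub : ment pb.1 ⊆ N
  low : ∀ j ∈ N, ∀ c ∈ col pa.1 j, c.1 ∈ N → c ∈ col pb.1 j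
  dec : ∀ j ∈ N, pa.1.f j ≠ none → ∀ c ∈ col pb.1 j, ∀ z ∈ N, z ∈ ment pa.1 → DecAt pb j c z

theorem sal2 {N : Set O} (hN : DClosed N) {pa pb pc : PP} (hca : pc ≤ pa) (hcb : pc ≤ pb) (θ : O)
    (hf : Fit N pa pb) {x0 : Pt} (hx0 : Pth x0 pa) (S0 : Finset O) (Λ0 : Finset (O × Bool))
    (n0 : ℕ)
    (hnc : Λ0.Nonempty → ∀ j ∈ N, pa.1.f j ≠ none → kind j = false → ∀ h ∉ N, ∀ s s',
      Dn (fun r : PP => KP r.1 x0 h s) pa → (Fc pa fun r => K r j h s') → False) :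
    ∃ r : PP, r ≤ pa ∧ r ≤ pb ∧ r ≤ pc.restr θ ∧ ∀ y : Pt,
      ((y = .nat n0 ∧ n0 ∉ nment pa.1) ∨ ∃ a ∈ Λ0, y = .cone a.1 (!a.2) ∧
        ∀ h s, h ∉ N → θ ≤ h → Dn (fun r : PP => KP r.1 x0 h s) pa →
          Fc r fun r => K r h a.1 a.2) →
      (∀ g s, g ∈ ment pa.1 → (g ∈ N ∨ g < θ) → Dn (fun r : PP => KP r.1 x0 g s) pa →
        Fc r fun r => Sd r y (.inr g) s) →
      ∀ h s, (h ∈ ment pa.1 ∨ h ∈ S0) → h ∉ N → θ ≤ h → Dn (fun r : PP => KP r.1 x0 h s) pa →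
        Fc r fun r => Sd r y (.inr h) s := by
  classical
  let H : Finset O := ((ment_finite pa.1).toFinset ∪ S0).filter
    fun h => h ∉ N ∧ Fc pa fun r => ActN r h
  have hH : ∀ h, h ∈ H ↔ (h ∈ ment pa.1 ∨ h ∈ S0) ∧ h ∉ N ∧ Fc pa fun r => ActN r h := by
    intro h
    simp only [H, Finset.mem_filter, Finset.mem_union, Set.Finite.mem_toFinset]
  let Λ : Finset (O × Bool) := Λ0 ∪ (cols_finite pb.1).toFinset.image fun x => (x.2.1, x.2.2.1)
  obtain ⟨pc', hc', hv⟩ := fin_dn (S := {x : O × Col | x.2 ∈ col pb.1 x.1} ×ˢ (H : Set O))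
    ((cols_finite pb.1).prod H.finite_toSet) (p := pc)
    (Φ := fun x s => (∃ b, Fc pa fun r => K r x.1.1 x.2 b) →
      ∃ v, Sd s.1 (.cone x.1.2.1 (!x.1.2.2.1)) (.inr x.2) v)
    (fun _ _ _ hs g h => (g h).imp fun _ g => g.mono hs) (by
      intro x hx r hr
      by_cases h : ∃ b, Fc pa fun r => K r x.1.1 x.2 b
      · obtain ⟨b, hb⟩ := h
        obtain ⟨g1, g2⟩ := pb.col_fc hx.1
        obtain ⟨s, hs, g3, g4⟩ := (g1.path.le hcb).fc_both (g2.mono hcb) (hb.mono hca) hr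
        obtain ⟨t, ht, g5⟩ := cone_total (g1.path.le hcb) (hs.trans hr) g3 g4
        exact ⟨t, ht.trans hs, fun _ => g5⟩
      · exact ⟨r, le_rfl, fun g => absurd g h⟩)
  let vn : O → Bool := fun h => decide (Dn (fun r : PP => KP r.1 x0 h true) pa)
  have hvn : ∀ h s, Dn (fun r : PP => KP r.1 x0 h s) pa → vn h = s := by
    intro h s hs
    cases s
    · refine decide_eq_false fun g => ?_
      obtain ⟨r, hr, g1, g2⟩ := IsPath.fc_both hx0 g hs le_rfl
      exact hx0.fn r hr h g1 g2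
    · exact decide_eq_true hs
  let val : O × Bool → O → Bool := fun a h =>
    if Λ0.Nonempty ∧ ∃ s, Dn (fun r : PP => KP r.1 x0 h s) pa then vn h
    else decide (Fc pc' fun r => Sd r (.cone a.1 (!a.2)) (.inr h) true)
  have hjN : ∀ j, ∀ c ∈ col pb.1 j, j ∈ N := fun j c hc => by
    obtain ⟨y, hy, -⟩ := mem_col hc
    exact hf.sub (Or.inl (Or.inl (show pb.1.f j ≠ none by simp [hy])))
  obtain ⟨r, r1, r2, r3, r4⟩ := sal hN (hc'.trans hca) (hc'.trans hcb) θ H Λ val n0 vn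
    (fun γ h => hf.sub (Or.inl (Or.inl h))) (fun j c hc => hf.sub (Or.inr ⟨j, c, hc, rfl⟩))
    (fun j hj c hc h => hf.low j (hf.sub (Or.inl (Or.inl hj))) c hc h)
    (fun h hh => ((hH h).1 hh).2)
    (fun h _ e he z hz hzN => by
      obtain ⟨y, hy, he'⟩ := mem_lst he
      exact (hH z).2 ⟨Or.inl (Or.inl (Or.inr ⟨h, e, he, hz⟩)), hzN,
        (pa.ok hy).proper.path.fc_act' ((pa.ok hy).entO e he' z hz)⟩)
    (fun j c hc hcN => (hH _).2 ⟨Or.inl (Or.inr ⟨j, c, hc, rfl⟩), hcN,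
      (pa.col_fc hc).1.path.fc_act' (pa.col_fc hc).2⟩)
    (fun j _ c hc => Finset.mem_union_right _ (Finset.mem_image.2
      ⟨(j, c), (cols_finite pb.1).mem_toFinset.2 hc, rfl⟩))
    (fun j hj c hc h hh s hs => by
      obtain ⟨v, hv⟩ := hv ((j, c), h) ⟨hc, hh⟩ ⟨s, hs⟩
      have hk : kind j = false := by
        obtain ⟨y, hy, hc'⟩ := mem_col hc
        by_contra hk
        rw [(pb.ok hy).nocol (by simpa using hk)] at hc'
        simp at hc'
      have hp : Pth (.cone c.1 (!c.2.1)) pc' := pth_cone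
        (((pb.col_fc hc).1.path.fc_act' (pb.col_fc hc).2).mono (hc'.trans hcb)) _
      have e : val (c.1, c.2.1) h = v := by
        simp only [val]
        rw [if_neg fun g => g.2.elim fun s' g' =>
          hnc g.1 j (hjN j c hc) hj hk h ((hH h).1 hh).2.1 s' s g' hs]
        cases v
        · exact decide_eq_false fun g => by simpa using hp.fc_eq g (fc_sd hv)
        · exact decide_eq_true (fc_sd hv)
      rw [e]
      exact fc_sd hv)
    (fun j hj c hc h hh s hs e he z hz hzN => by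
      rcases hf.dec j (hjN j c hc) hj c hc z hzN (Or.inl (Or.inr ⟨h, e, he, hz⟩)) with g | g
      · exact g.2
      · obtain ⟨y, hy, he'⟩ := mem_lst he
        obtain ⟨t, ht, g'⟩ := (pa.proper hj).path.fc_down hs ((pa.ok hy).entO e he' z hz) pc hca
        exact absurd g' (g _ t (ht.trans hcb)))
  refine ⟨r, r1, r2, r3.trans (PP.restr_mono hc' θ), fun y hy hlow h => ?_⟩
  induction h using WellFoundedLT.induction with
  | ind h ih =>
  intro s h1 h2 h3 h4
  have hh : h ∈ H := (hH h).2 ⟨h1, h2, IsPath.fc_act' hx0 h4⟩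
  have hP : Fc r fun r => Pass r y (lst pa.1 h) := by
    refine fc_pass fun d hd => ?_
    obtain ⟨y', hy', hd'⟩ := mem_lst hd
    rcases hg : d.1.1 with n | z
    · rw [(pa.ok hy').entN d hd' n hg]
      refine fc_sd (.natF n ?_)
      rcases hy with ⟨rfl, hy⟩ | ⟨a, -, rfl, -⟩
      · intro e
        obtain rfl : n0 = n := by simpa using e
        exact hy ⟨h, d, hd, hg⟩
      · simp
    · have g1 := (pa.ok hy').entO d hd' z hg
      have g2 := IsPath.fc_down hx0 h4 g1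
      have g3 : z ∈ ment pa.1 := Or.inl (Or.inr ⟨h, d, hd, hg⟩)
      by_cases hz : z ∈ N ∨ z < θ
      · exact hlow z _ g3 hz g2
      · rw [not_or, not_lt] at hz
        exact ih z g1.K_lt _ (Or.inl g3) hz.1 hz.2 g2
  intro q hq
  obtain ⟨q1, hq1, g1⟩ := hP q hq
  rcases hy with ⟨rfl, -⟩ | ⟨a, ha, rfl, hK⟩
  · exact ⟨q1, hq1, hvn h s h4 ▸ (r4 h hh h3).1 q1 (hq1.trans hq) g1⟩
  · obtain ⟨q2, hq2, g2⟩ := hK h s h2 h3 h4 q1 (hq1.trans hq)
    obtain ⟨q3, hq3, g3⟩ := (r4 h hh h3).2 a (Finset.mem_union_left _ ha) q2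
      (hq2.trans (hq1.trans hq)) g2 (g1.mono hq2)
    refine ⟨q3, hq3.trans (hq2.trans hq1), ?_⟩
    have e : val a h = s := by
      simp only [val]
      rw [if_pos ⟨⟨a, ha⟩, s, h4⟩, hvn h s h4]
    exact e ▸ g3

/-- closure under a finitary operation -/
def Cl (F : Finset O → Set O) (N : Set O) : Prop := ∀ a : Finset O, ↑a ⊆ N → F a ⊆ N

/-- the property holds for all sets closed under some countably valued finitary operation -/
def Club (Q : Set O → Prop) : Prop :=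
  ∃ F : Finset O → Set O, (∀ a, (F a).Countable) ∧ ∀ N, Cl F N → Q N

theorem Club.and {Q Q' : Set O → Prop} (h : Club Q) (h' : Club Q') : Club fun N => Q N ∧ Q' N := by
  obtain ⟨F, h1, h2⟩ := h
  obtain ⟨F', g1, g2⟩ := h'
  exact ⟨fun a => F a ∪ F' a, fun a => (h1 a).union (g1 a), fun N hN =>
    ⟨h2 N fun a ha => Set.subset_union_left.trans (hN a ha),
      g2 N fun a ha => Set.subset_union_right.trans (hN a ha)⟩⟩

theorem Club.imp {Q Q' : Set O → Prop} (h : Club Q) (h' : ∀ N, Q N → Q' N) : Club Q' := by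
  obtain ⟨F, h1, h2⟩ := h
  exact ⟨F, h1, fun N hN => h' N (h2 N hN)⟩

theorem countable_finsets {X : Type*} {N : Set X} (hN : N.Countable) :
    {a : Finset X | ↑a ⊆ N}.Countable :=
  Set.countable_of_injective_of_countable_image (f := fun a : Finset X => (a : Set X))
    Finset.coe_injective.injOn ((Set.countable_ofPred_finite_subset hN).mono
      fun _ ⟨a, ha, e⟩ => e ▸ ⟨a.finite_toSet, ha⟩)

theorem finset_subset_iUnion {X ι : Type*} [LinearOrder ι] [Nonempty ι] {N : ι → Set X}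
    (hN : Monotone N) (a : Finset X) (ha : ↑a ⊆ ⋃ k, N k) : ∃ k, ↑a ⊆ N k := by
  classical
  induction a using Finset.induction_on with
  | empty => exact ⟨Classical.arbitrary ι, by simp⟩
  | insert x a _ ih =>
    rw [Finset.coe_insert, Set.insert_subset_iff] at ha
    obtain ⟨k, hk⟩ := ih ha.2
    obtain ⟨l, hl⟩ := Set.mem_iUnion.1 ha.1
    refine ⟨max k l, ?_⟩
    rw [Finset.coe_insert, Set.insert_subset_iff]
    exact ⟨hN (le_max_right k l) hl, hk.trans (hN (le_max_left k l))⟩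

theorem exists_cl {F : Finset O → Set O} (hF : ∀ a, (F a).Countable) {S : Set O}
    (hS : S.Countable) : ∃ N, S ⊆ N ∧ N.Countable ∧ Cl F N := by
  let step : Set O → Set O := fun N => N ∪ ⋃ a ∈ {a : Finset O | ↑a ⊆ N}, F a
  let N : ℕ → Set O := fun k => step^[k] S
  have e : ∀ k, N (k + 1) = step (N k) := fun k => Function.iterate_succ_apply' step k S
  have hc : ∀ k, (N k).Countable := by
    intro k
    induction k with
    | zero => exact hS
    | succ k ih => rw [e]; exact ih.union ((countable_finsets ih).biUnion fun a _ => hF a)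
  have hm : Monotone N := monotone_nat_of_le_succ fun k => by
    rw [e]; exact Set.subset_union_left
  refine ⟨⋃ k, N k, Set.subset_iUnion N 0, Set.countable_iUnion hc, fun a ha => ?_⟩
  obtain ⟨k, hk⟩ := finset_subset_iUnion hm a ha
  refine Set.Subset.trans ?_ (Set.subset_iUnion N (k + 1))
  rw [e]
  exact (Set.subset_biUnion_of_mem (u := F) hk).trans Set.subset_union_right

theorem Club.exists {Q : Set O → Prop} (h : Club Q) {S : Set O} (hS : S.Countable) :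
    ∃ N, S ⊆ N ∧ N.Countable ∧ Q N := by
  obtain ⟨F, h1, h2⟩ := h
  obtain ⟨N, g1, g2, g3⟩ := exists_cl h1 hS
  exact ⟨N, g1, g2, h2 N g3⟩

theorem club_param {Θ : Type*} (mt : Θ → Set O) (hf : ∀ θ, (mt θ).Finite)
    (hc : ∀ N : Set O, N.Countable → {θ | mt θ ⊆ N}.Countable) (out : Θ → Set O)
    (ho : ∀ θ, (out θ).Countable) : Club fun N => ∀ θ, mt θ ⊆ N → out θ ⊆ N :=
  ⟨fun a => ⋃ θ ∈ {θ | mt θ ⊆ ↑a}, out θ,
    fun a => (hc _ a.countable_toSet).biUnion fun θ _ => ho θ, fun N hN θ hθ =>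
      (Set.subset_biUnion_of_mem (u := out) (show θ ∈ {θ' | mt θ' ⊆ ↑(hf θ).toFinset} by simp)).trans
        (hN (hf θ).toFinset (by simpa using hθ))⟩

theorem club_dclosed : Club DClosed := by
  classical
  refine (club_param (fun x : O => {x}) (fun x => Set.finite_singleton x)
    (fun N hN => hN.mono fun x hx => hx rfl) (fun x => if (Dm x).Countable then Dm x else ∅)
    fun x => ?_).imp fun N h x hx hc => ?_
  · split_ifs with h
    · exact h
    · exact Set.countable_empty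
  · simpa [hc] using h x (by simpa using hx)

/-- the countable chain condition for families inside `D` -/
def CC (D : Set PP) : Prop := ∀ (ι : Type 1) (I : Set ι), ¬ I.Countable → ∀ p : ι → PP,
  (∀ i ∈ I, p i ∈ D) → ∃ i ∈ I, ∃ j ∈ I, i ≠ j ∧ ∃ r, r ≤ p i ∧ r ≤ p j

theorem CC.predense {D : Set PP} (h : CC D) {W : Type*} (Q : PP → W → Prop)
    (hQ : ∀ q w, Q q w → q ∈ D) : ∃ S : Set (PP × W), S.Countable ∧ (∀ x ∈ S, Q x.1 x.2) ∧
      ∀ q w, Q q w → ∃ x ∈ S, ∃ r, r ≤ x.1 ∧ r ≤ q := by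
  obtain ⟨S, h1, h2, h3⟩ := exists_max_antichain {q | ∃ w, Q q w}
  have hS : S.Countable := by
    by_contra hS
    obtain ⟨i, hi, j, hj, hne, r, r1, r2⟩ := h PP S hS id fun i hi => by
      obtain ⟨w, hw⟩ := h1 hi
      exact hQ _ _ hw
    exact hne (h2 i hi j hj r r1 r2)
  choose w hw using fun q : S => h1 q.2
  have := hS.to_subtype
  refine ⟨Set.range fun q : S => (q.1, w q), Set.countable_range _, ?_, fun q w' hq => ?_⟩
  · rintro _ ⟨q, rfl⟩
    exact hw q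
  · obtain ⟨p, hp, r, r1, r2⟩ := h3 q ⟨w', hq⟩
    exact ⟨_, ⟨⟨p, hp⟩, rfl⟩, r, r1, r2⟩

/-- witnesses can be found inside closed sets -/
theorem club_witness {D : Set PP} (h : CC D) {Θ W : Type*} (mt : Θ → Set O)
    (hf : ∀ θ, (mt θ).Finite) (hc : ∀ N : Set O, N.Countable → {θ | mt θ ⊆ N}.Countable)
    (Q : Θ → PP → W → Prop) (hQ : ∀ θ q w, Q θ q w → q ∈ D) (ex : W → Set O)
    (he : ∀ w, (ex w).Countable) : Club fun N => ∀ θ, mt θ ⊆ N → ∀ q w, Q θ q w →
      ∃ q' w', Q θ q' w' ∧ ment q'.1 ⊆ N ∧ ex w' ⊆ N ∧ ∃ r, r ≤ q' ∧ r ≤ q := by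
  choose S h1 h2 h3 using fun θ => h.predense (Q θ) (hQ θ)
  refine (club_param mt hf hc (fun θ => ⋃ x ∈ S θ, ment x.1.1 ∪ ex x.2) fun θ =>
    (h1 θ).biUnion fun x _ => (ment_finite _).countable.union (he _)).imp
    fun N hN θ hθ q w hq => ?_
  obtain ⟨x, hx, r, r1, r2⟩ := h3 θ q w hq
  have := (Set.subset_biUnion_of_mem (u := fun x : PP × W => ment x.1.1 ∪ ex x.2) hx).trans
    (hN θ hθ)
  exact ⟨x.1, x.2, h2 θ x hx, Set.subset_union_left.trans this, Set.subset_union_right.trans this,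
    r, r1, r2⟩

/-- reflection of a forced property to a fitting condition -/
theorem club_reflect {D : Set PP} (h : CC D)
    (hD : ∀ q ∈ D, ∀ q' ≤ q, ∃ x, q'.restr x ∈ D ∧ Sup x q.1) {Θ W : Type*} (mt : Θ → Set O)
    (hf : ∀ θ, (mt θ).Finite) (hc : ∀ N : Set O, N.Countable → {θ | mt θ ⊆ N}.Countable)
    (ψ : Θ → PP → W → Prop) (hψ : ∀ θ q q' w, q' ≤ q → ψ θ q w → ψ θ q' w) (ex : W → Set O)
    (he : ∀ w, (ex w).Countable) : Club fun N => ∀ θ, mt θ ⊆ N → ∀ pa pp : PP, pp ≤ pa → pp ∈ D →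
      ∀ w, ψ θ pp w → ∃ pb w' pc, ψ θ pb w' ∧ ex w' ⊆ N ∧ pc ≤ pp ∧ pc ≤ pb ∧ Fit N pa pb := by
  classical
  refine (club_witness h (Θ := Θ × Finset O × Finset (O × Col))
    (fun θ => mt θ.1 ∪ ↑θ.2.1 ∪ ((fun x : O × Col => x.1) '' ↑θ.2.2 ∪
      (fun x : O × Col => x.2.1) '' ↑θ.2.2))
    (fun θ => ((hf _).union θ.2.1.finite_toSet).union
      ((θ.2.2.finite_toSet.image _).union (θ.2.2.finite_toSet.image _)))
    (fun N hN => by
      refine ((hc N hN).prod ((countable_finsets hN).prod (countable_finsets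
        (hN.prod (hN.prod (Set.countable_univ (α := Bool × ℕ))))))).mono fun θ hθ => ?_
      exact ⟨fun x hx => hθ (Or.inl (Or.inl hx)), fun x hx => hθ (Or.inl (Or.inr hx)),
        fun x hx => ⟨hθ (Or.inr (Or.inl ⟨x, hx, rfl⟩)), hθ (Or.inr (Or.inr ⟨x, hx, rfl⟩)), trivial⟩⟩)
    (fun θ q w => q ∈ D ∧ ψ θ.1 q w ∧ (∀ x ∈ θ.2.2, x.2 ∈ col q.1 x.1) ∧
      ∀ j ∈ θ.2.1, ∀ c ∈ col q.1 j, ∀ z ∈ θ.2.1, DecAt q j c z)
    (fun _ _ _ h => h.1) ex he).imp fun N hN θ hθ pa pp hp hpD w hw => ?_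
  let a : Finset O := (ment_finite pa.1).toFinset.filter (· ∈ N)
  let B : Finset (O × Col) := (cols_finite pa.1).toFinset.filter fun x => x.1 ∈ N ∧ x.2.1 ∈ N
  have ha : ∀ z, z ∈ a ↔ z ∈ ment pa.1 ∧ z ∈ N := by simp [a]
  have hB : ∀ x, x ∈ B ↔ x.2 ∈ col pa.1 x.1 ∧ x.1 ∈ N ∧ x.2.1 ∈ N := by simp [B]
  obtain ⟨q, hq, -, q2⟩ := exists_decAt a a pp
  obtain ⟨x, x1, x2⟩ := hD pp hpD q hq
  have hq' : q.restr x ≤ pp := PP.restr_le_of_sup hq x2
  obtain ⟨pb, w', ⟨-, g1, g2, g3⟩, g4, g5, pc, g6, g7⟩ := hN (θ, a, B) (by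
      rintro z ((hz | hz) | ⟨y, hy, rfl⟩ | ⟨y, hy, rfl⟩)
      · exact hθ hz
      · exact ((ha z).1 hz).2
      · exact ((hB y).1 hy).2.1
      · exact ((hB y).1 hy).2.2) (q.restr x) w
    ⟨x1, hψ _ _ _ _ hq' hw, fun y hy => col_mono (hq'.trans hp) ((hB y).1 hy).1,
      fun j hj c hc z hz => by
        obtain ⟨y, hy, hc'⟩ := mem_col hc
        obtain ⟨e1, e2⟩ := restr_f_some hy
        have hc'' : c ∈ col q.1 j := col_some e2 ▸ hc'
        exact (q2 j hj c hc'' z hz).restr (q.col_fc hc'').2.K_lt e1.le⟩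
  exact ⟨pb, w', pc, g1, g5, g7.trans hq', g6, g4,
    fun j hj c hc hc' => g2 (j, c) ((hB _).2 ⟨hc, hj, hc'⟩),
    fun j hj hj' c hc z hz hz' => g3 j ((ha j).2 ⟨Or.inl (Or.inl hj'), hj⟩) c hc z
      ((ha z).2 ⟨hz', hz⟩)⟩

end Pool.Agent.P.MP_63de32_gt
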