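import Pool.Agent.P.MP_63de32_gt.Theta
import Pool.Agent.P.MP_63de32_gt.Defs

set_option autoImplicit false

/-! The space in the forcing extension. -/

open Pool.Agent.Lib.PosetForcing

namespace Pool.Agent.P.MP_63de32_gt

instance clopen_isFin (a b : Name PP) :
    Clopen fun U : Gen PP => IsFin Mod.mem (a.val U) (b.val U) := by
  unfold IsFin; infer_instance

instance clopen_covers (a b : Name PP) :
    Clopen fun U : Gen PP => Covers Mod.mem (a.val U) (b.val U) := by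
  unfold Covers; infer_instance

instance clopen_relOpen (a b c : Name PP) :
    Clopen fun U : Gen PP => RelOpen Mod.mem (a.val U) (b.val U) (c.val U) := by
  unfold RelOpen; infer_instance

instance clopen_conv (a b c d : Name PP) :
    Clopen fun U : Gen PP => Conv Mod.mem (a.val U) (b.val U) (c.val U) (d.val U) := by
  unfold Conv; infer_instance

/-- names of points -/
noncomputable def eN (z : Pt) : Name PP := elt z

/-- names of basic sets -/
noncomputable def bN (e : Cd) : Name PP :=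
  .mk {x : PP × Pt // Act x.1.1 x.2 ∧ InB x.1.1 x.2 e} (fun x => eN x.1.2) fun x => x.1.1

/-- the space -/
noncomputable def xN : Name PP := bN ∅

/-- the base -/
noncomputable def baseN : Name PP := fam bN

/-- the topology -/
noncomputable def topN : Name PP := sepName (powName xN) fun U V =>
  ∀ z, Mod.mem z V → ∃ B, Mod.mem B (baseN.val U) ∧ Mod.mem z B ∧ IsSub Mod.mem B V

/-- the set of isolated points -/
noncomputable def aN : Name PP := fam fun n : ULift.{1} ℕ => eN (.nat n.down)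

theorem f_bN {p : PP} {z : Pt} {e : Cd} (h1 : Act p.1 z) (h2 : InB p.1 z e) :
    Forces p fun U => Mod.mem ((eN z).val U) ((bN e).val U) :=
  forces_el_mem (b := bN e) ⟨(p, z), h1, h2⟩ le_rfl

theorem e_bN {p : PP} {a : Name PP} {e : Cd}
    (h : Forces p fun U => Mod.mem (a.val U) ((bN e).val U)) :
    ∃ q ≤ p, ∃ z, Act q.1 z ∧ InB q.1 z e ∧ Forces q fun U => a.val U = (eN z).val U := by
  obtain ⟨q, hq, i, h1, h2⟩ := h.exists_el
  exact ⟨q, hq, i.1.2, i.2.1.mono h1, i.2.2.mono h1, h2⟩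

theorem e_bN' {p : PP} {z : Pt} {e : Cd}
    (h : Forces p fun U => Mod.mem ((eN z).val U) ((bN e).val U)) :
    ∃ q ≤ p, Act q.1 z ∧ InB q.1 z e := by
  obtain ⟨q, hq, z', h1, h2, h3⟩ := e_bN h
  obtain rfl : z = z' := Forces.elt_inj h3
  exact ⟨q, hq, h1, h2⟩

theorem forces_bN {Φ : ∀ U : Gen PP, Mod U → Prop} [∀ a : Name PP, Clopen fun U => Φ U (a.val U)]
    {e : Cd} {p : PP} (h : ∀ q ≤ p, ∀ z, Act q.1 z → InB q.1 z e →
      ∃ r ≤ q, Forces r fun U => Φ U ((eN z).val U)) :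
    Forces p fun U => ∀ x, Mod.mem x ((bN e).val U) → Φ U x :=
  forces_forall_mem (b := bN e) fun i q hq hi => h q hq i.1.2 (i.2.1.mono hi) (i.2.2.mono hi)

theorem forall_bN {Φ : ∀ U : Gen PP, Mod U → Prop} [∀ a : Name PP, Clopen fun U => Φ U (a.val U)]
    {e : Cd} (h : ∀ q : PP, ∀ z, Act q.1 z → InB q.1 z e →
      ∃ r ≤ q, Forces r fun U => Φ U ((eN z).val U)) (U : Gen PP) :
    ∀ x, Mod.mem x ((bN e).val U) → Φ U x :=
  forall_mem (b := bN e) (fun i q hi => h q i.1.2 (i.2.1.mono hi) (i.2.2.mono hi)) U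

theorem bN_sub {e e' : Cd} (h : e ⊆ e') (U : Gen PP) :
    IsSub Mod.mem ((bN e').val U) ((bN e).val U) :=
  forall_bN (Φ := fun U x => Mod.mem x ((bN e).val U))
    (fun q _ h1 h2 => ⟨q, le_rfl, f_bN h1 fun g hg => h2 g (h hg)⟩) U

open Classical in
theorem bN_inter (e e' : Cd) (U : Gen PP) (x : Mod U) (h : Mod.mem x ((bN e).val U))
    (h' : Mod.mem x ((bN e').val U)) : Mod.mem x ((bN (e ∪ e')).val U) :=
  forall_bN (Φ := fun U x => Mod.mem x ((bN e').val U) → Mod.mem x ((bN (e ∪ e')).val U))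
    (fun q z _ h2 => ⟨q, le_rfl, forces_imp fun r hr g => by
      obtain ⟨s, hs, g1, g2⟩ := e_bN' g
      exact ⟨s, hs, f_bN g1 fun c hc =>
        (Finset.mem_union.1 hc).elim (h2.mono (hs.trans hr) c) (g2 c)⟩⟩) U x h h'

theorem mem_topN (U : Gen PP) (V : Mod U) : Mod.mem V (topN.val U) ↔ IsSub Mod.mem V (xN.val U) ∧
    ∀ z, Mod.mem z V → ∃ B, Mod.mem B (baseN.val U) ∧ Mod.mem z B ∧ IsSub Mod.mem B V :=
  (mem_sepName _ _ U V).trans (and_congr (mem_powName xN U V) Iff.rfl)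

theorem bN_open (e : Cd) (U : Gen PP) : Mod.mem ((bN e).val U) (topN.val U) :=
  (mem_topN U _).2 ⟨bN_sub (Finset.empty_subset e) U,
    fun _ hz => ⟨_, mem_fam bN e U, hz, fun _ h => h⟩⟩

theorem open_elim {p : PP} {V : Name PP} {z : Pt} (h : Forces p fun U =>
    Mod.mem (V.val U) (topN.val U) ∧ Mod.mem ((eN z).val U) (V.val U)) :
    ∃ q ≤ p, ∃ e, Act q.1 z ∧ InB q.1 z e ∧
      Forces q fun U => IsSub Mod.mem ((bN e).val U) (V.val U) := by
  obtain ⟨B, hB⟩ := Forces.exists_name (Φ := fun U B => Mod.mem B (baseN.val U) ∧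
    Mod.mem ((eN z).val U) B ∧ IsSub Mod.mem B (V.val U))
    (h.imp fun U h => ((mem_topN U _).1 h.1).2 _ h.2)
  obtain ⟨q, hq, e, he⟩ := Forces.exists_fam (hB.imp fun _ h => h.1)
  have h1 := ((hB.mono hq).and he).imp (Ψ := fun U => Mod.mem ((eN z).val U) ((bN e).val U) ∧
    IsSub Mod.mem ((bN e).val U) (V.val U)) fun U h => h.2 ▸ h.1.2
  obtain ⟨r, hr, g1, g2⟩ := e_bN' (h1.imp fun _ h => h.1)
  exact ⟨r, hr.trans hq, e, g1, g2, (h1.mono hr).imp fun _ h => h.2⟩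

theorem isTop (U : Gen PP) : IsTop Mod.mem (xN.val U) (topN.val U) := by
  classical
  refine ⟨fun V hV => ((mem_topN U V).1 hV).1, bN_open ∅ U, fun V W Z hV hW hZ => ?_,
    fun F Z hF hZ => ?_⟩
  · obtain ⟨v1, v2⟩ := (mem_topN U V).1 hV
    obtain ⟨-, w2⟩ := (mem_topN U W).1 hW
    refine (mem_topN U Z).2 ⟨fun x hx => v1 x ((hZ x).1 hx).1, fun z hz => ?_⟩
    obtain ⟨B, b1, b2, b3⟩ := v2 z ((hZ z).1 hz).1
    obtain ⟨B', c1, c2, c3⟩ := w2 z ((hZ z).1 hz).2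
    obtain ⟨D, d1, d2⟩ := forall_mem_fam (A := bN) (Φ := fun U B => ∀ B', Mod.mem B' (baseN.val U) →
      ∃ D, Mod.mem D (baseN.val U) ∧ ∀ x, Mod.mem x D ↔ Mod.mem x B ∧ Mod.mem x B')
      (fun e U => forall_mem_fam (A := bN) (Φ := fun U B' => ∃ D, Mod.mem D (baseN.val U) ∧
        ∀ x, Mod.mem x D ↔ Mod.mem x ((bN e).val U) ∧ Mod.mem x B')
        (fun e' U => ⟨_, mem_fam bN (e ∪ e') U, fun x =>
          ⟨fun h => ⟨bN_sub Finset.subset_union_left U x h, bN_sub Finset.subset_union_right U x h⟩,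
            fun h => bN_inter e e' U x h.1 h.2⟩⟩) U) U B b1 B' c1
    exact ⟨D, d1, (d2 z).2 ⟨b2, c2⟩,
      fun x hx => (hZ x).2 ⟨b3 x ((d2 x).1 hx).1, c3 x ((d2 x).1 hx).2⟩⟩
  · refine (mem_topN U Z).2 ⟨fun x hx => ?_, fun z hz => ?_⟩
    · obtain ⟨V, h1, h2⟩ := (hZ x).1 hx
      exact ((mem_topN U V).1 (hF V h1)).1 x h2
    · obtain ⟨V, h1, h2⟩ := (hZ z).1 hz
      obtain ⟨B, b1, b2, b3⟩ := ((mem_topN U V).1 (hF V h1)).2 z h2
      exact ⟨B, b1, b2, fun x hx => (hZ x).2 ⟨V, h1, b3 x hx⟩⟩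

theorem separate {q : PP} {z z' : Pt} (h : Act q.1 z) (h' : Act q.1 z') (hne : z ≠ z') :
    ∃ r ≤ q, ∃ g b, Sd r.1 z g b ∧ Sd r.1 z' g (!b) := by
  cases z with
  | nat n => exact ⟨q, le_rfl, .inl n, true, .natT n rfl, .natF n hne.symm⟩
  | cone _ _ => exact h.elim
  | br j =>
    cases z' with
    | nat n => exact ⟨q, le_rfl, .inl n, false, .natF n hne, .natT n rfl⟩
    | cone _ _ => exact h'.elim
    | br j' =>
      obtain ⟨r, hr, μ, m, g1, g2⟩ := exists_split h h' fun e => hne (e ▸ rfl)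
      exact ⟨r, hr, .inr μ, m, .on _ _ g1, .on _ _ g2⟩

theorem isHausdorff (U : Gen PP) : IsHausdorff Mod.mem (xN.val U) (topN.val U) := by
  refine forall_bN (e := ∅) (Φ := fun U x => ∀ y, Mod.mem y (xN.val U) → x ≠ y → ∃ V W,
    Mod.mem V (topN.val U) ∧ Mod.mem W (topN.val U) ∧ Mod.mem x V ∧ Mod.mem y W ∧
      ∀ z, Mod.mem z V → ¬ Mod.mem z W) (fun q z h1 _ => ⟨q, le_rfl, forces_bN (e := ∅)
        fun r hr z' h2 _ => ?_⟩) U
  by_cases e : z = z'
  · exact ⟨r, le_rfl, Forces.of_forall (fun U h => absurd (e ▸ rfl) h) r⟩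
  obtain ⟨s, hs, g, b, g1, g2⟩ := separate (h1.mono hr) h2 e
  refine ⟨s, hs, ((f_bN (e := {(g, b)}) (h1.mono (hs.trans hr)) (by simpa [InB] using g1)).and
    (f_bN (e := {(g, !b)}) (h2.mono hs) (by simpa [InB] using g2))).imp fun U h _ =>
      ⟨_, _, bN_open _ U, bN_open _ U, h.1, h.2, forall_bN
        (Φ := fun U x => ¬ Mod.mem x ((bN {(g, !b)}).val U)) (fun q y a1 a2 =>
          ⟨q, le_rfl, forces_not_iff.2 fun t ht a3 => ?_⟩) U⟩⟩
  obtain ⟨u, hu, a4, a5⟩ := e_bN' a3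
  exact a4.pth.cons ((a2 (g, b) (Finset.mem_singleton_self _)).mono (hu.trans ht))
    (a5 (g, !b) (Finset.mem_singleton_self _))

theorem cover_elim {p : PP} {F Y : Name PP} {z : Pt} (h : Forces p fun U =>
    Covers Mod.mem (F.val U) (Y.val U) ∧ Mod.mem ((eN z).val U) (Y.val U)) :
    ∃ u : Name PP, Forces p fun U =>
      Mod.mem (u.val U) (F.val U) ∧ Mod.mem ((eN z).val U) (u.val U) :=
  Forces.exists_name (Φ := fun U u => Mod.mem u (F.val U) ∧ Mod.mem ((eN z).val U) u)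
    (h.imp fun _ h => h.1 _ h.2)

theorem isCpt (U : Gen PP) : IsCpt Mod.mem (omegaName.val U) (xN.val U) (topN.val U) := by
  intro F
  obtain ⟨F, rfl⟩ := F.exists_name
  refine fun h1 h2 => of_forces_all (Φ := fun U => (IsSub Mod.mem (F.val U) (topN.val U) ∧
    Covers Mod.mem (F.val U) (xN.val U)) → ∃ G, IsSub Mod.mem G (F.val U) ∧
      IsFin Mod.mem (omegaName.val U) G ∧ Covers Mod.mem G (xN.val U))
    (fun p => ⟨p, le_rfl, forces_imp fun p0 _ h0 => ?_⟩) U ⟨h1, h2⟩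
  obtain ⟨q, hq, l, l1, l2⟩ := compact_comb (fun p e => ∃ l : List (Name PP),
      (∀ u ∈ l, Forces p fun U => Mod.mem (u.val U) (F.val U)) ∧
      ∀ q ≤ p, ∀ z, Act q.1 z → InB q.1 z e → ∃ r ≤ q, ∃ u ∈ l,
        Forces r fun U => Mod.mem ((eN z).val U) (u.val U))
    (fun p q e hq ⟨l, a1, a2⟩ => ⟨l, fun u hu => (a1 u hu).mono hq,
      fun r hr => a2 r (hr.trans hq)⟩) p0
    (fun p e e1 e2 h ⟨l, a1, a2⟩ ⟨l', b1, b2⟩ => ⟨l ++ l',
      fun u hu => (List.mem_append.1 hu).elim (a1 u) (b1 u), fun q hq z c1 c2 => by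
        obtain ⟨r, hr, g | g⟩ := h q hq z c1 c2
        · obtain ⟨s, hs, u, hu, g'⟩ := a2 r (hr.trans hq) z (c1.mono hr) g
          exact ⟨s, hs.trans hr, u, List.mem_append_left _ hu, g'⟩
        · obtain ⟨s, hs, u, hu, g'⟩ := b2 r (hr.trans hq) z (c1.mono hr) g
          exact ⟨s, hs.trans hr, u, List.mem_append_right _ hu, g'⟩⟩)
    (fun q hq z hz => by
      obtain ⟨u, hu⟩ := cover_elim (((h0.mono hq).imp fun _ h => h.2).and
        (f_bN (e := ∅) hz (by simp [InB])))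
      obtain ⟨r, hr, e, -, a2, a3⟩ := open_elim (((h0.mono hq).and hu).imp
        fun U h => ⟨h.1.1 _ h.2.1, h.2.2⟩)
      refine ⟨r, hr, e, a2, [u], fun v hv => ?_, fun s hs y b1 b2 => ⟨s, le_rfl, u, by simp,
        ((a3.mono hs).and (f_bN b1 b2)).imp fun U h => h.1 _ h.2⟩⟩
      obtain rfl : v = u := by simpa using hv
      exact (hu.mono hr).imp fun _ h => h.1)
  let A : ULift.{1} (Fin l.length) → Name PP := fun i => l.get i.down
  have g1 : Forces q fun U => IsSub Mod.mem ((fam A).val U) (F.val U) :=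
    forces_forall_mem_fam (Φ := fun U x => Mod.mem x (F.val U))
      fun i r hr => ⟨r, le_rfl, (l1 _ (List.get_mem l i.down)).mono hr⟩
  have g2 : Forces q fun U => LeCard Mod.mem ((fam A).val U) ((natName l.length).val U) :=
    forces_leCard A (fun i => natName i.down.val) (fun x r _ hx => hx.exists_fam)
      (fun i => Forces.of_forall (natName_mem i.down.2) q)
      fun i j hne r _ h => hne (ULift.ext _ _ (Fin.ext h.natName_inj))
  have g3 : Forces q fun U => Covers Mod.mem ((fam A).val U) (xN.val U) :=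
    forces_bN (e := ∅) (Φ := fun U x => ∃ V, Mod.mem V ((fam A).val U) ∧ Mod.mem x V)
      fun r hr z a1 a2 => by
        obtain ⟨s, hs, u, hu, g⟩ := l2 r hr z a1 a2
        obtain ⟨i, rfl⟩ := List.get_of_mem hu
        exact ⟨s, hs, g.imp fun U h => ⟨_, mem_fam A ⟨i⟩ U, h⟩⟩
  exact ⟨q, hq, (g1.and (g2.and g3)).imp fun U h =>
    ⟨_, h.1, ⟨_, natName_mem_omega _ U, h.2.1⟩, h.2.2⟩⟩

theorem br_notMem (j : O) (U : Gen PP) : ¬ Mod.mem ((eN (.br j)).val U) (aN.val U) := fun h =>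
  forall_mem_fam (A := fun n : ULift.{1} ℕ => eN (.nat n.down))
    (Φ := fun U x => x ≠ (eN (.br j)).val U) (fun n U e => by simpa using elt_inj e) U _ h rfl

theorem nat_mem (n : ℕ) (U : Gen PP) : Mod.mem ((eN (.nat n)).val U) (aN.val U) :=
  mem_fam (fun n : ULift.{1} ℕ => eN (.nat n.down)) ⟨n⟩ U

theorem not_sequential (U : Gen PP) :
    ¬ IsSequential Mod.mem (omegaName.val U) (xN.val U) (topN.val U) := by
  intro h
  refine of_forces_all (Φ := fun U => ¬ ∃ V, Mod.mem V (topN.val U) ∧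
    ∀ z, Mod.mem z V ↔ Mod.mem z (xN.val U) ∧ ¬ Mod.mem z (aN.val U))
    (fun p => ⟨p, le_rfl, forces_not_iff.2 fun q _ g => ?_⟩) U (h (aN.val U)
      (forall_mem_fam (Φ := fun U x => Mod.mem x (xN.val U)) (fun n => of_forces_all
        fun p => ⟨p, le_rfl, f_bN (z := .nat n.down) (e := ∅) trivial (by simp [InB])⟩) U)
      fun s x => ?_)
  · obtain ⟨V, hV⟩ := Forces.exists_name (Φ := fun U V => Mod.mem V (topN.val U) ∧
      ∀ z, Mod.mem z V ↔ Mod.mem z (xN.val U) ∧ ¬ Mod.mem z (aN.val U)) g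
    obtain ⟨r, hr, j, hj⟩ := exists_branch q
    obtain ⟨s, hs, e, -, a2, a3⟩ := open_elim (V := V) (z := .br j)
      (((hV.mono hr).and (f_bN (z := .br j) (e := ∅) hj (by simp [InB]))).imp
        fun U h => ⟨h.1.1, (h.1.2 _).2 ⟨h.2, br_notMem j U⟩⟩)
    obtain ⟨t, ht, n, a4⟩ := dense_nat (hj.mono hs) a2
    exact Forces.not_false ((((hV.mono (ht.trans (hs.trans hr))).and (a3.mono ht)).and
      (f_bN (z := .nat n) trivial a4)).imp fun U h => ((h.1.1.2 _).1 (h.1.2 _ h.2)).2 (nat_mem n U))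
  obtain ⟨s, rfl⟩ := s.exists_name
  obtain ⟨x, rfl⟩ := x.exists_name
  have i1 := clopen_isFun s omegaName aN
  have i2 := clopen_mem x xN
  have i3 := clopen_conv omegaName topN s x
  have i4 := @clopen_and _ _ _ _ i2 i3
  have i5 := @clopen_and _ _ _ _ i1 i4
  refine fun h1 h2 h3 => of_forces_all (Φ := fun U =>
    (IsFun Mod.mem (s.val U) (omegaName.val U) (aN.val U) ∧ Mod.mem (x.val U) (xN.val U) ∧
      Conv Mod.mem (omegaName.val U) (topN.val U) (s.val U) (x.val U)) →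
        Mod.mem (x.val U) (aN.val U)) (fun p => ⟨p, le_rfl, forces_imp fun q _ g => ?_⟩) U
    ⟨h1, h2, h3⟩
  obtain ⟨p0, hp0, z, a1, -, a3⟩ := e_bN (g.imp fun _ h => h.2.1)
  have g0 := g.mono hp0
  cases z with
  | nat n => exact ⟨p0, hp0, a3.imp fun U h => h ▸ nat_mem n U⟩
  | cone _ _ => exact a1.elim
  | br j =>
    refine (seq_closed (fun p k n => Forces p fun U =>
      App Mod.mem (s.val U) ((natName k).val U) ((eN (.nat n)).val U))
      (fun _ _ _ _ hq h => h.mono hq) p0 a1 (fun r hr k => ?_) fun r hr e he => ?_).elim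
    · obtain ⟨y, hy⟩ := Forces.exists_name
        (Φ := fun U y => App Mod.mem (s.val U) ((natName k).val U) y)
        ((g0.mono hr).imp fun U h => h.1.2.1 _ (natName_mem_omega k U))
      obtain ⟨t, ht, n, hn⟩ := Forces.exists_fam (((g0.mono hr).and hy).imp
        fun U h => ((isZFC U).app_val h.1.1 h.2).2)
      exact ⟨t, ht, n.down, ((hy.mono ht).and hn).imp fun U h => h.2 ▸ h.1⟩
    · obtain ⟨m, hm⟩ := Forces.exists_name (Φ := fun U m => Mod.mem m (omegaName.val U) ∧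
        ∀ k y, App Mod.mem (s.val U) k y → Mod.mem m k → Mod.mem y ((bN e).val U))
        ((((g0.and a3).mono hr).and (f_bN (z := .br j) (ActB.mono a1 hr) he)).imp
          fun U h => h.1.1.2.2 _ (bN_open e U) (h.1.2 ▸ h.2))
      obtain ⟨t, ht, m', hm'⟩ := Forces.exists_fam (hm.imp fun _ h => h.1)
      refine ⟨t, ht, m'.down + 1, fun u hu k hk n hn => ?_⟩
      obtain ⟨v, hv, -, b⟩ := e_bN' ((((hm.mono (hu.trans ht)).and (hm'.mono hu)).and hn).imp
        fun U h => h.1.1.2 _ _ h.2 (h.1.2 ▸ natName_mem hk U))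
      exact ⟨v, hv, b⟩

theorem weaklyThetaRef (U : Gen PP) (Y : Mod U) (hY : IsSub Mod.mem Y (xN.val U)) :
    WeaklyThetaRef Mod.mem (omegaName.val U) (topN.val U) Y := by
  intro F
  obtain ⟨F, rfl⟩ := F.exists_name
  obtain ⟨Y, rfl⟩ := Y.exists_name
  obtain ⟨Gr, r1, r2, r3⟩ := theta_comb (Sm := fun p e => ∃ u : Name PP, Forces p fun U =>
      Mod.mem (u.val U) (F.val U) ∧ ∀ z, Mod.mem z ((bN e).val U) → Mod.mem z (Y.val U) →
        Mod.mem z (u.val U))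
    ⟨fun p q e hq ⟨u, hu⟩ => ⟨u, hu.mono hq⟩, fun p e e' h ⟨u, hu⟩ => ⟨u, (hu.and (forces_bN
      (e := e') (Φ := fun U x => Mod.mem x ((bN e).val U))
      fun q hq z a1 a2 => ⟨q, le_rfl, f_bN a1 (h q hq z a2)⟩)).imp
        fun U h => ⟨h.1.1, fun z hz => h.1.2 z (h.2 z hz)⟩⟩⟩
  let iN : Cd → Name PP := fun e => sepName (bN e) fun U z => Mod.mem z (Y.val U)
  have hi : ∀ e U z, Mod.mem z ((iN e).val U) ↔ Mod.mem z ((bN e).val U) ∧ Mod.mem z (Y.val U) :=
    fun e U z => mem_sepName _ _ U z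
  let famN : ℕ → Name PP := fun n =>
    .mk {x : PP × Cd // Gr x.1 n x.2} (fun x => iN x.1.2) fun x => x.1.1
  let gN : Name PP := funName (fun n : ULift.{1} ℕ => natName n.down) fun n => famN n.down
  intro h1 h2
  refine ⟨gN.val U, of_forces_all (Φ := fun U => IsFunOn Mod.mem (gN.val U) (omegaName.val U)
    fun H => ∀ g, Mod.mem g H → RelOpen Mod.mem (topN.val U) (Y.val U) g ∧
      ∃ u, Mod.mem u (F.val U) ∧ IsSub Mod.mem g u) (fun p => ⟨p, le_rfl, forces_isFunOn_graph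
        (V := fun U H => ∀ g, Mod.mem g H → RelOpen Mod.mem (topN.val U) (Y.val U) g ∧
          ∃ u, Mod.mem u (F.val U) ∧ IsSub Mod.mem g u)
        (fun n q _ _ => ⟨q, le_rfl, (Forces.of_forall (natName_mem_omega _) q).and
          (forces_forall_mem (b := famN n.down) fun x r _ hx => ?_)⟩)
        (fun n q _ _ => ⟨q, le_rfl, n, le_top, Forces.of_forall (fun _ => rfl) q⟩)
        fun n n' q _ _ _ h => ⟨q, le_rfl, ?_⟩⟩) U, fun y => ?_⟩
  · obtain ⟨u, hu⟩ := r2 _ _ _ x.2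
    exact ⟨r, le_rfl, (hu.mono hx).imp fun U h => ⟨⟨_, bN_open x.1.2 U, hi x.1.2 U⟩, _, h.1,
      fun z hz => h.2 z ((hi _ U z).1 hz).1 ((hi _ U z).1 hz).2⟩⟩
  · rw [h.natName_inj]
    exact Forces.of_forall (fun _ => rfl) q
  obtain ⟨y, rfl⟩ := y.exists_name
  refine fun h3 => of_forces_all (Φ := fun U => (IsSub Mod.mem (Y.val U) (xN.val U) ∧
    (∀ u, Mod.mem u (F.val U) → RelOpen Mod.mem (topN.val U) (Y.val U) u) ∧
    Covers Mod.mem (F.val U) (Y.val U) ∧ Mod.mem (y.val U) (Y.val U)) →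
      ∃ n H, App Mod.mem (gN.val U) n H ∧ (∃ g, Mod.mem g H ∧ Mod.mem (y.val U) g) ∧
        ∃ E, IsFin Mod.mem (omegaName.val U) E ∧
          ∀ g, Mod.mem g E ↔ Mod.mem g H ∧ Mod.mem (y.val U) g)
    (fun p => ⟨p, le_rfl, forces_imp fun q _ g => ?_⟩) U ⟨hY, h1, h2, h3⟩
  obtain ⟨q1, hq1, z, a1, -, a3⟩ := e_bN (g.imp fun _ h => h.1 _ h.2.2.2)
  have g1 := (g.mono hq1).and a3
  obtain ⟨u, hu⟩ := cover_elim (z := z) (g1.imp fun _ h => ⟨h.1.2.2.1, h.2 ▸ h.1.2.2.2⟩)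
  obtain ⟨V, hV⟩ := Forces.exists_name (Φ := fun U V => Mod.mem V (topN.val U) ∧
    ∀ z, Mod.mem z (u.val U) ↔ Mod.mem z V ∧ Mod.mem z (Y.val U))
    ((g1.and hu).imp fun U h => h.1.1.2.1 _ h.2.1)
  obtain ⟨q2, hq2, e, b1, b2, b3⟩ := open_elim (V := V) (z := z)
    ((hV.and hu).imp fun U h => ⟨h.1.1, ((h.1.2 _).1 h.2.2).1⟩)
  obtain ⟨r, hr, c, e0, c1, c2, c3⟩ := r3 q2 z e b1 b2 ⟨u, (((hV.and hu).mono hq2).and b3).imp
    fun U h => ⟨h.1.2.1, fun x x1 x2 => (h.1.1.2 x).2 ⟨h.2 x x1, x2⟩⟩⟩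
  have l := hr.trans hq2
  let E : Name PP := sepName (famN c) fun U g => Mod.mem (y.val U) g
  have hE : ∀ U g, Mod.mem g (E.val U) ↔ Mod.mem g ((famN c).val U) ∧ Mod.mem (y.val U) g :=
    fun U g => mem_sepName _ _ U g
  have d1 : Forces r fun U => Mod.mem ((iN e0).val U) ((famN c).val U) :=
    forces_el_mem (b := famN c) ⟨(r, e0), c1⟩ le_rfl
  have d2 : Forces r fun U => Mod.mem (y.val U) ((iN e0).val U) :=
    ((g1.mono l).and (f_bN (b1.mono hr) c2)).imp fun U h =>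
      (hi e0 U _).2 ⟨h.1.2 ▸ h.2, h.1.1.2.2.2⟩
  have d3 : Forces r fun U => LeCard Mod.mem (E.val U) ((natName 1).val U) :=
    forces_leCard (ι := PUnit.{2}) (fun _ => iN e0) (fun _ => natName 0) (fun x s hs hx => by
        obtain ⟨t, ht, i, i1, i2⟩ := Forces.exists_el (b := famN c)
          (hx.imp fun U h => ((hE U _).1 h).1)
        obtain ⟨v, hv, -, i3⟩ := e_bN' (e := i.1.2) (z := z)
          ((((hx.mono ht).and i2).and (a3.mono (ht.trans (hs.trans l)))).imp fun U h =>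
            h.2 ▸ ((hi i.1.2 U _).1 (show Mod.mem (y.val U) ((iN i.1.2).val U) from
              (show x.val U = (iN i.1.2).val U from h.1.2) ▸ ((hE U _).1 h.1.1).2)).1)
        have e := c3 v (hv.trans (ht.trans hs)) i.1.2 (r1 _ _ _ _ (hv.trans i1) i.2) i3
        exact ⟨t, ht, PUnit.unit, i2.imp fun U h => e ▸ h⟩)
      (fun _ => Forces.of_forall (natName_mem Nat.one_pos) r) fun i j hne => absurd rfl hne
  exact ⟨r, l.trans hq1, (d1.and (d2.and d3)).imp fun U h =>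
    ⟨_, _, app_funName (fun n : ULift.{1} ℕ => natName n.down) (fun n => famN n.down) ⟨c⟩ U,
      ⟨_, h.1, h.2.1⟩, _, ⟨_, natName_mem_omega 1 U, h.2.2⟩, hE U⟩⟩

end Pool.Agent.P.MP_63de32_gt
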