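import Pool.Agent.P.MP_63de32_gt.Claim

set_option autoImplicit false

/-! The colouring of the minimal small cones. -/

open Pool.Agent.Lib.PosetForcing Cardinal

namespace Pool.Agent.P.MP_63de32_gt

theorem countable_Iio_W1 (ξ : W1) : (Set.Iio ξ).Countable := by
  rw [← le_aleph0_iff_set_countable, ← Order.lt_succ_iff, succ_aleph0]
  exact (mk_Iio_lt ξ (by simp)).trans_eq mk_W1

/-- a continuous chain of countable closed sets -/
structure Chain (Sm : PP → Cd → Prop) (B : Set O) (M N : W1 → Set O) : Prop where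
  cB : B.Countable
  cM : ∀ ξ, (M ξ).Countable
  nB : Nice Sm B
  nM : ∀ ξ, Nice Sm (M ξ)
  nN : ∀ ξ, Nice Sm (N ξ)
  mem : ∀ ξ x, x ∈ N ξ ↔ x ∈ B ∨ ∃ ζ < ξ, x ∈ M ζ
  sub : ∀ ξ, N ξ ⊆ M ξ
  esc : ∀ ξ, ∀ j ∈ N ξ, ∀ q : PP, ActB q.1 j → ∃ r ≤ q, ∃ κ ∈ M ξ, ∃ i, κ ∉ N ξ ∧ K r.1 j κ i

theorem exists_chain {Sm : PP → Cd → Prop} (hS : IsSm Sm) : ∃ B M N, Chain Sm B M N := by
  obtain ⟨F, hF, hQ⟩ := club_nice hS
  obtain ⟨B, -, cB, clB⟩ := exists_cl hF Set.countable_empty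
  have step : ∀ N : Set O, ∃ M : Set O, N.Countable → N ⊆ M ∧ M.Countable ∧ Cl F M ∧
      ∀ j ∈ N, ∀ q : PP, ActB q.1 j → ∃ r ≤ q, ∃ κ ∈ M, ∃ i, κ ∉ N ∧ K r.1 j κ i := by
    intro N
    by_cases hN : N.Countable
    swap
    · exact ⟨∅, fun h => absurd h hN⟩
    choose S h1 h2 h3 using fun j => cc_univ.predense
      (fun q (κ : O) => κ ∉ N ∧ ∃ i, K q.1 j κ i) fun _ _ _ => trivial
    obtain ⟨M, g1, g2, g3⟩ := exists_cl hF (S := N ∪ ⋃ j ∈ N, Prod.snd '' S j)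
      (hN.union (hN.biUnion fun j _ => (h1 j).image _))
    refine ⟨M, fun _ => ⟨Set.subset_union_left.trans g1, g2, g3, fun j hj q hq => ?_⟩⟩
    obtain ⟨s, hs, κ, i, a1, a2⟩ := (q.proper hq.2).unc hq.1 N hN q le_rfl
    obtain ⟨x, hx, r, r1, r2⟩ := h3 j s κ ⟨a1, i, a2⟩
    obtain ⟨b1, i', b2⟩ := h2 j x hx
    exact ⟨r, r2.trans hs, x.2, g1 (Or.inr (Set.mem_biUnion hj ⟨x, hx, rfl⟩)), i', b1, b2.mono r1⟩
  choose nxt hn using step
  let M : W1 → Set O := (wellFounded_lt (α := W1)).fix fun ξ M' =>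
    nxt {x | x ∈ B ∨ ∃ ζ, ∃ h : ζ < ξ, x ∈ M' ζ h}
  let N : W1 → Set O := fun ξ => {x | x ∈ B ∨ ∃ ζ < ξ, x ∈ M ζ}
  have e : ∀ ξ, M ξ = nxt (N ξ) := fun ξ => by
    refine (WellFounded.fix_eq _ _ ξ).trans (congrArg nxt (Set.ext fun x => ?_))
    exact or_congr Iff.rfl ⟨fun ⟨ζ, h, g⟩ => ⟨ζ, h, g⟩, fun ⟨ζ, h, g⟩ => ⟨ζ, h, g⟩⟩
  have cN : ∀ ξ, (N ξ).Countable := by
    intro ξ
    induction ξ using WellFoundedLT.induction with
    | ind ξ ih =>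
      refine (cB.union ((countable_Iio_W1 ξ).biUnion (t := fun ζ _ => M ζ) fun ζ h => ?_)).mono ?_
      · rw [e]; exact (hn _ (ih ζ h)).2.1
      · rintro x (hx | ⟨ζ, h, hx⟩)
        · exact Or.inl hx
        · exact Or.inr (Set.mem_biUnion h hx)
  have sub : ∀ ξ, N ξ ⊆ M ξ := fun ξ => by rw [e]; exact (hn _ (cN ξ)).1
  have cl : ∀ ξ, Cl F (M ξ) := fun ξ => by rw [e]; exact (hn _ (cN ξ)).2.2.1
  have mono : ∀ ζ ξ, ζ ≤ ξ → M ζ ⊆ M ξ := fun ζ ξ h x hx => by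
    rcases h.lt_or_eq with h | rfl
    · exact sub ξ (Or.inr ⟨ζ, h, hx⟩)
    · exact hx
  refine ⟨B, M, N, cB, fun ξ => by rw [e]; exact (hn _ (cN ξ)).2.1, hQ B clB,
    fun ξ => hQ _ (cl ξ), fun ξ => hQ _ fun a ha => ?_, fun _ _ => Iff.rfl, sub,
    fun ξ => by rw [e]; exact (hn _ (cN ξ)).2.2.2⟩
  have key : ↑a ⊆ B ∨ ∃ ζ < ξ, ↑a ⊆ M ζ := by
    classical
    induction a using Finset.induction_on with
    | empty => exact Or.inl (by simp)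
    | insert x a _ ih =>
      rw [Finset.coe_insert, Set.insert_subset_iff] at ha
      simp only [Finset.coe_insert, Set.insert_subset_iff]
      rcases ih ha.2 with h | ⟨ζ, h1, h2⟩ <;> rcases ha.1 with g | ⟨ζ', g1, g2⟩
      · exact Or.inl ⟨g, h⟩
      · exact Or.inr ⟨ζ', g1, g2, fun y hy => sub ζ' (Or.inl (h hy))⟩
      · exact Or.inr ⟨ζ, h1, sub ζ (Or.inl g), h2⟩
      · exact Or.inr ⟨max ζ ζ', max_lt h1 g1, mono _ _ (le_max_right _ _) g2,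
          h2.trans (mono _ _ (le_max_left _ _))⟩
  rcases key with h | ⟨ζ, h1, h2⟩
  · exact fun x hx => Or.inl (clB a h hx)
  · exact fun x hx => Or.inr ⟨ζ, h1, cl ζ a h2 hx⟩

/-- ranks of branches -/
def Rk (B : Set O) (M N : W1 → Set O) (r : PP) : ℕ → O → Prop
  | 0, j => j ∈ B
  | k + 1, j => ∃ ξ j', j ∈ M ξ ∧ j ∉ N ξ ∧ j' ∈ N ξ ∧ ActB r.1 j' ∧ Agree (N ξ) j j' r ∧
      Rk B M N r k j'

theorem Rk.mono {B : Set O} {M N : W1 → Set O} {r s : PP} (hs : s ≤ r) {k : ℕ} :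
    ∀ {j : O}, Rk B M N r k j → Rk B M N s k j := by
  induction k with
  | zero => exact fun h => h
  | succ k ih =>
    rintro j ⟨ξ, j', h1, h2, h3, h4, h5, h6⟩
    exact ⟨ξ, j', h1, h2, h3, h4.mono hs, h5.mono hs, ih h6⟩

variable {Sm : PP → Cd → Prop} {B : Set O} {M N : W1 → Set O}

theorem Chain.MN (h : Chain Sm B M N) {ζ ξ : W1} (hl : ζ < ξ) : M ζ ⊆ N ξ :=
  fun x hx => (h.mem ξ x).2 (Or.inr ⟨ζ, hl, hx⟩)

theorem Chain.NN (h : Chain Sm B M N) {ζ ξ : W1} (hl : ζ ≤ ξ) : N ζ ⊆ N ξ := by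
  rcases hl.lt_or_eq with hl | rfl
  · exact (h.sub ζ).trans (h.MN hl)
  · exact subset_rfl

theorem Chain.le_of (h : Chain Sm B M N) {ζ ξ : W1} {x : O} (h1 : x ∈ M ξ) (h2 : x ∉ N ζ) :
    ζ ≤ ξ := not_lt.1 fun hl => h2 (h.MN hl h1)

theorem Chain.birth (h : Chain Sm B M N) {ξ : W1} {x : O} (h1 : x ∈ M ξ) (h2 : x ∉ B) :
    ∃ ζ ≤ ξ, x ∈ M ζ ∧ x ∉ N ζ := by
  obtain ⟨ζ, hζ, hmin⟩ := (wellFounded_lt (α := W1)).has_min {ζ | x ∈ M ζ} ⟨ξ, h1⟩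
  refine ⟨ζ, not_lt.1 (hmin ξ h1), hζ, fun g => ?_⟩
  rcases (h.mem ζ x).1 g with g | ⟨ζ', g1, g2⟩
  · exact h2 g
  · exact hmin ζ' g2 g1

theorem Chain.rank_lt (h : Chain Sm B M N) {r : PP} (k : ℕ) : ∀ {j j' : O} {k' : ℕ} {ξ' : W1},
    ActB r.1 j → ActB r.1 j' → Rk B M N r k j → Rk B M N r k' j' → j' ∈ N ξ' →
      Agree (N ξ') j j' r → j ∉ N ξ' → k' < k := by
  induction k with
  | zero => exact fun _ _ h1 _ _ _ h2 => absurd ((h.mem _ _).2 (Or.inl h1)) h2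
  | succ k ih =>
    rintro j j' k' ξ' a1 a2 ⟨ξ, l, b1, -, b3, b4, b5, b6⟩ c1 c2 c3 c4
    have hsub := h.NN (h.le_of b1 c4)
    have ag : Agree (N ξ') l j' r :=
      ((b5.symm (h.nN ξ).dc (cmpN_br _ a1) (r.proper b4.2)).sub hsub).trans c3
    by_cases hl : l ∈ N ξ'
    · obtain rfl := ag.eq ((h.nN ξ').sp l hl j' c2) b4 a2
      cases k' with
      | zero => exact Nat.succ_pos k
      | succ k' =>
        obtain ⟨ζ, l', -, d2, d3, d4, d5, d6⟩ := c1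
        exact Nat.succ_lt_succ (ih a2 d4 b6 d6 d3 d5 d2)
    · exact (ih b4 a2 b6 c1 c2 ag hl).trans (Nat.lt_succ_self k)

theorem Chain.rank_ex (h : Chain Sm B M N) (hS : IsSm Sm) {μ : O} {m : Bool} {e : Cd} (ξ : W1) :
    ∀ p : PP, μ ∉ N ξ → IsA Sm μ p → Nb p.1 (.cone μ m) e → Sm p e →
      ∃ r ≤ p, ∃ j ∈ N ξ, ∃ k, ActB r.1 j ∧ Agree (N ξ) μ j r ∧ Rk B M N r k j := by
  induction ξ using WellFoundedLT.induction with
  | ind ξ ih =>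
    intro p h1 h2 h3 h4
    obtain ⟨r, hr, j, hj, a1, a2⟩ := (h.nN ξ).claim p μ m e h1 h2 h3 h4
    by_cases hB : j ∈ B
    · exact ⟨r, hr, j, hj, 0, a1, a2, hB⟩
    obtain ⟨ζ', g1, g2⟩ := ((h.mem ξ j).1 hj).resolve_left hB
    obtain ⟨ζ, g3, g4, g5⟩ := h.birth g2 hB
    have hl := g3.trans_lt g1
    obtain ⟨s, hs, j', hj', k, b1, b2, b3⟩ := ih ζ hl r (fun g => h1 (h.NN hl.le g)) (h2.mono hr)
      (h3.mono hr) (hS.mono _ _ _ hr h4)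
    refine ⟨s, hs.trans hr, j, hj, k + 1, a1.mono hs, a2.mono hs, ζ, j', g4, g5, hj', b1, ?_, b3⟩
    exact (((a2.symm (h.nN ξ).dc (cmpN_node (h.nN ξ).dc (h2.1.mono hr) h1)
      (r.proper a1.2)).mono hs).sub (h.NN hl.le)).trans b2

theorem Chain.inside (h : Chain Sm B M N) {p : PP} {μ : O} {m : Bool} {e : Cd} (h2 : IsA Sm μ p)
    (h3 : Nb p.1 (.cone μ m) e) (h4 : Sm p e) : ∃ ξ, μ ∈ M ξ := by
  by_contra hcon
  push Not at hcon
  have key : ∀ ξ, ∃ κ ∈ Dm μ, κ ∈ M ξ ∧ κ ∉ N ξ := by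
    intro ξ
    obtain ⟨r, hr, j, hj, a1, a2⟩ := (h.nN ξ).claim p μ m e (fun g => hcon ξ (h.sub ξ g)) h2 h3 h4
    obtain ⟨s, hs, κ, b1, i, b2, b3⟩ := h.esc ξ j hj r a1
    have hjp := (r.proper a1.2).path
    have ha := hjp.fc_act hs b3
    obtain ⟨t, ht, g⟩ := cmpN_node (h.nM ξ).dc (h2.1.mono hr) (hcon ξ) s hs κ b1 ha
    rcases g with ⟨a, g⟩ | ⟨ν, a, g1, g2⟩
    · exact ⟨κ, g.mem, b1, b2⟩
    · refine ⟨ν, g2.mem, (h.nM ξ).dc κ b1 (ha.proper.cnt ha.kind) g1.mem, fun hν => ?_⟩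
      obtain ⟨u, hu, g3⟩ := a2 t (ht.trans hs) ν hν _ g2
      obtain ⟨v, hv, g4⟩ := hjp.down u (hu.trans (ht.trans hs)) κ i ν a (b3.mono (hu.trans ht))
        (g1.mono hu)
      exact hjp.not_both (hv.trans (hu.trans (ht.trans hs))) g4 (g3.mono hv)
  choose κ k1 k2 k3 using key
  have hinj : Function.Injective κ := fun ξ ζ e =>
    le_antisymm (h.le_of (k2 ζ) (e ▸ k3 ξ)) (h.le_of (k2 ξ) (e ▸ k3 ζ))
  exact Set.not_countable_univ (((h2.1.proper.cnt h2.1.kind).preimage hinj).mono fun ξ _ => k1 ξ)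

/-- a cone with a code, all inside `S` -/
def Ins (S : Set O) (x : O × Bool × Cd) : Prop := x.1 ∈ S ∧ ∀ z b, (Sum.inr z, b) ∈ x.2.2 → z ∈ S

theorem countable_ins {S : Set O} (hS : S.Countable) : {x | Ins S x}.Countable := by
  refine (hS.prod ((Set.countable_univ (α := Bool)).prod (countable_finsets
    ((countable_gens hS).prod (Set.countable_univ (α := Bool)))))).mono fun x hx => ?_
  exact ⟨hx.1, trivial, fun g hg => ⟨fun z hz => hx.2 z g.2 (by rw [← hz]; exact hg), trivial⟩⟩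

theorem ins_of_nb {S : Set O} (hS : DClosed S) {p : PP} {μ : O} {m : Bool} {e : Cd} (hμ : μ ∈ S)
    (ha : Fc p fun r => ActN r μ) (he : Nb p.1 (.cone μ m) e) : Ins S (μ, m, e) :=
  ⟨hμ, fun _ _ hg => (he _ hg).elim (fun g => hS μ hμ (ha.proper.cnt ha.kind) g.mem)
    fun g => g.1 ▸ hμ⟩

/-- the data attached to a coloured code -/
structure Dat (Sm : PP → Cd → Prop) (B : Set O) (M N : W1 → Set O) (p : PP) (k n : ℕ) (e : Cd)
    (μ : O) (m : Bool) (ξ : W1) (j κ : O) (i : Bool) : Prop where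
  sm : Sm p e
  isA : IsA Sm μ p
  nb : Nb p.1 (.cone μ m) e
  notN : μ ∉ N ξ
  inM : μ ∈ M ξ
  jN : j ∈ N ξ
  act : ActB p.1 j
  agree : Agree (N ξ) μ j p
  rk : Rk B M N p k j
  colr : (κ, i, n) ∈ col p.1 j
  mem : (Sum.inr κ, !i) ∈ e
  high : κ ∉ N ξ

theorem Dat.mono (hS : IsSm Sm) {p q : PP} {k n : ℕ} {e : Cd} {μ : O} {m : Bool} {ξ : W1} {j κ : O}
    {i : Bool} (h : Dat Sm B M N p k n e μ m ξ j κ i) (hq : q ≤ p) :
    Dat Sm B M N q k n e μ m ξ j κ i :=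
  ⟨hS.mono _ _ _ hq h.sm, h.isA.mono hq, h.nb.mono hq, h.notN, h.inM, h.jN, h.act.mono hq,
    h.agree.mono hq, h.rk.mono hq, col_mono hq h.colr, h.mem, h.high⟩

/-- the cone where a branch leaves the path of `t` lies in the neighbourhoods of `t` that contain
the branch -/
theorem off_inB {p : PP} {t : Pt} (ht : Pth t p) {x ν : O} {b : Bool} (hx : ActB p.1 x) {e : Cd}
    (h1 : Nb p.1 t e) (h2 : InB p.1 (.br x) e) (h3 : K p.1 x ν b) (h4 : KP p.1 t ν (!b)) :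
    ∃ s ≤ p, InB s.1 (.cone ν b) e := by
  have hxp := (p.proper hx.2).path
  refine fin_dn e.finite_toSet (Φ := fun g s => Sd s.1 (.cone ν b) g.1 g.2)
    (fun _ _ _ hs g => g.mono hs) ?_
  rintro ⟨n | γ, c⟩ hg r hr
  · obtain rfl : c = false := h1 _ hg
    exact ⟨r, le_rfl, .natF n (by simp)⟩
  · obtain ⟨s, hs, v, g1⟩ := cone_total ht hr (h4.mono hr) (KP.mono (h1 _ hg) hr)
    rw [Bool.not_not] at g1
    obtain ⟨e', g2, g3⟩ := g1.nb (by simp)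
    obtain ⟨u, hu, g4⟩ := g2.transfer (z := .br x) (by
      rintro w hw κ i (g | ⟨rfl, rfl⟩)
      · exact hxp.down w (hw.trans (hs.trans hr)) ν b κ i (h3.mono (hw.trans (hs.trans hr))) g
      · exact ⟨w, le_rfl, h3.mono (hw.trans (hs.trans hr))⟩)
    have g5 := g3 u.1 hu _ (g4.inB (by simp))
    have l := hu.trans (hs.trans hr)
    obtain rfl : v = c := ((pth_br (p.proper hx.2)).le l).fc_eq (fc_sd g5)
      (fc_sd ((h2 _ hg).mono l))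
    exact ⟨s, hs, g1⟩

theorem Chain.unique (h : Chain Sm B M N) (hS : IsSm Sm) {p : PP} {k n : ℕ} {e e' : Cd}
    {μ μ' : O} {m m' : Bool} {ξ ξ' : W1} {j j' κ κ' : O} {i i' : Bool}
    (D : Dat Sm B M N p k n e μ m ξ j κ i) (D' : Dat Sm B M N p k n e' μ' m' ξ' j' κ' i') {x : O}
    (hx : ActB p.1 x) (h1 : K p.1 x μ m) (h2 : InB p.1 (.br x) e') : ξ = ξ' := by
  by_contra hne
  have hxp := (p.proper hx.2).path
  have hμ : μ ≠ μ' := fun e => hne (le_antisymm (h.le_of D'.inM (e ▸ D.notN))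
    (h.le_of D.inM (e ▸ D'.notN)))
  have sm : SmC Sm (.cone μ m) p := ⟨e, D.nb, D.sm⟩
  have sm' : SmC Sm (.cone μ' m') p := ⟨e', D'.nb, D'.sm⟩
  have ht' : Pth (.cone μ' m') p := pth_cone D'.isA.1 m'
  obtain ⟨s, hs, ν, b, a1, a2⟩ : ∃ s ≤ p, ∃ ν b, K s.1 x ν b ∧ KP s.1 (.cone μ' m') ν (!b) := by
    obtain ⟨s, hs, g⟩ := cmpN_br Set.univ hx p le_rfl μ' trivial D'.isA.1
    rcases g with ⟨a, g⟩ | ⟨ν, a, g1, g2⟩
    · by_cases e : m' = a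
      · subst e
        exfalso
        rcases lt_or_gt_of_ne hμ with hl | hl
        · obtain ⟨t, ht, g'⟩ := hxp.lin s hs _ _ _ _ hl g (h1.mono hs)
          exact D'.isA.2 t (ht.trans hs) _ _ g' t le_rfl (sm.mono hS.mono (ht.trans hs))
        · obtain ⟨t, ht, g'⟩ := hxp.lin s hs _ _ _ _ hl (h1.mono hs) g
          exact D.isA.2 t (ht.trans hs) _ _ g' t le_rfl (sm'.mono hS.mono (ht.trans hs))
      · exact ⟨s, hs, μ', a, g, Or.inr ⟨rfl, (bool_ne e).symm⟩⟩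
    · exact ⟨s, hs, ν, !a, g2, Or.inl (by simpa using g1)⟩
  obtain ⟨t, ht, a3⟩ := off_inB (ht'.le hs) (hx.mono hs) (D'.nb.mono hs) (h2.mono hs) a1 a2
  have lt := ht.trans hs
  have a4 : SmC Sm (.cone ν b) t := hS.smc (by simp) a3 (hS.mono _ _ _ lt D'.sm)
  rcases lt_trichotomy ν μ with hl | rfl | hl
  · obtain ⟨u, hu, g⟩ := hxp.lin t lt _ _ _ _ hl (h1.mono lt) (a1.mono ht)
    exact D.isA.2 u (hu.trans lt) _ _ g u le_rfl (a4.mono hS.mono hu)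
  swap
  · obtain ⟨u, hu, g⟩ := hxp.lin t lt _ _ _ _ hl (a1.mono ht) (h1.mono lt)
    obtain ⟨v, hv, g'⟩ := ht'.down u (hu.trans lt) _ _ _ _ (a2.mono (hu.trans ht)) g
    have l := hv.trans (hu.trans lt)
    exact D'.isA.2 v l _ _ (g'.resolve_right fun g => hμ g.1) v le_rfl (sm.mono hS.mono l)
  obtain rfl : b = m := hxp.eq hs a1 (h1.mono hs)
  have a5 : K s.1 μ' ν (!b) := a2.resolve_right fun g => hμ g.1
  have hl : ξ < ξ' := (h.le_of ((h.nM ξ').dc μ' D'.inM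
    (D'.isA.1.proper.cnt D'.isA.1.kind) a5.mem) D.notN).lt_of_ne hne
  have hν : ν ∈ N ξ' := h.MN hl D.inM
  obtain ⟨u, hu, a6⟩ := D'.agree t lt ν hν _ (a5.mono ht)
  have lu := hu.trans lt
  have hjp := (p.proper D'.act.2).path
  have ag : Agree (N ξ) j' j u := fun v hv γ hγ c g => by
    obtain ⟨w, hw, g1⟩ := hjp.lin v (hv.trans lu) _ _ _ _
      (hjp.low_lt (h.nN ξ).dc (hv.trans lu) hγ D.notN g (a6.mono hv)) (a6.mono hv) g
    obtain ⟨w', hw', g2⟩ := D.agree w (hw.trans (hv.trans lu)) γ hγ c g1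
    exact ⟨w', hw'.trans hw, g2⟩
  have hj' : j' ∈ N ξ := by
    by_contra g
    exact lt_irrefl _ (h.rank_lt k (D'.act.mono lu) (D.act.mono lu) (D'.rk.mono lu) (D.rk.mono lu)
      D.jN ag g)
  obtain rfl := ag.eq ((h.nN ξ).sp j' hj' j D.jN) (D'.act.mono lu) (D.act.mono lu)
  have c1 := (p.col_fc D.colr).2
  have c2 := (p.col_fc D'.colr).2
  obtain ⟨rfl, rfl⟩ : κ = ν ∧ (!i) = b := by
    refine (show KP p.1 (.cone ν b) κ (!i) from D.nb _ D.mem).resolve_left fun g => ?_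
    obtain ⟨v, hv, g1⟩ := hjp.down u lu _ _ _ _ a6 (g.mono lu)
    obtain ⟨w, hw, g2⟩ := c1 v (hv.trans lu)
    exact hjp.not_both (hw.trans (hv.trans lu)) g2 (g1.mono hw)
  obtain ⟨y, hy, -⟩ := mem_col D.colr
  obtain ⟨v, hv, g⟩ := (p.ok hy).sep _ (col_some hy ▸ D.colr) _ (col_some hy ▸ D'.colr)
    (hjp.fc_low_lt (h.nN ξ').dc hν D'.high c1 c2) rfl t lt
  exact (pth_cone (D.isA.1.mono (hv.trans lt)) _).cons g ((a3 _ D'.mem).mono hv)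

theorem add_colour {p : PP} {j κ : O} {i : Bool} (hj : ActB p.1 j) (h : K p.1 j κ i) :
    ∃ s ≤ p, ∃ n, (κ, i, n) ∈ col s.1 j := by
  classical
  obtain ⟨y, hy⟩ := Option.ne_none_iff_exists'.1 hj.2
  have ho := p.ok hy
  obtain ⟨n, hn⟩ := (y.2.finite_toSet.image fun c : Col => c.2.2).exists_notMem
  obtain ⟨s, hs, h1, -⟩ := p.update j (y.1, insert (κ, i, n) y.2) (fun y' hy' => by
      obtain rfl : y = y' := Option.some.inj (hy.symm.trans hy')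
      exact ⟨List.prefix_refl _, Finset.subset_insert _ _⟩)
    ⟨ho.proper, fun g => by simp [hj.1] at g, ho.noent, ho.entN, ho.entO, fun c hc => by
      rcases Finset.mem_insert.1 hc with rfl | hc
      · exact fc_K h
      · exact ho.col c hc, fun c hc c' hc' h1 h2 => by
      rcases Finset.mem_insert.1 hc with rfl | hc <;> rcases Finset.mem_insert.1 hc' with rfl | hc'
      · exact absurd h1 (lt_irrefl _)
      · exact absurd ⟨c', hc', h2.symm⟩ hn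
      · exact absurd ⟨c, hc, h2⟩ hn
      · exact ho.sep c hc c' hc' h1 h2⟩
  exact ⟨s, hs, n, col_some h1 ▸ Finset.mem_insert_self _ _⟩

/-- colours -/
abbrev Clr : Type := ℕ ⊕ ℕ ⊕ (ℕ × ℕ × ℕ)

theorem theta_aux (hS : IsSm Sm) : ∃ Gr : PP → Clr → Cd → Prop,
    (∀ p q c e, q ≤ p → Gr p c e → Gr q c e) ∧ (∀ p c e, Gr p c e → Sm p e) ∧
    ∀ (p : PP) z e, Act p.1 z → InB p.1 z e → Sm p e → ∃ r ≤ p, ∃ c e0, Gr r c e0 ∧ InB r.1 z e0 ∧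
      ∀ s ≤ r, ∀ e', Gr s c e' → InB s.1 z e' → e' = e0 := by
  classical
  obtain ⟨B, M, N, h⟩ := exists_chain hS
  obtain ⟨iB, hiB⟩ := Set.countable_iff_exists_injOn.1 (countable_ins h.cB)
  choose iM hiM using fun ξ => Set.countable_iff_exists_injOn.1 (countable_ins (h.cM ξ))
  refine ⟨fun p c e => match c with
    | .inl n => e = {(.inl n, true)} ∧ Sm p e
    | .inr (.inl ν) => Sm p e ∧ ∃ μ m, Ins B (μ, m, e) ∧ iB (μ, m, e) = ν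
    | .inr (.inr c) => ∃ μ m ξ j κ i, Dat Sm B M N p c.1 c.2.1 e μ m ξ j κ i ∧
        iM ξ (μ, m, e) = c.2.2, ?_, ?_, ?_⟩
  · rintro p q (n | ν | c) e hq g
    · exact ⟨g.1, hS.mono _ _ _ hq g.2⟩
    · exact ⟨hS.mono _ _ _ hq g.1, g.2⟩
    · obtain ⟨μ, m, ξ, j, κ, i, g1, g2⟩ := g
      exact ⟨μ, m, ξ, j, κ, i, g1.mono hS hq, g2⟩
  · rintro p (n | ν | c) e g
    · exact g.2
    · exact g.1
    · obtain ⟨μ, m, ξ, j, κ, i, g1, -⟩ := g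
      exact g1.sm
  rintro p (n | x | _) e ha h1 h2
  · refine ⟨p, le_rfl, .inl n, {(.inl n, true)}, ⟨rfl, hS.sub p e _ (fun q hq z hz => ?_) h2⟩,
      fun g hg => ?_, fun s _ e' g _ => g.1⟩
    · rw [(sd_inl (hz _ (Finset.mem_singleton_self _))).1 rfl]
      exact h1.mono hq
    · obtain rfl := Finset.mem_singleton.1 hg
      exact .natT n rfl
  swap
  · exact ha.elim
  have hxp := (p.proper ha.2).path
  obtain ⟨e1, a1, a2⟩ := hS.smc (by simp) h1 h2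
  obtain ⟨μ, ⟨r, hr, m, b1, e2, b2, b3⟩, hmin⟩ := (wellFounded_lt (α := O)).has_min
    {κ | ∃ r ≤ p, ∃ i, K r.1 x κ i ∧ SmC Sm (.cone κ i) r} (by
      rcases a1.top (pth_br (p.proper ha.2)) with g | ⟨s, hs, κ, i, g1, g2⟩
      · obtain ⟨s, hs, κ, i, -, g1⟩ := (p.proper ha.2).unc ha.1 ∅ Set.countable_empty p le_rfl
        refine ⟨κ, s, hs, i, g1, e1, fun c hc => ?_, hS.mono _ _ _ hs a2⟩
        obtain ⟨n, rfl⟩ := g c hc
        rfl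
      · exact ⟨κ, s, hs, i, g1, e1, g2, hS.mono _ _ _ hs a2⟩)
  have hA : IsA Sm μ r := ⟨hxp.fc_act hr b1, fun s hs κ i g u hu g' => by
    obtain ⟨v, hv, g1⟩ := hxp.down u (hu.trans (hs.trans hr)) μ m κ i (b1.mono (hu.trans hs))
      (g.mono hu)
    exact hmin κ ⟨v, hv.trans (hu.trans (hs.trans hr)), i, g1, g'.mono hS.mono hv⟩ g.lt⟩
  have tr : ∀ s ≤ r, ∀ e0, Nb s.1 (.cone μ m) e0 → ∃ t ≤ s, InB t.1 (.br x) e0 := by
    intro s hs e0 g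
    obtain ⟨t, ht, g'⟩ := g.transfer (z := .br x) (by
      rintro w hw κ i (g | ⟨rfl, rfl⟩)
      · exact hxp.down w (hw.trans (hs.trans hr)) μ m κ i (b1.mono (hw.trans hs)) g
      · exact ⟨w, le_rfl, b1.mono (hw.trans hs)⟩)
    exact ⟨t, ht, g'.inB (by simp)⟩
  by_cases hB : μ ∈ B
  · obtain ⟨t, ht, g⟩ := tr r le_rfl e2 b2
    have hi := ins_of_nb h.nB.dc hB hA.1 b2
    refine ⟨t, ht.trans hr, .inr (.inl (iB (μ, m, e2))), e2,
      ⟨hS.mono _ _ _ ht b3, μ, m, hi, rfl⟩, g, ?_⟩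
    rintro s - e' ⟨-, μ', m', g1, g2⟩ -
    exact congrArg (fun x => x.2.2) (hiB g1 hi g2)
  obtain ⟨ξ0, hξ0⟩ := h.inside hA b2 b3
  obtain ⟨ξ, -, c1, c2⟩ := h.birth hξ0 hB
  obtain ⟨r1, hr1, j, hj, k, d1, d2, d3⟩ := h.rank_ex hS ξ r c2 hA b2 b3
  have hjp := (r1.proper d1.2).path
  obtain ⟨r2, hr2, κ, i, f1, f2, f3⟩ : ∃ r2 ≤ r1, ∃ κ i, K r2.1 j κ i ∧
      KP r2.1 (.cone μ m) κ (!i) ∧ κ ∉ N ξ := by
    obtain ⟨s, hs, g⟩ := cmpN_br Set.univ d1 r1 le_rfl μ trivial (hA.1.mono hr1)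
    rcases g with ⟨a, g⟩ | ⟨ν, a, g1, g2⟩
    · by_cases e : m = a
      · subst e
        obtain ⟨t, ht, κ', hκ', i', g1, g2⟩ := (h.nN ξ).sm j hj s μ m g
          ⟨e2, b2.mono (hs.trans hr1), hS.mono _ _ _ (hs.trans hr1) b3⟩
        obtain ⟨u, hu, g3⟩ := d2.symm (h.nN ξ).dc (cmpN_node (h.nN ξ).dc (hA.1.mono hr1) c2)
          (r1.proper d1.2) t (ht.trans hs) κ' hκ' i' g1
        exact (hA.2 u (hu.trans (ht.trans (hs.trans hr1))) _ _ g3 u le_rfl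
          (g2.mono hS.mono hu)).elim
      · exact ⟨s, hs, μ, a, g, Or.inr ⟨rfl, (bool_ne e).symm⟩, c2⟩
    · refine ⟨s, hs, ν, !a, g2, Or.inl (by simpa using g1), fun hν => ?_⟩
      obtain ⟨t, ht, g3⟩ := d2 s hs ν hν a g1
      exact hjp.not_both (ht.trans hs) g3 (g2.mono ht)
  obtain ⟨r3, hr3, n, f4⟩ := add_colour (d1.mono hr2) f1
  have l3 := hr3.trans (hr2.trans hr1)
  have nb : Nb r3.1 (.cone μ m) (insert (.inr κ, !i) e2) := fun g hg => by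
    rcases Finset.mem_insert.1 hg with rfl | hg
    · exact f2.mono hr3
    · exact (b2 g hg).mono l3
  have D : Dat Sm B M N r3 k n (insert (.inr κ, !i) e2) μ m ξ j κ i :=
    ⟨hS.sub _ e2 _ (fun q _ z hz g hg => hz g (Finset.mem_insert_of_mem hg))
      (hS.mono _ _ _ l3 b3), hA.mono l3, nb, c2, c1, hj, d1.mono (hr3.trans hr2),
      d2.mono (hr3.trans hr2), d3.mono (hr3.trans hr2), f4, Finset.mem_insert_self _ _, f3⟩
  obtain ⟨t, ht, g⟩ := tr r3 l3 _ nb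
  refine ⟨t, ht.trans (l3.trans hr), .inr (.inr (k, n, iM ξ (μ, m, insert (.inr κ, !i) e2))), _,
    ⟨μ, m, ξ, j, κ, i, D.mono hS ht, rfl⟩, g, ?_⟩
  rintro s hs e' ⟨μ', m', ξ', j', κ', i', g1, g2⟩ g3
  have ls := hs.trans (ht.trans l3)
  obtain rfl := h.unique hS (D.mono hS (hs.trans ht)) g1 (ActB.mono ha (ls.trans hr))
    (b1.mono ls) g3
  exact congrArg (fun x => x.2.2) (hiM ξ (ins_of_nb (h.nM ξ).dc g1.inM g1.isA.1 g1.nb)
    (ins_of_nb (h.nM ξ).dc c1 D.isA.1 nb) g2)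

theorem theta_comb (hS : IsSm Sm) : ∃ Gr : PP → ℕ → Cd → Prop,
    (∀ p q c e, q ≤ p → Gr p c e → Gr q c e) ∧ (∀ p c e, Gr p c e → Sm p e) ∧
    ∀ (p : PP) z e, Act p.1 z → InB p.1 z e → Sm p e → ∃ r ≤ p, ∃ c e0, Gr r c e0 ∧ InB r.1 z e0 ∧
      ∀ s ≤ r, ∀ e', Gr s c e' → InB s.1 z e' → e' = e0 := by
  obtain ⟨Gr, h1, h2, h3⟩ := theta_aux hS
  refine ⟨fun p n e => Gr p (Denumerable.ofNat Clr n) e, fun p q c e => h1 p q _ e,
    fun p c e => h2 p _ e, fun p z e a1 a2 a3 => ?_⟩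
  obtain ⟨r, hr, c, e0, g⟩ := h3 p z e a1 a2 a3
  exact ⟨r, hr, Encodable.encode c, e0, by simpa only [Denumerable.ofNat_encode] using g⟩

end Pool.Agent.P.MP_63de32_gt
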