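import Pool.Agent.P.MP_63de32_gt.Valid

set_option autoImplicit false

/-! Paths, consistency and totality of the side relation, neighbourhood codes. -/

open Pool.Agent.Lib.PosetForcing

namespace Pool.Agent.P.MP_63de32_gt

theorem fin_dn {ι : Type*} {S : Set ι} (hS : S.Finite) {Φ : ι → PP → Prop} {p : PP}
    (hm : ∀ d r s, s ≤ r → Φ d r → Φ d s) (h : ∀ d ∈ S, ∀ r ≤ p, ∃ s ≤ r, Φ d s) :
    ∃ s ≤ p, ∀ d ∈ S, Φ d s := by
  induction S, hS using Set.Finite.induction_on with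
  | empty => exact ⟨p, le_rfl, by simp⟩
  | @insert a S _ _ ih =>
    obtain ⟨s, hs, h1⟩ := ih fun d hd => h d (Or.inr hd)
    obtain ⟨t, ht, h2⟩ := h a (Or.inl rfl) s hs
    refine ⟨t, ht.trans hs, ?_⟩
    rintro d (rfl | hd)
    · exact h2
    · exact hm d s t ht (h1 d hd)

theorem Fc.of {p : PP} {φ : C → Prop} (hm : ∀ r s : C, s ≤ r → φ r → φ s) (h : φ p.1) : Fc p φ :=
  fun r hr => ⟨r, le_rfl, hm _ _ hr h⟩

theorem fc_K {p : PP} {x κ : O} {i : Bool} (h : K p.1 x κ i) : Fc p fun r => K r x κ i :=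
  Fc.of (fun _ _ hs g => g.mono hs) h

theorem fc_sd {p : PP} {z : Pt} {g : Gn} {i : Bool} (h : Sd p.1 z g i) :
    Fc p fun r => Sd r z g i := Fc.of (fun _ _ hs g => g.mono hs) h

theorem fc_actN {p : PP} {x : O} (h : ActN p.1 x) : Fc p fun r => ActN r x :=
  Fc.of (fun _ _ hs g => g.mono hs) h

theorem Fc.proper {p : PP} {x : O} (h : Fc p fun r => ActN r x) : Proper x p :=
  Proper.of_dn fun r hr => by
    obtain ⟨s, hs, h1⟩ := h r hr
    exact ⟨s, hs, s.proper h1.2⟩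

theorem Fc.kind {p : PP} {x : O} (h : Fc p fun r => ActN r x) : kind x = true := by
  obtain ⟨s, -, h1⟩ := h p le_rfl
  exact h1.1

theorem IsPath.fc_act {F : PP → O → Bool → Prop} {p r : PP} (h : IsPath F p) (hr : r ≤ p) {κ : O}
    {i : Bool} (h1 : F r κ i) : Fc r fun s => ActN s κ := fun s hs =>
  h.act s (hs.trans hr) κ i (h.mono _ _ _ _ hs h1)

theorem IsPath.cnt {F : PP → O → Bool → Prop} {p r : PP} (h : IsPath F p) (hr : r ≤ p) {κ : O}
    {i : Bool} (h1 : F r κ i) : (Dm κ).Countable :=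
  (h.fc_act hr h1).proper.cnt (h.fc_act hr h1).kind

/-- the path of `z` is forced to be a path -/
def Pth (z : Pt) (p : PP) : Prop := IsPath (fun r => KP r.1 z) p

theorem Pth.le {z : Pt} {p q : PP} (h : Pth z p) (hq : q ≤ p) : Pth z q := IsPath.le h hq

theorem pth_nat (n : ℕ) (p : PP) : Pth (.nat n) p :=
  ⟨fun _ _ _ _ _ h => h, fun _ _ _ _ h => h.elim, fun _ _ _ h => h.elim,
    fun _ _ _ _ _ _ h => h.elim, fun _ _ _ _ _ _ _ h => h.elim⟩

theorem pth_br {j : O} {p : PP} (h : Proper j p) : Pth (.br j) p := h.path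

theorem pth_cone {x : O} {p : PP} (h : Fc p fun r => ActN r x) (b : Bool) : Pth (.cone x b) p := by
  have hp := h.proper.path
  refine ⟨fun _ _ _ _ hs g => KP.mono g hs, ?_, ?_, ?_, ?_⟩
  · rintro r hr κ i (g | ⟨rfl, -⟩)
    · exact hp.act r hr κ i g
    · exact h r hr
  · rintro r hr κ (g1 | ⟨rfl, g1⟩) (g2 | ⟨g2, g3⟩)
    · exact hp.fn r hr κ g1 g2
    · exact absurd g1.lt (by simp [g2])
    · exact absurd g2.lt (lt_irrefl _)
    · simp [← g1] at g3
  · rintro r hr κ i μ m (g1 | ⟨rfl, -⟩) g2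
    · obtain ⟨s, hs, g⟩ := hp.down r hr κ i μ m g1 g2
      exact ⟨s, hs, Or.inl g⟩
    · exact ⟨r, le_rfl, Or.inl g2⟩
  · rintro r hr κ i μ m hl (g1 | ⟨rfl, -⟩) (g2 | ⟨g2, -⟩)
    · exact hp.lin r hr κ i μ m hl g1 g2
    · exact absurd (hl.trans g1.lt) (by simp [g2])
    · exact ⟨r, le_rfl, g2⟩
    · exact absurd hl (by simp [g2])

theorem PP.entry_lt (p : PP) {x : O} {y : Y} (h : p.1.f x = some y) {e : Ent} (he : e ∈ y.1) :
    GLt e.1.1 x := by
  rcases hg : e.1.1 with n | z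
  · trivial
  · exact ((p.ok h).entO e he z hg).K_lt

theorem sd_inl {p : C} {z : Pt} {n : ℕ} {s : Bool} (h : Sd p z (.inl n) s) :
    (s = true ↔ z = .nat n) := by
  cases h with
  | natT _ h => simp [h]
  | natF _ h => simp [h]

theorem sd_inr {p : C} {z : Pt} {x : O} {s : Bool} (h : Sd p z (.inr x) s) :
    KP p z x s ∨ ∃ y l e, p.f x = some y ∧ l ++ [e] <+: y.1 ∧ Sd p z e.1.1 e.1.2 ∧
      (∀ d ∈ l, Sd p z d.1.1 (!d.1.2)) ∧ e.2 = s := by
  cases h with
  | on _ _ h => exact Or.inl h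
  | fe _ y l e h1 h2 _ _ h5 h6 => exact Or.inr ⟨y, l, e, h1, h2, h5, h6, rfl⟩

theorem PP.sd_fe (p : PP) {z : Pt} {x : O} {y : Y} {l : List Ent} {e : Ent}
    (h1 : p.1.f x = some y) (h2 : l ++ [e] <+: y.1) (h3 : Sd p.1 z e.1.1 e.1.2)
    (h4 : ∀ d ∈ l, Sd p.1 z d.1.1 (!d.1.2)) : Sd p.1 z (.inr x) e.2 :=
  .fe x y l e h1 h2 (p.entry_lt h1 (h2.subset (by simp)))
    (fun _ hd => p.entry_lt h1 (h2.subset (by simp [hd]))) h3 h4

theorem sd_cons_inl {p : C} {z : Pt} {n : ℕ} {s : Bool} (h : Sd p z (.inl n) s)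
    (h' : Sd p z (.inl n) (!s)) : False := by
  have h1 := sd_inl h
  have h2 := sd_inl h'
  cases s <;> simp_all

theorem sd_cons_inr {z : Pt} (x : O) : ∀ p : PP, Pth z p → ∀ s, Sd p.1 z (.inr x) s →
    Sd p.1 z (.inr x) (!s) → False := by
  induction x using WellFoundedLT.induction with
  | ind x ih =>
    have ih' : ∀ g, GLt g x → ∀ p : PP, Pth z p → ∀ s, Sd p.1 z g s → Sd p.1 z g (!s) → False := by
      rintro (n | w) hg p hp s h1 h2
      · exact sd_cons_inl h1 h2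
      · exact ih w hg p hp s h1 h2
    have key : ∀ p : PP, Pth z p → ∀ s y e, KP p.1 z x s → p.1.f x = some y → e ∈ y.1 →
        Sd p.1 z e.1.1 e.1.2 → False := by
      intro p hp s y e h1 h2 h3 h4
      rcases hg : e.1.1 with n | w
      · rw [hg, (p.ok h2).entN e h3 n hg] at h4
        rw [(sd_inl h4).1 rfl] at h1
        exact h1
      · obtain ⟨r, hr, h5⟩ := (p.ok h2).entO e h3 w hg p le_rfl
        obtain ⟨t, ht, h6⟩ := hp.down r hr x s w _ (h1.mono hr) h5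
        rw [hg] at h4
        exact ih w h5.lt t (hp.le (ht.trans hr)) _ (h4.mono (ht.trans hr)) (.on _ _ h6)
    intro p hp s h1 h2
    rcases sd_inr h1 with h1 | ⟨y, l, e, a1, a2, a3, a4, a5⟩
    · rcases sd_inr h2 with h2 | ⟨y, l, e, a1, a2, a3, -, -⟩
      · exact IsPath.not_both hp le_rfl h1 h2
      · exact key p hp s y e h1 a1 (a2.subset (by simp)) a3
    · rcases sd_inr h2 with h2 | ⟨y', l', e', b1, b2, b3, b4, b5⟩
      · exact key p hp _ y e h2 a1 (a2.subset (by simp)) a3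
      · obtain rfl : y = y' := Option.some.inj (a1.symm.trans b1)
        have hne : e ≠ e' := fun h => by rw [h, b5] at a5; cases s <;> simp at a5
        have hm : ∀ {l l' : List Ent} {e e' : Ent}, l ++ [e] <+: l' ++ [e'] → e ≠ e' → e ∈ l' := by
          intro l l' e e' h hne
          rcases List.prefix_concat_iff.1 h with h | h
          · exact absurd (List.append_inj_right' h rfl) (by simpa using hne)
          · exact h.subset (by simp)
        rcases List.prefix_or_prefix_of_prefix a2 b2 with h | h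
        · exact ih' _ (p.entry_lt a1 (a2.subset (by simp))) p hp _ a3 (b4 e (hm h hne))
        · exact ih' _ (p.entry_lt a1 (b2.subset (by simp))) p hp _ b3 (a4 e' (hm h hne.symm))

theorem Pth.cons {z : Pt} {p : PP} (hp : Pth z p) {g : Gn} {s : Bool} (h1 : Sd p.1 z g s)
    (h2 : Sd p.1 z g (!s)) : False := by
  rcases g with n | w
  · exact sd_cons_inl h1 h2
  · exact sd_cons_inr w p hp s h1 h2

theorem Pth.fc_eq {z : Pt} {p : PP} (hp : Pth z p) {g : Gn} {s s' : Bool}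
    (h1 : Fc p fun r => Sd r z g s) (h2 : Fc p fun r => Sd r z g s') : s = s' := by
  obtain ⟨r, hr, g1⟩ := h1 p le_rfl
  obtain ⟨t, ht, g2⟩ := h2 r hr
  by_contra hne
  obtain rfl : s' = !s := by cases s <;> cases s' <;> simp_all
  exact (hp.le (ht.trans hr)).cons (g1.mono ht) g2

theorem Split.symm {p : C} {x x' : O} (h : Split p x x') : Split p x' x := by
  obtain ⟨μ, m, h1, h2⟩ := h
  exact ⟨μ, !m, h2, by simpa using h1⟩

theorem node_cmp {r : PP} {κ μ : O} (h1 : Fc r fun s => ActN s κ) (h2 : Fc r fun s => ActN s μ) :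
    ∃ s ≤ r, κ = μ ∨ (∃ i, K s.1 κ μ i) ∨ (∃ i, K s.1 μ κ i) ∨ Split s.1 κ μ := by
  rcases lt_trichotomy κ μ with h | h | h
  · obtain ⟨s, hs, g⟩ := h1 r le_rfl
    obtain ⟨t, ht, g'⟩ := h2.proper.newN h2.kind κ h s hs g
    exact ⟨t, ht.trans hs, Or.inr (Or.inr (g'.imp id Split.symm))⟩
  · exact ⟨r, le_rfl, Or.inl h⟩
  · obtain ⟨s, hs, g⟩ := h2 r le_rfl
    obtain ⟨t, ht, g'⟩ := h1.proper.newN h1.kind μ h s hs g
    exact ⟨t, ht.trans hs, Or.inr (g'.imp id Or.inr)⟩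

/-- a path containing a node outside `Dm μ` passes through `μ` or splits from its path -/
theorem IsPath.cmp {F : PP → O → Bool → Prop} {p r : PP} (h : IsPath F p) (hr : r ≤ p) {κ μ : O}
    {i : Bool} (h1 : F r κ i) (hκ : κ ∉ Dm μ) (h2 : Fc r fun s => ActN s μ) :
    ∃ s ≤ r, (∃ i, F s μ i) ∨ ∃ ν m, K s.1 μ ν m ∧ F s ν (!m) := by
  obtain ⟨s, hs, g⟩ := node_cmp (h.fc_act hr h1) h2
  rcases g with rfl | ⟨m, g⟩ | ⟨m, g⟩ | ⟨ν, m, g1, g2⟩
  · exact ⟨r, le_rfl, Or.inl ⟨i, h1⟩⟩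
  · obtain ⟨t, ht, g'⟩ := h.down s (hs.trans hr) κ i μ m (h.mono _ _ _ _ hs h1) g
    exact ⟨t, ht.trans hs, Or.inl ⟨m, g'⟩⟩
  · exact absurd g.mem hκ
  · obtain ⟨t, ht, g'⟩ := h.down s (hs.trans hr) κ i ν m (h.mono _ _ _ _ hs h1) g1
    exact ⟨t, ht.trans hs, Or.inr ⟨ν, !m, g2.mono ht, by simpa using g'⟩⟩

theorem IsPath.cmp_unc {F : PP → O → Bool → Prop} {p r : PP} (h : IsPath F p) (hu : Unc F p)
    (hr : r ≤ p) {μ : O} (h2 : Fc r fun s => ActN s μ) :
    ∃ s ≤ r, (∃ i, F s μ i) ∨ ∃ ν m, K s.1 μ ν m ∧ F s ν (!m) := by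
  obtain ⟨s, hs, κ, i, hκ, g⟩ := hu (Dm μ) (h2.proper.cnt h2.kind) r hr
  obtain ⟨t, ht, g'⟩ := h.cmp (hs.trans hr) g hκ (h2.mono hs)
  exact ⟨t, ht.trans hs, g'⟩

/-- `z` is known to be comparable with the node `x` -/
def Cp (p : C) (z : Pt) (x : O) : Prop :=
  (∃ n, z = .nat n) ∨ (∃ s, KP p z x s) ∨ ∃ μ m, K p x μ m ∧ KP p z μ (!m)

theorem Cp.mono {p q : C} {z : Pt} {x : O} (h : Cp p z x) (hq : q ≤ p) : Cp q z x := by
  rcases h with h | ⟨s, h⟩ | ⟨μ, m, h1, h2⟩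
  · exact Or.inl h
  · exact Or.inr (Or.inl ⟨s, h.mono hq⟩)
  · exact Or.inr (Or.inr ⟨μ, m, h1.mono hq, h2.mono hq⟩)

theorem first_entry {z : Pt} {x : O} {p : PP} {y : Y} (hy : p.1.f x = some y) (l : List Ent)
    (hl : l <+: y.1) (hd : ∀ d ∈ l, ∀ r ≤ p, ∃ s ≤ r, ∃ b, Sd s.1 z d.1.1 b) :
    ∃ s ≤ p, (∀ d ∈ l, Sd s.1 z d.1.1 (!d.1.2)) ∨ ∃ e ∈ l, Sd s.1 z (.inr x) e.2 := by
  induction l using List.reverseRecOn with
  | nil => exact ⟨p, le_rfl, Or.inl (by simp)⟩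
  | append_singleton l e ih =>
    obtain ⟨s, hs, h⟩ := ih ((List.prefix_append _ _).trans hl) fun d h => hd d (by simp [h])
    rcases h with h | ⟨e', h1, h2⟩
    · obtain ⟨t, ht, b, hb⟩ := hd e (by simp) s hs
      by_cases hbe : b = e.1.2
      · obtain ⟨y', g1, g2⟩ := (ht.trans hs) x y hy
        exact ⟨t, ht.trans hs, Or.inr ⟨e, by simp, t.sd_fe g1 (hl.trans g2.1) (hbe ▸ hb)
          fun d hd => (h d hd).mono ht⟩⟩
      · refine ⟨t, ht.trans hs, Or.inl fun d hd => ?_⟩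
        rcases List.mem_append.1 hd with hd | hd
        · exact (h d hd).mono ht
        · obtain rfl : d = e := by simpa using hd
          obtain rfl : b = !d.1.2 := by cases b <;> cases h : d.1.2 <;> simp_all
          exact hb
    · exact ⟨s, hs, Or.inr ⟨e', by simp [h1], h2⟩⟩

theorem sd_nat_total (p : C) (z : Pt) (n : ℕ) : ∃ b, Sd p z (.inl n) b := by
  by_cases h : z = .nat n
  · exact ⟨true, .natT n h⟩
  · exact ⟨false, .natF n h⟩

/-- appending an entry to the list at an active node -/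
theorem PP.append (p : PP) {x : O} {y : Y} (hy : p.1.f x = some y) (hk : kind x = true) (e : Ent)
    (h1 : ∀ n, e.1.1 = .inl n → e.1.2 = true)
    (h2 : ∀ z, e.1.1 = .inr z → Fc p fun r => K r x z (!e.1.2)) :
    ∃ s : PP, s ≤ p ∧ s.1.f x = some (y.1 ++ [e], y.2) ∧ ∀ γ, γ ≠ x → s.1.f γ = p.1.f γ := by
  have ho := p.ok hy
  refine p.update x _ (fun y' hy' => ?_) ⟨ho.proper, ho.nocol, fun h => by simp [hk] at h,
    fun d hd => ?_, fun d hd => ?_, ho.col, ho.sep⟩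
  · obtain rfl : y = y' := Option.some.inj (hy.symm.trans hy')
    exact ⟨List.prefix_append _ _, subset_rfl⟩
  · rcases List.mem_append.1 hd with hd | hd
    · exact ho.entN d hd
    · obtain rfl : d = e := by simpa using hd
      exact h1
  · rcases List.mem_append.1 hd with hd | hd
    · exact ho.entO d hd
    · obtain rfl : d = e := by simpa using hd
      exact h2

theorem sd_total {z : Pt} (x : O) : ∀ p : PP, Pth z p → (Fc p fun r => ActN r x) → Cp p.1 z x →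
    ∃ s ≤ p, ∃ b, Sd s.1 z (.inr x) b := by
  induction x using WellFoundedLT.induction with
  | ind x ih =>
    intro p hp ha hc
    obtain ⟨p1, hp1, ha1⟩ := ha p le_rfl
    obtain ⟨y, hy⟩ := Option.ne_none_iff_exists'.1 ha1.2
    have main : ∀ e : Ent, (∀ n, e.1.1 = .inl n → e.1.2 = true) →
        (∀ w, e.1.1 = .inr w → Fc p1 fun r => K r x w (!e.1.2)) → Sd p1.1 z e.1.1 e.1.2 →
        (∀ w b, ∀ r ≤ p1, K r.1 x w b → ∃ s ≤ r, Cp s.1 z w) →
        ∃ s ≤ p, ∃ b, Sd s.1 z (.inr x) b := by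
      intro e e1 e2 e3 e4
      obtain ⟨q, hq, hq1, -⟩ := p1.append hy ha1.1 e e1 e2
      obtain ⟨s, hs, h⟩ := first_entry (z := z) hq1 y.1 (List.prefix_append _ _) (by
        intro d hd r hr
        rcases hg : d.1.1 with n | w
        · exact ⟨r, le_rfl, sd_nat_total _ _ _⟩
        · obtain ⟨r1, hr1, g1⟩ := (p1.ok hy).entO d hd w hg r (hr.trans hq)
          obtain ⟨r2, hr2, g2⟩ := e4 w _ r1 (hr1.trans (hr.trans hq)) g1
          have l2 := hr2.trans (hr1.trans (hr.trans hq))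
          obtain ⟨r3, hr3, g3⟩ := ih w g1.lt r2 (hp.le (l2.trans hp1))
            ((p1.ok hy).proper.path.fc_act l2 (g1.mono hr2)) g2
          exact ⟨r3, hr3.trans (hr2.trans hr1), g3⟩)
      refine ⟨s, hs.trans (hq.trans hp1), ?_⟩
      rcases h with h | ⟨e', -, h⟩
      · obtain ⟨y', g1, g2⟩ := hs x _ hq1
        exact ⟨_, s.sd_fe g1 g2.1 (e3.mono (hs.trans hq)) h⟩
      · exact ⟨_, h⟩
    rcases hc with ⟨n, rfl⟩ | ⟨s, h⟩ | ⟨μ, m, h1, h2⟩
    · exact main ((.inl n, true), true) (fun _ _ => rfl) (fun w h => by simp at h) (.natT n rfl)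
        fun w b r _ _ => ⟨r, le_rfl, Or.inl ⟨n, rfl⟩⟩
    · exact ⟨p, le_rfl, s, .on _ _ h⟩
    · refine main ((.inr μ, !m), true) (fun _ h => by simp at h) (fun w h => ?_)
        (.on _ _ (h2.mono hp1)) fun w b r hr g => ?_
      · obtain rfl : μ = w := by simpa using h
        simpa using fc_K (h1.mono hp1)
      · have hx := (p1.ok hy).proper.path
        have l1 := hr.trans hp1
        rcases lt_trichotomy μ w with h | rfl | h
        · obtain ⟨s, hs, g'⟩ := hx.lin r hr w b μ m h g (h1.mono l1)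
          exact ⟨s, hs, Or.inr (Or.inr ⟨μ, m, g', h2.mono (hs.trans l1)⟩)⟩
        · exact ⟨r, le_rfl, Or.inr (Or.inl ⟨_, h2.mono l1⟩)⟩
        · obtain ⟨s, hs, g'⟩ := hx.lin r hr μ m w b h (h1.mono l1) g
          obtain ⟨t, ht, g''⟩ := hp.down s (hs.trans l1) μ _ w b (h2.mono (hs.trans l1)) g'
          exact ⟨t, ht.trans hs, Or.inr (Or.inl ⟨_, g''⟩)⟩

/-- a cone branching off a path has a side at every node of the path -/
theorem cone_total {F : PP → O → Bool → Prop} {p r : PP} (h : IsPath F p) (hr : r ≤ p) {a g : O}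
    {i b : Bool} (h1 : F r a i) (h2 : F r g b) :
    ∃ s ≤ r, ∃ v, Sd s.1 (.cone a (!i)) (.inr g) v := by
  have hc := pth_cone (h.fc_act hr h1) (!i)
  rcases lt_trichotomy a g with hl | rfl | hl
  · obtain ⟨s, hs, g1⟩ := h.lin r hr g b a i hl h2 h1
    obtain ⟨t, ht, g2⟩ := sd_total g s (hc.le hs) ((h.fc_act hr h2).mono hs)
      (Or.inr (Or.inr ⟨a, i, g1, Or.inr ⟨rfl, rfl⟩⟩))
    exact ⟨t, ht.trans hs, g2⟩
  · exact ⟨r, le_rfl, _, .on _ _ (Or.inr ⟨rfl, rfl⟩)⟩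
  · obtain ⟨s, hs, g1⟩ := h.lin r hr a i g b hl h1 h2
    exact ⟨s, hs, _, .on _ _ (Or.inl g1)⟩

/-- `z` is known to lie in the basic set coded by `e` -/
def InB (p : C) (z : Pt) (e : Finset (Gn × Bool)) : Prop := ∀ g ∈ e, Sd p z g.1 g.2

theorem InB.mono {p q : C} {z : Pt} {e : Finset (Gn × Bool)} (h : InB p z e) (hq : q ≤ p) :
    InB q z e := fun g hg => (h g hg).mono hq

/-- a member of the canonical neighbourhood subbase of `z` -/
def GenP (p : C) (z : Pt) : Gn × Bool → Prop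
  | (.inl _, b) => b = false
  | (.inr κ, b) => KP p z κ b

theorem GenP.mono {p q : C} {z : Pt} {g : Gn × Bool} (h : GenP p z g) (hq : q ≤ p) :
    GenP q z g := by
  rcases g with ⟨n | κ, b⟩
  · exact h
  · exact KP.mono h hq

/-- `e` codes a canonical neighbourhood of `z` -/
def Nb (p : C) (z : Pt) (e : Finset (Gn × Bool)) : Prop := ∀ g ∈ e, GenP p z g

theorem Nb.mono {p q : C} {z : Pt} {e : Finset (Gn × Bool)} (h : Nb p z e) (hq : q ≤ p) :
    Nb q z e := fun g hg => (h g hg).mono hq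

theorem Nb.inB {p : C} {z : Pt} {e : Finset (Gn × Bool)} (h : Nb p z e) (hz : ∀ n, z ≠ .nat n) :
    InB p z e := by
  rintro ⟨n | κ, b⟩ hg
  · obtain rfl : b = false := h _ hg
    exact .natF n (hz n)
  · exact .on _ _ (h _ hg)

theorem nb_union {ι : Type*} {S : Set ι} (hS : S.Finite) {p : C} {z : Pt}
    {Φ : ι → C → Pt → Prop}
    (h : ∀ d ∈ S, ∃ e, Nb p z e ∧ ∀ r ≤ p, ∀ y, InB r y e → Φ d r y) :
    ∃ e, Nb p z e ∧ ∀ r ≤ p, ∀ y, InB r y e → ∀ d ∈ S, Φ d r y := by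
  classical
  induction S, hS using Set.Finite.induction_on with
  | empty => exact ⟨∅, by simp [Nb], by simp⟩
  | @insert a S _ _ ih =>
    obtain ⟨e, h1, h2⟩ := ih fun d hd => h d (Or.inr hd)
    obtain ⟨e', h3, h4⟩ := h a (Or.inl rfl)
    refine ⟨e ∪ e', fun g hg => (Finset.mem_union.1 hg).elim (h1 g) (h3 g), ?_⟩
    rintro r hr y hy d (rfl | hd)
    · exact h4 r hr y fun g hg => hy g (Finset.mem_union_right _ hg)
    · exact h2 r hr y (fun g hg => hy g (Finset.mem_union_left _ hg)) d hd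

theorem Sd.nb {p : C} {z : Pt} (hz : ∀ n, z ≠ .nat n) {g : Gn} {s : Bool} (h : Sd p z g s) :
    ∃ e, Nb p z e ∧ ∀ r ≤ p, ∀ y, InB r y e → Sd r y g s := by
  classical
  induction h with
  | natT n h => exact absurd h (hz n)
  | natF n h =>
    exact ⟨{(.inl n, false)}, by simp [Nb, GenP], fun r _ y hy => hy (.inl n, false) (by simp)⟩
  | on x s h =>
    exact ⟨{(.inr x, s)}, by simpa [Nb, GenP] using h, fun r _ y hy => hy (.inr x, s) (by simp)⟩
  | fe x y l e h1 h2 h3 h4 _ _ ih1 ih2 =>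
    obtain ⟨e1, a1, a2⟩ := ih1
    obtain ⟨e2, b1, b2⟩ := nb_union (S := {d | d ∈ l}) (List.finite_toSet l)
      (Φ := fun d r y => Sd r y d.1.1 (!d.1.2)) ih2
    refine ⟨e1 ∪ e2, fun g hg => (Finset.mem_union.1 hg).elim (a1 g) (b1 g), fun r hr w hw => ?_⟩
    obtain ⟨y', g1, g2⟩ := hr x y h1
    exact .fe x y' l e g1 (h2.trans g2.1) h3 h4
      (a2 r hr w fun g hg => hw g (Finset.mem_union_left _ hg))
      (b2 r hr w fun g hg => hw g (Finset.mem_union_right _ hg))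

theorem InB.nb {p : C} {z : Pt} (hz : ∀ n, z ≠ .nat n) {e0 : Finset (Gn × Bool)}
    (h : InB p z e0) : ∃ e, Nb p z e ∧ ∀ r ≤ p, ∀ y, InB r y e → InB r y e0 :=
  nb_union (S := (e0 : Set (Gn × Bool))) e0.finite_toSet (Φ := fun d r y => Sd r y d.1 d.2)
    fun d hd => (h d hd).nb hz

/-- a neighbourhood code of `t` is one of `z` when the path of `t` lies on the path of `z` -/
theorem Nb.transfer {p : PP} {t z : Pt} {e : Finset (Gn × Bool)} (h : Nb p.1 t e)
    (hz : ∀ r ≤ p, ∀ κ i, KP r.1 t κ i → ∃ s ≤ r, KP s.1 z κ i) : ∃ s ≤ p, Nb s.1 z e := by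
  refine fin_dn e.finite_toSet (Φ := fun g s => GenP s.1 z g) (fun _ _ _ hs g => g.mono hs) ?_
  rintro ⟨n | κ, b⟩ hg r hr
  · exact ⟨r, le_rfl, h _ hg⟩
  · exact hz r hr κ b (KP.mono (h _ hg) hr)

end Pool.Agent.P.MP_63de32_gt
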