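import Pool.Agent.P.MP_63de32_gt.Raw

set_option autoImplicit false

/-! Valid conditions, the poset, transfer between the stages and the whole iteration. -/

open Pool.Agent.Lib.PosetForcing

namespace Pool.Agent.P.MP_63de32_gt

/-- forced implication among the conditions satisfying `V` -/
def Imp (V : C → Prop) (p : C) (H Φ : C → Prop) : Prop :=
  ∀ r, V r → r ≤ p → H r → ∃ s, V s ∧ s ≤ r ∧ Φ s

theorem Imp.mono {V : C → Prop} {p q : C} {H Φ : C → Prop} (h : Imp V p H Φ) (hq : q ≤ p) :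
    Imp V q H Φ := fun r h1 h2 h3 => h r h1 (h2.trans hq) h3

/-- the object coded at `x` is forced to be a new path of the right kind -/
structure ProperV (V : C → Prop) (x : O) (p : C) : Prop where
  act : ∀ κ i, Imp V p (fun r => K r x κ i) (fun r => ActN r κ ∧ κ < x)
  fn : ∀ κ, Imp V p (fun r => K r x κ true ∧ K r x κ false) (fun _ => False)
  down : ∀ κ i μ m, Imp V p (fun r => K r x κ i ∧ K r κ μ m) (fun r => K r x μ m)
  lin : ∀ κ i μ m, μ < κ → Imp V p (fun r => K r x κ i ∧ K r x μ m)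
    (fun r => K r κ μ m ∧ κ < x)
  cnt : kind x = true → (Dm x).Countable
  newN : kind x = true → ∀ κ < x, Imp V p (fun r => ActN r κ)
    (fun r => (∃ i, K r x κ i) ∨ Split r x κ)
  unc : kind x = false → ∀ T : Set O, T.Countable →
    Imp V p (fun _ => True) (fun r => ∃ κ i, κ ∉ T ∧ K r x κ i)
  newB : kind x = false → ∀ j < x, Imp V p (fun r => ActB r j) (fun r => Split r x j)

theorem ProperV.mono {V : C → Prop} {x : O} {p q : C} (h : ProperV V x p) (hq : q ≤ p) :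
    ProperV V x q :=
  ⟨fun κ i => (h.act κ i).mono hq, fun κ => (h.fn κ).mono hq,
    fun κ i μ m => (h.down κ i μ m).mono hq, fun κ i μ m hl => (h.lin κ i μ m hl).mono hq, h.cnt,
    fun hk κ hκ => (h.newN hk κ hκ).mono hq, fun hk T hT => (h.unc hk T hT).mono hq,
    fun hk j hj => (h.newB hk j hj).mono hq⟩

/-- the value `y` is allowed at the stage `x` -/
structure OkV (V : C → Prop) (x : O) (p : C) (y : Y) : Prop where
  proper : ProperV V x p
  nocol : kind x = true → y.2 = ∅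
  noent : kind x = false → y.1 = []
  entN : ∀ e ∈ y.1, ∀ n, e.1.1 = .inl n → e.1.2 = true
  entO : ∀ e ∈ y.1, ∀ z, e.1.1 = .inr z → Imp V p (fun _ => True) (fun r => K r x z (!e.1.2))
  col : ∀ c ∈ y.2, Imp V p (fun _ => True) (fun r => K r x c.1 c.2.1)
  sep : ∀ c ∈ y.2, ∀ c' ∈ y.2, c.1 < c'.1 → c.2.2 = c'.2.2 → c'.1 < x →
    Imp V p (fun _ => True) (fun r => Sd r (.cone c.1 (!c.2.1)) (.inr c'.1) c'.2.1)

theorem OkV.mono {V : C → Prop} {x : O} {p q : C} {y : Y} (h : OkV V x p y) (hq : q ≤ p) :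
    OkV V x q y :=
  ⟨h.proper.mono hq, h.nocol, h.noent, h.entN, fun e he z hz => (h.entO e he z hz).mono hq,
    fun c hc => (h.col c hc).mono hq,
    fun c hc c' hc' h1 h2 h3 => (h.sep c hc c' hc' h1 h2 h3).mono hq⟩

/-- validity of a value, by recursion on the stage -/
noncomputable def Ok : O → C → Y → Prop :=
  (wellFounded_lt (α := O)).fix fun x Ok' p y =>
    OkV (fun r => Sup x r ∧ ∀ ι (h : ι < x) y, r.f ι = some y → Ok' ι h (r.restr ι) y) x p y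

/-- valid conditions -/
def Valid (p : C) : Prop := ∀ ι y, p.f ι = some y → Ok ι (p.restr ι) y

theorem ok_eq (x : O) (p : C) (y : Y) : Ok x p y ↔ OkV (fun r => Sup x r ∧ Valid r) x p y := by
  have e : (fun r : C => Sup x r ∧ ∀ ι (_ : ι < x) y, r.f ι = some y → Ok ι (r.restr ι) y) =
      fun r => Sup x r ∧ Valid r := by
    funext r
    exact propext ⟨fun h => ⟨h.1, fun ι y hy => h.2 ι (h.1 ι (by simp [hy])) y hy⟩,
      fun h => ⟨h.1, fun ι _ y hy => h.2 ι y hy⟩⟩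
  rw [← e]
  exact iff_of_eq (congrFun (congrFun (WellFounded.fix_eq _ _ x) p) y)

theorem Ok.mono {x : O} {p q : C} {y : Y} (h : Ok x p y) (hq : q ≤ p) : Ok x q y :=
  (ok_eq _ _ _).2 (((ok_eq _ _ _).1 h).mono hq)

theorem Valid.restr {p : C} (h : Valid p) (α : O) : Valid (p.restr α) := fun ι y hy => by
  obtain ⟨h1, h2⟩ := restr_f_some hy
  rw [restr_restr h1.le]
  exact h ι y h2

/-- the poset -/
def PP : Type 1 := {p : C // Valid p}

noncomputable instance : Preorder PP := inferInstanceAs (Preorder {p : C // Valid p})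

theorem PP.le_def {p q : PP} : p ≤ q ↔ p.1 ≤ q.1 := Iff.rfl

noncomputable instance : OrderTop PP where
  top := ⟨⊤, fun _ _ h => absurd h (by simp [top_f])⟩
  le_top p := (le_top : p.1 ≤ ⊤)

/-- restriction -/
noncomputable def PP.restr (p : PP) (α : O) : PP := ⟨p.1.restr α, p.2.restr α⟩

theorem PP.le_restr (p : PP) (α : O) : p ≤ p.restr α := MP_63de32_gt.le_restr p.1 α

theorem PP.restr_mono {p q : PP} (h : p ≤ q) (α : O) : p.restr α ≤ q.restr α :=
  MP_63de32_gt.restr_mono h α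

theorem PP.sup_restr (p : PP) (α : O) : Sup α (p.restr α).1 := MP_63de32_gt.sup_restr p.1 α

theorem PP.restr_le_restr (p : PP) {α β : O} (h : α ≤ β) : p.restr β ≤ p.restr α :=
  MP_63de32_gt.restr_le_restr p.1 h

theorem PP.restr_le_of_sup {p q : PP} {α : O} (h : p ≤ q) (hq : Sup α q.1) : p.restr α ≤ q :=
  MP_63de32_gt.restr_le_of_sup h hq

theorem amalg (p r : PP) (x : O) (hr : Sup x r.1) (h : r ≤ p.restr x) :
    ∃ s : PP, s ≤ r ∧ s ≤ p ∧ (∀ γ, γ < x → s.1.f γ = r.1.f γ) ∧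
      ∀ γ, x ≤ γ → s.1.f γ = p.1.f γ := by
  classical
  let s : C := ⟨fun γ => if γ < x then r.1.f γ else p.1.f γ, (r.1.fin.union p.1.fin).subset
    fun γ h => by by_cases hγ : γ < x <;> simp_all⟩
  have e1 : ∀ γ, γ < x → s.f γ = r.1.f γ := fun γ h => if_pos h
  have e2 : ∀ γ, x ≤ γ → s.f γ = p.1.f γ := fun γ h => if_neg (not_lt.2 h)
  have l1 : s ≤ r.1 := fun γ y hy => ⟨y, by rw [e1 γ (hr γ (by simp [hy])), hy], YLe.refl y⟩
  have l2 : s ≤ p.1 := fun γ y hy => by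
    rcases lt_or_ge γ x with h1 | h1
    · obtain ⟨y', h2, h3⟩ := h γ y (by rw [← hy]; exact restr_f_of_lt h1)
      exact ⟨y', by rw [e1 γ h1, h2], h3⟩
    · exact ⟨y, by rw [e2 γ h1, hy], YLe.refl y⟩
  refine ⟨⟨s, fun ι y hy => ?_⟩, l1, l2, e1, e2⟩
  rcases lt_or_ge ι x with h1 | h1
  · exact (r.2 ι y (by rw [← e1 ι h1, hy])).mono (restr_mono l1 ι)
  · exact (p.2 ι y (by rw [← e2 ι h1, hy])).mono (restr_mono l2 ι)

/-- a monotone property depending only on the stages below `x` -/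
structure Loc (x : O) (φ : C → Prop) : Prop where
  mono : ∀ r s, s ≤ r → φ r → φ s
  restr : ∀ r, φ r → φ (r.restr x)

theorem Loc.true (x : O) : Loc x fun _ => True := ⟨fun _ _ _ h => h, fun _ h => h⟩

theorem Loc.false (x : O) : Loc x fun _ => False := ⟨fun _ _ _ h => h, fun _ h => h⟩

theorem Loc.const (x : O) (A : Prop) : Loc x fun _ => A := ⟨fun _ _ _ h => h, fun _ h => h⟩

theorem Loc.and {x : O} {φ ψ : C → Prop} (h : Loc x φ) (h' : Loc x ψ) :
    Loc x fun r => φ r ∧ ψ r :=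
  ⟨fun r s hs g => ⟨h.mono r s hs g.1, h'.mono r s hs g.2⟩,
    fun r g => ⟨h.restr r g.1, h'.restr r g.2⟩⟩

theorem Loc.or {x : O} {φ ψ : C → Prop} (h : Loc x φ) (h' : Loc x ψ) :
    Loc x fun r => φ r ∨ ψ r :=
  ⟨fun r s hs g => g.imp (h.mono r s hs) (h'.mono r s hs),
    fun r g => g.imp (h.restr r) (h'.restr r)⟩

theorem Loc.ex {x : O} {ι : Sort*} {φ : ι → C → Prop} (h : ∀ i, Loc x (φ i)) :
    Loc x fun r => ∃ i, φ i r :=
  ⟨fun r s hs ⟨i, g⟩ => ⟨i, (h i).mono r s hs g⟩, fun r ⟨i, g⟩ => ⟨i, (h i).restr r g⟩⟩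

theorem loc_K {x x' : O} (h : x' ≤ x) (κ : O) (i : Bool) : Loc x fun r => K r x' κ i :=
  ⟨fun _ _ hs g => g.mono hs, fun _ g => g.restr h⟩

theorem loc_actN {x κ : O} (h : κ < x) : Loc x fun r => ActN r κ :=
  ⟨fun _ _ hs g => g.mono hs, fun _ g => g.restr h⟩

theorem loc_actB {x κ : O} (h : κ < x) : Loc x fun r => ActB r κ :=
  ⟨fun _ _ hs g => g.mono hs, fun _ g => g.restr h⟩

theorem loc_split {x a b : O} (ha : a ≤ x) (hb : b ≤ x) : Loc x fun r => Split r a b :=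
  ⟨fun _ _ hs g => g.mono hs, fun _ g => g.restr ha hb⟩

theorem loc_sd {x a : O} {b : Bool} {g : Gn} {s : Bool} (ha : a ≤ x) (hg : GLt g x) :
    Loc x fun r => Sd r (.cone a b) g s :=
  ⟨fun _ _ hs g => g.mono hs, fun _ h => h.restr ha hg⟩

/-- forced implication in the whole iteration -/
def ImpP (p : PP) (H Φ : C → Prop) : Prop := ∀ r : PP, r ≤ p → H r.1 → ∃ s : PP, s ≤ r ∧ Φ s.1

theorem imp_iff {x : O} {p : PP} {H Φ : C → Prop} (hH : Loc x H) (hΦ : Loc x Φ) :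
    Imp (fun r => Sup x r ∧ Valid r) (p.1.restr x) H Φ ↔ ImpP p H Φ := by
  constructor
  · intro h r hr hHr
    obtain ⟨s, hs1, hs2, hs3⟩ := h (r.1.restr x) ⟨sup_restr _ _, r.2.restr x⟩ (restr_mono hr x)
      (hH.restr _ hHr)
    obtain ⟨t, t1, t2, -, -⟩ := amalg r ⟨s, hs1.2⟩ x hs1.1 hs2
    exact ⟨t, t2, hΦ.mono _ _ t1 hs3⟩
  · intro h r hr hrp hHr
    obtain ⟨t, t1, t2, t3, -⟩ := amalg p ⟨r, hr.2⟩ x hr.1 hrp
    obtain ⟨s, hs, hs'⟩ := h t t2 (hH.mono _ _ t1 hHr)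
    exact ⟨s.1.restr x, ⟨sup_restr _ _, s.2.restr x⟩, restr_le_of_sup (hs.trans t1) hr.1,
      hΦ.restr _ hs'⟩

/-- `p` forces the property `φ` of raw conditions -/
def Fc (p : PP) (φ : C → Prop) : Prop := ∀ r : PP, r ≤ p → ∃ s : PP, s ≤ r ∧ φ s.1

theorem Fc.mono {p q : PP} {φ : C → Prop} (h : Fc p φ) (hq : q ≤ p) : Fc q φ :=
  fun r hr => h r (hr.trans hq)

theorem Fc.of_dn {p : PP} {φ : C → Prop} (h : ∀ r ≤ p, ∃ s ≤ r, Fc s φ) : Fc p φ := fun r hr => by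
  obtain ⟨s, hs, h1⟩ := h r hr
  obtain ⟨t, ht, h2⟩ := h1 s le_rfl
  exact ⟨t, ht.trans hs, h2⟩

theorem fc_iff {x : O} {p : PP} {Φ : C → Prop} (hΦ : Loc x Φ) :
    Imp (fun r => Sup x r ∧ Valid r) (p.1.restr x) (fun _ => True) Φ ↔ Fc p Φ :=
  (imp_iff (Loc.true x) hΦ).trans ⟨fun h r hr => h r hr trivial, fun h r hr _ => h r hr⟩

theorem ImpP.restr {x : O} {p : PP} {H Φ : C → Prop} (hH : Loc x H) (hΦ : Loc x Φ)
    (h : ImpP p H Φ) : ImpP (p.restr x) H Φ := by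
  rw [← imp_iff hH hΦ] at h ⊢
  have e : (p.restr x).1.restr x = p.1.restr x := restr_restr le_rfl
  rwa [e]

theorem Fc.restr {x : O} {p : PP} {Φ : C → Prop} (hΦ : Loc x Φ) (h : Fc p Φ) :
    Fc (p.restr x) Φ := fun r hr =>
  ImpP.restr (Loc.true x) hΦ (fun r hr _ => h r hr) r hr trivial

/-- a family of monotone properties forced to describe a path -/
structure IsPath (F : PP → O → Bool → Prop) (p : PP) : Prop where
  mono : ∀ r s κ i, s ≤ r → F r κ i → F s κ i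
  act : ∀ r ≤ p, ∀ κ i, F r κ i → ∃ s ≤ r, ActN s.1 κ
  fn : ∀ r ≤ p, ∀ κ, F r κ true → F r κ false → False
  down : ∀ r ≤ p, ∀ κ i μ m, F r κ i → K r.1 κ μ m → ∃ s ≤ r, F s μ m
  lin : ∀ r ≤ p, ∀ κ i μ m, μ < κ → F r κ i → F r μ m → ∃ s ≤ r, K s.1 κ μ m

theorem IsPath.le {F : PP → O → Bool → Prop} {p q : PP} (h : IsPath F p) (hq : q ≤ p) :
    IsPath F q :=
  ⟨h.mono, fun r hr => h.act r (hr.trans hq), fun r hr => h.fn r (hr.trans hq),
    fun r hr => h.down r (hr.trans hq), fun r hr => h.lin r (hr.trans hq)⟩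

theorem IsPath.eq {F : PP → O → Bool → Prop} {p r : PP} (h : IsPath F p) (hr : r ≤ p) {κ : O}
    {i j : Bool} (h1 : F r κ i) (h2 : F r κ j) : i = j := by
  cases i <;> cases j
  · rfl
  · exact (h.fn r hr κ h2 h1).elim
  · exact (h.fn r hr κ h1 h2).elim
  · rfl

theorem IsPath.not_both {F : PP → O → Bool → Prop} {p r : PP} (h : IsPath F p) (hr : r ≤ p) {κ : O}
    {i : Bool} (h1 : F r κ i) (h2 : F r κ (!i)) : False := by
  have := h.eq hr h1 h2
  cases i <;> simp at this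

/-- the path is forced to be uncountable -/
def Unc (F : PP → O → Bool → Prop) (p : PP) : Prop :=
  ∀ T : Set O, T.Countable → ∀ r ≤ p, ∃ s ≤ r, ∃ κ i, κ ∉ T ∧ F s κ i

/-- the object coded at `x` is forced to be a new path of the right kind -/
structure Proper (x : O) (p : PP) : Prop where
  path : IsPath (fun r => K r.1 x) p
  cnt : kind x = true → (Dm x).Countable
  newN : kind x = true → ∀ κ < x, ∀ r ≤ p, ActN r.1 κ →
    ∃ s ≤ r, (∃ i, K s.1 x κ i) ∨ Split s.1 x κ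
  unc : kind x = false → Unc (fun r => K r.1 x) p
  newB : kind x = false → ∀ j < x, ∀ r ≤ p, ActB r.1 j → ∃ s ≤ r, Split s.1 x j

theorem Proper.le {x : O} {p q : PP} (h : Proper x p) (hq : q ≤ p) : Proper x q :=
  ⟨h.path.le hq, h.cnt, fun hk κ hκ r hr => h.newN hk κ hκ r (hr.trans hq),
    fun hk T hT r hr => h.unc hk T hT r (hr.trans hq),
    fun hk κ hκ r hr => h.newB hk κ hκ r (hr.trans hq)⟩

theorem loc_aux1 (x κ : O) : Loc x fun r => ActN r κ ∧ κ < x :=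
  ⟨fun _ _ hs g => ⟨g.1.mono hs, g.2⟩, fun _ g => ⟨g.1.restr g.2, g.2⟩⟩

theorem loc_aux2 (x κ μ : O) (i m : Bool) : Loc x fun r => K r x κ i ∧ K r κ μ m :=
  ⟨fun _ _ hs g => ⟨g.1.mono hs, g.2.mono hs⟩,
    fun _ g => ⟨g.1.restr le_rfl, g.2.restr g.1.lt.le⟩⟩

theorem loc_aux3 (x κ μ : O) (m : Bool) : Loc x fun r => K r κ μ m ∧ κ < x :=
  ⟨fun _ _ hs g => ⟨g.1.mono hs, g.2⟩, fun _ g => ⟨g.1.restr g.2.le, g.2⟩⟩

theorem proper_iff {x : O} {p : PP} :
    ProperV (fun r => Sup x r ∧ Valid r) x (p.1.restr x) ↔ Proper x p := by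
  have lK := fun κ i => loc_K (le_refl x) κ i
  constructor
  · intro h
    refine ⟨⟨fun _ _ _ _ hs g => g.mono hs, fun r hr κ i g => ?_, fun r hr κ g1 g2 => ?_,
      fun r hr κ i μ m g1 g2 => ?_, fun r hr κ i μ m hl g1 g2 => ?_⟩, h.cnt,
      fun hk κ hκ r hr g => ?_, fun hk T hT r hr => ?_, fun hk j hj r hr g => ?_⟩
    · obtain ⟨s, hs, g'⟩ := (imp_iff (lK κ i) (loc_aux1 x κ)).1 (h.act κ i) r hr g
      exact ⟨s, hs, g'.1⟩
    · obtain ⟨s, -, g'⟩ := (imp_iff ((lK κ true).and (lK κ false)) (Loc.false x)).1 (h.fn κ) r hr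
        ⟨g1, g2⟩
      exact g'
    · exact (imp_iff (loc_aux2 x κ μ i m) (lK μ m)).1 (h.down κ i μ m) r hr ⟨g1, g2⟩
    · obtain ⟨s, hs, g'⟩ := (imp_iff ((lK κ i).and (lK μ m)) (loc_aux3 x κ μ m)).1
        (h.lin κ i μ m hl) r hr ⟨g1, g2⟩
      exact ⟨s, hs, g'.1⟩
    · exact (imp_iff (loc_actN hκ) ((Loc.ex fun i => lK κ i).or (loc_split le_rfl hκ.le))).1
        (h.newN hk κ hκ) r hr g
    · exact (fc_iff (Loc.ex fun κ => Loc.ex fun i => (Loc.const x (κ ∉ T)).and (lK κ i))).1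
        (h.unc hk T hT) r hr
    · exact (imp_iff (loc_actB hj) (loc_split le_rfl hj.le)).1 (h.newB hk j hj) r hr g
  · intro h
    refine ⟨fun κ i => (imp_iff (lK κ i) (loc_aux1 x κ)).2 fun r hr g => ?_,
      fun κ => (imp_iff ((lK κ true).and (lK κ false)) (Loc.false x)).2 fun r hr g => ?_,
      fun κ i μ m => (imp_iff (loc_aux2 x κ μ i m) (lK μ m)).2 fun r hr g => ?_,
      fun κ i μ m hl => (imp_iff ((lK κ i).and (lK μ m)) (loc_aux3 x κ μ m)).2 fun r hr g => ?_,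
      h.cnt, fun hk κ hκ => (imp_iff (loc_actN hκ)
        ((Loc.ex fun i => lK κ i).or (loc_split le_rfl hκ.le))).2 fun r hr g => ?_,
      fun hk T hT => (fc_iff
        (Loc.ex fun κ => Loc.ex fun i => (Loc.const x (κ ∉ T)).and (lK κ i))).2 fun r hr => ?_,
      fun hk j hj => (imp_iff (loc_actB hj) (loc_split le_rfl hj.le)).2 fun r hr g => ?_⟩
    · obtain ⟨s, hs, g'⟩ := h.path.act r hr κ i g
      exact ⟨s, hs, g', g.lt⟩
    · exact (h.path.fn r hr κ g.1 g.2).elim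
    · exact h.path.down r hr κ i μ m g.1 g.2
    · obtain ⟨s, hs, g'⟩ := h.path.lin r hr κ i μ m hl g.1 g.2
      exact ⟨s, hs, g', g.1.lt⟩
    · exact h.newN hk κ hκ r hr g
    · exact h.unc hk T hT r hr
    · exact h.newB hk j hj r hr g

theorem Proper.restr {x : O} {p : PP} (h : Proper x p) : Proper x (p.restr x) := by
  rw [← proper_iff] at h ⊢
  have e : (p.restr x).1.restr x = p.1.restr x := restr_restr le_rfl
  rwa [e]

/-- the value `y` is allowed at the stage `x` -/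
structure POk (x : O) (p : PP) (y : Y) : Prop where
  proper : Proper x p
  nocol : kind x = true → y.2 = ∅
  noent : kind x = false → y.1 = []
  entN : ∀ e ∈ y.1, ∀ n, e.1.1 = .inl n → e.1.2 = true
  entO : ∀ e ∈ y.1, ∀ z, e.1.1 = .inr z → Fc p fun r => K r x z (!e.1.2)
  col : ∀ c ∈ y.2, Fc p fun r => K r x c.1 c.2.1
  sep : ∀ c ∈ y.2, ∀ c' ∈ y.2, c.1 < c'.1 → c.2.2 = c'.2.2 →
    Fc p fun r => Sd r (.cone c.1 (!c.2.1)) (.inr c'.1) c'.2.1

theorem POk.le {x : O} {p q : PP} {y : Y} (h : POk x p y) (hq : q ≤ p) : POk x q y :=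
  ⟨h.proper.le hq, h.nocol, h.noent, h.entN, fun e he z hz => (h.entO e he z hz).mono hq,
    fun c hc => (h.col c hc).mono hq, fun c hc c' hc' h1 h2 => (h.sep c hc c' hc' h1 h2).mono hq⟩

theorem Fc.K_lt {p : PP} {x κ : O} {i : Bool} (h : Fc p fun r => K r x κ i) : κ < x := by
  obtain ⟨s, -, hs⟩ := h p le_rfl
  exact hs.lt

theorem ok_iff {x : O} {p : PP} {y : Y} : Ok x (p.1.restr x) y ↔ POk x p y := by
  rw [ok_eq]
  constructor
  · intro h
    have hc : ∀ c ∈ y.2, Fc p fun r => K r x c.1 c.2.1 := fun c hc =>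
      (fc_iff (loc_K le_rfl _ _)).1 (h.col c hc)
    refine ⟨proper_iff.1 h.proper, h.nocol, h.noent, h.entN,
      fun e he z hz => (fc_iff (loc_K le_rfl _ _)).1 (h.entO e he z hz), hc,
      fun c hc1 c' hc' h1 h2 => ?_⟩
    have h3 := (hc c' hc').K_lt
    exact (fc_iff (loc_sd (g := .inr c'.1) (h1.trans h3).le h3)).1 (h.sep c hc1 c' hc' h1 h2 h3)
  · intro h
    exact ⟨proper_iff.2 h.proper, h.nocol, h.noent, h.entN,
      fun e he z hz => (fc_iff (loc_K le_rfl _ _)).2 (h.entO e he z hz),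
      fun c hc => (fc_iff (loc_K le_rfl _ _)).2 (h.col c hc),
      fun c hc c' hc' h1 h2 h3 => (fc_iff (loc_sd (g := .inr c'.1) (h1.trans h3).le h3)).2
        (h.sep c hc c' hc' h1 h2)⟩

theorem PP.ok (p : PP) {x : O} {y : Y} (h : p.1.f x = some y) : POk x p y :=
  ok_iff.1 (p.2 x y h)

theorem POk.restr {x : O} {p : PP} {y : Y} (h : POk x p y) : POk x (p.restr x) y := by
  rw [← ok_iff] at h ⊢
  have e : (p.restr x).1.restr x = p.1.restr x := restr_restr le_rfl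
  rwa [e]

theorem PP.proper (p : PP) {x : O} (h : p.1.f x ≠ none) : Proper x p := by
  obtain ⟨y, hy⟩ := Option.ne_none_iff_exists'.1 h
  exact (p.ok hy).proper

/-- changing one value -/
theorem PP.update (p : PP) (x : O) (y' : Y) (hle : ∀ y, p.1.f x = some y → YLe y' y)
    (h : POk x p y') : ∃ s : PP, s ≤ p ∧ s.1.f x = some y' ∧ ∀ γ, γ ≠ x → s.1.f γ = p.1.f γ := by
  classical
  let s : C := ⟨Function.update p.1.f x (some y'), (p.1.fin.insert x).subset fun γ hγ => by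
    by_cases e : γ = x
    · exact Or.inl e
    · exact Or.inr (by simpa [Function.update_of_ne e] using hγ)⟩
  have e1 : s.f x = some y' := Function.update_self ..
  have e2 : ∀ γ, γ ≠ x → s.f γ = p.1.f γ := fun γ e => Function.update_of_ne e ..
  have l : s ≤ p.1 := fun γ y hy => by
    by_cases e : γ = x
    · subst e; exact ⟨y', e1, hle y hy⟩
    · exact ⟨y, by rw [e2 γ e, hy], YLe.refl y⟩
  refine ⟨⟨s, fun ι y hy => ?_⟩, l, e1, e2⟩
  by_cases e : ι = x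
  · subst e
    obtain rfl : y' = y := Option.some.inj (e1.symm.trans hy)
    exact (ok_iff.2 h).mono (MP_63de32_gt.restr_mono l ι)
  · exact (p.2 ι y (by rw [← e2 ι e, hy])).mono (MP_63de32_gt.restr_mono l ι)

theorem Proper.of_dn {x : O} {p : PP} (h : ∀ r ≤ p, ∃ s ≤ r, Proper x s) : Proper x p := by
  refine ⟨⟨fun _ _ _ _ hs g => g.mono hs, fun r hr κ i g => ?_, fun r hr κ g1 g2 => ?_,
    fun r hr κ i μ m g1 g2 => ?_, fun r hr κ i μ m hl g1 g2 => ?_⟩, fun hk => ?_,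
    fun hk κ hκ r hr g => ?_, fun hk T hT r hr => ?_, fun hk j hj r hr g => ?_⟩
  · obtain ⟨s, hs, h1⟩ := h r hr
    obtain ⟨t, ht, h2⟩ := h1.path.act s le_rfl κ i (g.mono hs)
    exact ⟨t, ht.trans hs, h2⟩
  · obtain ⟨s, hs, h1⟩ := h r hr
    exact h1.path.fn s le_rfl κ (g1.mono hs) (g2.mono hs)
  · obtain ⟨s, hs, h1⟩ := h r hr
    obtain ⟨t, ht, h2⟩ := h1.path.down s le_rfl κ i μ m (g1.mono hs) (g2.mono hs)
    exact ⟨t, ht.trans hs, h2⟩
  · obtain ⟨s, hs, h1⟩ := h r hr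
    obtain ⟨t, ht, h2⟩ := h1.path.lin s le_rfl κ i μ m hl (g1.mono hs) (g2.mono hs)
    exact ⟨t, ht.trans hs, h2⟩
  · obtain ⟨s, -, h1⟩ := h p le_rfl
    exact h1.cnt hk
  · obtain ⟨s, hs, h1⟩ := h r hr
    obtain ⟨t, ht, h2⟩ := h1.newN hk κ hκ s le_rfl (g.mono hs)
    exact ⟨t, ht.trans hs, h2⟩
  · obtain ⟨s, hs, h1⟩ := h r hr
    obtain ⟨t, ht, h2⟩ := h1.unc hk T hT s le_rfl
    exact ⟨t, ht.trans hs, h2⟩
  · obtain ⟨s, hs, h1⟩ := h r hr
    obtain ⟨t, ht, h2⟩ := h1.newB hk j hj s le_rfl (g.mono hs)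
    exact ⟨t, ht.trans hs, h2⟩

/-- activating a stage -/
theorem Proper.activate {x : O} {p : PP} (h : Proper x p) :
    ∃ s : PP, s ≤ p ∧ s.1.f x ≠ none ∧ ∀ γ, γ ≠ x → s.1.f γ = p.1.f γ := by
  by_cases hx : p.1.f x = none
  · obtain ⟨s, hs, h1, h2⟩ := p.update x ([], ∅) (fun y hy => by simp [hx] at hy)
      ⟨h, fun _ => rfl, fun _ => rfl, by simp, by simp, by simp, by simp⟩
    exact ⟨s, hs, by simp [h1], h2⟩
  · exact ⟨p, le_rfl, hx, fun _ _ => rfl⟩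

end Pool.Agent.P.MP_63de32_gt
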